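import Pool.Agent.MP_882061_an.Defs

-- part MP_882061_an.Basic
section

/-!
Partial derivatives on `R^4`, the class of molecules and the affine changes of variable.
-/

open MeasureTheory Filter Topology
open scoped ENNReal ContDiff

namespace Pool.Agent.MP_882061_an

noncomputable section

/-- The `i`-th basis vector of `R^4`. -/
def ee (i : Fin 4) : Sp 3 := EuclideanSpace.single i 1

/-- Partial derivative in direction `i`. -/
def D (i : Fin 4) (f : Sp 3 → ℝ) : Sp 3 → ℝ := fun X => fderiv ℝ f X (ee i)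

/-- Iterated partial derivative. -/
def DL (α : List (Fin 4)) (f : Sp 3 → ℝ) : Sp 3 → ℝ := α.foldr D f

/-- An open set containing the closed upper half-space without the origin. -/
def OO : Set (Sp 3) := {X | X ≠ 0 ∧ -1 < X 0}

/-- Smooth and harmonic on `OO`. -/
def Har (f : Sp 3 → ℝ) : Prop :=
  ContDiffOn ℝ ∞ f OO ∧ ∀ X ∈ OO, ∑ i, D i (D i f) X = 0

/-- Smooth on `OO`, all derivatives decay like those of `‖X‖^(-a)` on the closed half-space. -/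
def Dec (a : ℕ) (f : Sp 3 → ℝ) : Prop :=
  ContDiffOn ℝ ∞ f OO ∧ ∀ α : List (Fin 4), ∃ C : ℝ, ∀ X : Sp 3, 0 ≤ X 0 → X ≠ 0 →
    |DL α f X| ≤ C / ‖X‖ ^ (a + α.length)

/-- A molecule with explicit constant. -/
def Mol (b₀ b₁ : ℕ) (C : ℝ) (f : Sp 3 → ℝ) : Prop :=
  Har f ∧ ∀ α : List (Fin 4), α.length ≤ 2 → ∀ X : Sp 3, 0 ≤ X 0 → X ≠ 0 →
    |DL α f X| ≤ C / ‖X‖ ^ (b₀ + α.length) ∧ |DL α f X| ≤ C / ‖X‖ ^ (b₁ + α.length)

/-- The change of variables `X ↦ (X - (0, y)) / r`. -/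
def aff (y : Bd 3) (r : ℝ) (X : Sp 3) : Sp 3 := r⁻¹ • (X - pt 0 y)

@[simp] theorem DL_nil (f : Sp 3 → ℝ) : DL [] f = f := rfl

@[simp] theorem DL_cons (i : Fin 4) (α : List (Fin 4)) (f : Sp 3 → ℝ) :
    DL (i :: α) f = D i (DL α f) := rfl

theorem DL_append (α β : List (Fin 4)) (f : Sp 3 → ℝ) : DL (α ++ β) f = DL α (DL β f) := by
  simp [DL, List.foldr_append]

@[simp] theorem pt_zero {d : ℕ} (t : ℝ) (x : Bd d) : pt t x 0 = t := by simp [pt]

@[simp] theorem pt_succ {d : ℕ} (t : ℝ) (x : Bd d) (j : Fin d) : pt t x j.succ = x j := by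
  simp [pt]

theorem norm_pt_sq {d : ℕ} (t : ℝ) (x : Bd d) : ‖pt t x‖ ^ 2 = t ^ 2 + ‖x‖ ^ 2 := by
  rw [EuclideanSpace.real_norm_sq_eq, EuclideanSpace.real_norm_sq_eq, Fin.sum_univ_succ]
  simp

theorem norm_pt_zero {d : ℕ} (x : Bd d) : ‖pt 0 x‖ = ‖x‖ := by
  have h := norm_pt_sq 0 x
  have h2 : ‖pt 0 x‖ ^ 2 = ‖x‖ ^ 2 := by rw [h]; ring
  exact (pow_left_inj₀ (norm_nonneg _) (norm_nonneg _) two_ne_zero).1 h2

theorem abs_le_norm_pt {d : ℕ} (t : ℝ) (x : Bd d) : |t| ≤ ‖pt t x‖ := by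
  have h := norm_pt_sq t x
  apply abs_le_of_sq_le_sq' _ (norm_nonneg _) |> fun h => abs_le.2 h
  nlinarith [sq_nonneg ‖x‖]

theorem norm_le_norm_pt {d : ℕ} (t : ℝ) (x : Bd d) : ‖x‖ ≤ ‖pt t x‖ := by
  have h := norm_pt_sq t x
  exact le_of_sq_le_sq_of_nonneg' (by nlinarith [sq_nonneg t])
where
  le_of_sq_le_sq_of_nonneg' {a b : Bd d} {t : ℝ} (h : ‖a‖ ^ 2 ≤ ‖pt t b‖ ^ 2) :
      ‖a‖ ≤ ‖pt t b‖ := (pow_le_pow_iff_left₀ (norm_nonneg _) (norm_nonneg _) two_ne_zero).1 h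

theorem aff_pt (y : Bd 3) (r t : ℝ) (x : Bd 3) :
    aff y r (pt t x) = pt (r⁻¹ * t) (r⁻¹ • (x - y)) := by
  ext i
  refine Fin.cases ?_ (fun j => ?_) i <;> simp [aff]

theorem exists_pt {d : ℕ} (X : Sp d) : ∃ x : Bd d, X = pt (X 0) x := by
  refine ⟨WithLp.toLp 2 (fun j => X j.succ), ?_⟩
  ext i
  refine Fin.cases ?_ (fun j => ?_) i <;> simp

theorem pt_eq_add (t : ℝ) (x : Bd 3) : pt t x = pt 0 x + t • ee 0 := by
  ext i
  refine Fin.cases ?_ (fun j => ?_) i <;> simp [ee]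

theorem isOpen_OO : IsOpen OO := by
  have h1 : IsOpen {X : Sp 3 | X ≠ 0} := isOpen_ne
  have h2 : IsOpen {X : Sp 3 | -1 < X 0} := isOpen_lt continuous_const (by fun_prop)
  exact h1.inter h2

theorem isOpen_upper (d : ℕ) : IsOpen (upper d) := isOpen_lt continuous_const (by fun_prop)

theorem mem_OO {X : Sp 3} (h0 : 0 ≤ X 0) (hX : X ≠ 0) : X ∈ OO := ⟨hX, by linarith⟩

theorem upper_ne_zero {X : Sp 3} (h : X ∈ upper 3) : X ≠ 0 := by
  rintro rfl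
  simp [upper] at h

theorem upper_subset_OO : upper 3 ⊆ OO := fun _ h => mem_OO (le_of_lt h) (upper_ne_zero h)

theorem pt_mem_upper {d : ℕ} {t : ℝ} (ht : 0 < t) (x : Bd d) : pt t x ∈ upper d := by
  simpa [upper] using ht

theorem pt_zero_ne {x : Bd 3} (hx : x ≠ 0) : pt 0 x ≠ 0 := by
  intro h
  apply hx
  rw [← norm_eq_zero, ← norm_pt_zero, h, norm_zero]

theorem contDiffOn_D {s : Set (Sp 3)} (hs : IsOpen s) {f : Sp 3 → ℝ} (hf : ContDiffOn ℝ ∞ f s)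
    (i : Fin 4) : ContDiffOn ℝ ∞ (D i f) s := by
  have h := hf.fderiv_of_isOpen (m := ∞) hs (by simp)
  exact h.clm_apply contDiffOn_const

theorem contDiffOn_DL {s : Set (Sp 3)} (hs : IsOpen s) {f : Sp 3 → ℝ} (hf : ContDiffOn ℝ ∞ f s)
    (α : List (Fin 4)) : ContDiffOn ℝ ∞ (DL α f) s := by
  induction α with
  | nil => exact hf
  | cons i α ih => exact contDiffOn_D hs ih i

theorem diffAt_of {s : Set (Sp 3)} (hs : IsOpen s) {f : Sp 3 → ℝ} (hf : ContDiffOn ℝ ∞ f s)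
    {X : Sp 3} (hX : X ∈ s) : DifferentiableAt ℝ f X :=
  (hf.contDiffAt (hs.mem_nhds hX)).differentiableAt (by simp)

theorem D_congr {s : Set (Sp 3)} (hs : IsOpen s) {f g : Sp 3 → ℝ} (h : Set.EqOn f g s)
    (i : Fin 4) : Set.EqOn (D i f) (D i g) s := by
  intro X hX
  have : f =ᶠ[𝓝 X] g := h.eventuallyEq_of_mem (hs.mem_nhds hX)
  simp only [D, this.fderiv_eq]

theorem DL_congr {s : Set (Sp 3)} (hs : IsOpen s) {f g : Sp 3 → ℝ} (h : Set.EqOn f g s)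
    (α : List (Fin 4)) : Set.EqOn (DL α f) (DL α g) s := by
  induction α with
  | nil => exact h
  | cons i α ih => exact D_congr hs ih i

theorem D_D_eq {f : Sp 3 → ℝ} {X : Sp 3} (hf : ContDiffAt ℝ 2 f X) (i j : Fin 4) :
    D i (D j f) X = fderiv ℝ (fderiv ℝ f) X (ee i) (ee j) := by
  have h1 : DifferentiableAt ℝ (fderiv ℝ f) X :=
    (hf.fderiv_right (m := 1) (by norm_num)).differentiableAt (by simp)
  unfold D
  rw [fderiv_clm_apply h1 (differentiableAt_const _)]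
  simp

theorem D_comm {s : Set (Sp 3)} (hs : IsOpen s) {f : Sp 3 → ℝ} (hf : ContDiffOn ℝ ∞ f s)
    (i j : Fin 4) : Set.EqOn (D i (D j f)) (D j (D i f)) s := by
  intro X hX
  have h2 : ContDiffAt ℝ 2 f X := (hf.contDiffAt (hs.mem_nhds hX)).of_le (by norm_cast)
  rw [D_D_eq h2, D_D_eq h2]
  exact (h2.isSymmSndFDerivAt (by simp)).eq _ _

/-- The Laplacian of Mathlib in terms of the partial derivatives. -/
theorem laplacian_eq {f : Sp 3 → ℝ} {X : Sp 3} (hf : ContDiffAt ℝ 2 f X) :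
    (Laplacian.laplacian f : Sp 3 → ℝ) X = ∑ i, D i (D i f) X := by
  rw [InnerProductSpace.laplacian_eq_iteratedFDeriv_orthonormalBasis f
    (EuclideanSpace.basisFun (Fin 4) ℝ)]
  refine Finset.sum_congr rfl fun i _ => ?_
  rw [D_D_eq hf, iteratedFDeriv_two_apply]
  simp [ee]

theorem fderiv_eq_sum (f : Sp 3 → ℝ) (X v : Sp 3) : fderiv ℝ f X v = ∑ i, v i * D i f X := by
  have hv : v = ∑ i, v i • ee i := by
    ext j
    simp [ee, Pi.single_apply]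
  conv_lhs => rw [hv]
  simp [D, map_sum]

theorem norm_fderiv_le (f : Sp 3 → ℝ) (X : Sp 3) : ‖fderiv ℝ f X‖ ≤ ∑ i, |D i f X| := by
  refine ContinuousLinearMap.opNorm_le_bound _ (by positivity) fun v => ?_
  rw [fderiv_eq_sum, Finset.sum_mul]
  refine (Finset.abs_sum_le_sum_abs _ _).trans (Finset.sum_le_sum fun i _ => ?_)
  rw [abs_mul, mul_comm]
  gcongr
  exact PiLp.norm_apply_le v i

theorem Har.harmonicOnNhd {f : Sp 3 → ℝ} (hf : Har f) :
    InnerProductSpace.HarmonicOnNhd f (upper 3) := by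
  intro X hX
  have hc : ∀ Y ∈ OO, ContDiffAt ℝ 2 f Y := fun Y hY =>
    (hf.1.contDiffAt (isOpen_OO.mem_nhds hY)).of_le (by norm_cast)
  refine ⟨hc X (upper_subset_OO hX), ?_⟩
  filter_upwards [isOpen_OO.mem_nhds (upper_subset_OO hX)] with Y hY
  rw [laplacian_eq (hc Y hY), hf.2 Y hY]
  rfl

/-- The comparison function for `|1 - ρ^(-4)|`. -/
def om (ρ : ℝ) : ℝ := if 1 ≤ ρ then Real.exp (-(1 / ρ ^ 4)) else 1 / ρ ^ 4

/-- The radial majorant of the norm of `I + H(x)`. -/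
def Wt (C : ℝ) (N : ℕ) (ρ : ℝ) : ℝ := om ρ ^ (N - 4) * (1 + C * N * (1 / ρ ^ 4)) ^ 5

/-- A matrix valued function acting on a vector. -/
def act (Ψ : Fin 9 → Fin 9 → Bd 3 → ℝ) (x : Bd 3) (A : Fin 9 → ℝ) : Fin 9 → ℝ :=
  fun α => ∑ β, A β * Ψ α β x

theorem sum_rpow_le {ι : Type*} (s : Finset ι) (a : ι → ℝ≥0∞) {p : ℝ} (hp0 : 0 < p)
    (hp1 : p ≤ 1) : (∑ i ∈ s, a i) ^ p ≤ ∑ i ∈ s, a i ^ p := by
  classical
  induction s using Finset.induction_on with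
  | empty => simp [ENNReal.zero_rpow_of_pos hp0]
  | insert i s hi ih =>
    rw [Finset.sum_insert hi, Finset.sum_insert hi]
    exact (ENNReal.rpow_add_le_add_rpow _ _ hp0.le hp1).trans (by gcongr)

theorem tsum_rpow_le {ι : Type*} (a : ι → ℝ≥0∞) {p : ℝ} (hp0 : 0 < p) (hp1 : p ≤ 1) :
    (∑' i, a i) ^ p ≤ ∑' i, a i ^ p := by
  have h : ∑' i, a i ≤ (∑' i, a i ^ p) ^ p⁻¹ := by
    rw [ENNReal.tsum_eq_iSup_sum]
    refine iSup_le fun s => ?_
    rw [ENNReal.le_rpow_inv_iff hp0]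
    exact (sum_rpow_le s a hp0 hp1).trans (ENNReal.sum_le_tsum s)
  rwa [ENNReal.le_rpow_inv_iff hp0] at h

/-- A countable family of translated and dilated molecules with `p`-summable coefficients. -/
structure Atoms (p : ℝ) (b₀ b₁ : ℕ) (C : ℝ) {ι : Type} (F : ι → Sp 3 → ℝ) (c : ι → ℝ)
    (r : ι → ℝ) : Prop where
  hp0 : 0 < p
  hp1 : p < 1
  h0 : (b₀ : ℝ) * p < 3
  h1 : 3 < (b₁ : ℝ) * p
  mol : ∀ i, Mol b₀ b₁ C (F i)
  pos : ∀ i, 0 < r i
  fin : ∑' i, ‖c i‖ₑ ^ p * ENNReal.ofReal (r i ^ 3) ≠ ⊤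

/-- The sum of the atoms. -/
def syn {ι : Type} (F : ι → Sp 3 → ℝ) (c : ι → ℝ) (y : ι → Bd 3) (r : ι → ℝ) : Sp 3 → ℝ :=
  fun X => ∑' i, c i * F i (aff (y i) (r i) X)

end

end Pool.Agent.MP_882061_an

end

-- part MP_882061_an.Calc
section

/-!
Calculus of the partial derivatives: homogeneous functions, decay classes, finite differences.
-/

open MeasureTheory Filter Topology
open scoped ContDiff

namespace Pool.Agent.MP_882061_an

noncomputable section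

theorem D_add {f g : Sp 3 → ℝ} {X : Sp 3} (hf : DifferentiableAt ℝ f X)
    (hg : DifferentiableAt ℝ g X) (i : Fin 4) :
    D i (fun Y => f Y + g Y) X = D i f X + D i g X := by
  simp only [D]
  rw [fderiv_fun_add hf hg]
  simp

theorem D_sub {f g : Sp 3 → ℝ} {X : Sp 3} (hf : DifferentiableAt ℝ f X)
    (hg : DifferentiableAt ℝ g X) (i : Fin 4) :
    D i (fun Y => f Y - g Y) X = D i f X - D i g X := by
  simp only [D]
  rw [fderiv_fun_sub hf hg]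
  simp

theorem D_mul {f g : Sp 3 → ℝ} {X : Sp 3} (hf : DifferentiableAt ℝ f X)
    (hg : DifferentiableAt ℝ g X) (i : Fin 4) :
    D i (fun Y => f Y * g Y) X = D i f X * g X + f X * D i g X := by
  simp only [D]
  rw [fderiv_fun_mul hf hg]
  simp
  ring

@[simp] theorem D_const (c : ℝ) (i : Fin 4) : D i (fun _ => c) = fun _ => 0 := by
  ext X
  simp [D]

theorem D_const_mul {f : Sp 3 → ℝ} {X : Sp 3} (hf : DifferentiableAt ℝ f X) (c : ℝ) (i : Fin 4) :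
    D i (fun Y => c * f Y) X = c * D i f X := by
  rw [D_mul (differentiableAt_const c) hf]
  simp

theorem D_sum {ι : Type*} (s : Finset ι) {f : ι → Sp 3 → ℝ} {X : Sp 3}
    (hf : ∀ k ∈ s, DifferentiableAt ℝ (f k) X) (i : Fin 4) :
    D i (fun Y => ∑ k ∈ s, f k Y) X = ∑ k ∈ s, D i (f k) X := by
  simp only [D]
  rw [fderiv_fun_sum hf]
  simp

theorem D_coord (i j : Fin 4) (X : Sp 3) : D i (fun Y => Y j) X = if i = j then 1 else 0 := by
  have h : HasFDerivAt (fun Y : Sp 3 => Y j) (EuclideanSpace.proj (𝕜 := ℝ) j) X :=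
    (EuclideanSpace.proj (𝕜 := ℝ) j).hasFDerivAt
  simp only [D, h.fderiv]
  simp [ee, Pi.single_apply, eq_comm]

theorem DL_lin {s : Set (Sp 3)} (hs : IsOpen s) {ι : Type*} (t : Finset ι) (c : ι → ℝ)
    {f : ι → Sp 3 → ℝ} (hf : ∀ k ∈ t, ContDiffOn ℝ ∞ (f k) s) (α : List (Fin 4)) :
    Set.EqOn (DL α fun Y => ∑ k ∈ t, c k * f k Y) (fun Y => ∑ k ∈ t, c k * DL α (f k) Y) s := by
  induction α with
  | nil => exact fun _ _ => rfl
  | cons i α ih =>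
    intro X hX
    rw [DL_cons, D_congr hs ih i hX, D_sum]
    · refine Finset.sum_congr rfl fun k hk => ?_
      exact D_const_mul (diffAt_of hs (contDiffOn_DL hs (hf k hk) α) hX) _ _
    · intro k hk
      exact (diffAt_of hs (contDiffOn_DL hs (hf k hk) α) hX).const_mul _

theorem DL_sub {s : Set (Sp 3)} (hs : IsOpen s) {f g : Sp 3 → ℝ} (hf : ContDiffOn ℝ ∞ f s)
    (hg : ContDiffOn ℝ ∞ g s) (α : List (Fin 4)) :
    Set.EqOn (DL α fun Y => f Y - g Y) (fun Y => DL α f Y - DL α g Y) s := by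
  induction α with
  | nil => exact fun _ _ => rfl
  | cons i α ih =>
    intro X hX
    rw [DL_cons, D_congr hs ih i hX, D_sub (diffAt_of hs (contDiffOn_DL hs hf α) hX)
      (diffAt_of hs (contDiffOn_DL hs hg α) hX)]
    rfl

theorem DL_D_comm {s : Set (Sp 3)} (hs : IsOpen s) {f : Sp 3 → ℝ} (hf : ContDiffOn ℝ ∞ f s)
    (α : List (Fin 4)) (i : Fin 4) : Set.EqOn (DL α (D i f)) (D i (DL α f)) s := by
  induction α with
  | nil => exact fun _ _ => rfl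
  | cons j α ih =>
    intro X hX
    rw [DL_cons, D_congr hs ih j hX, D_comm hs (contDiffOn_DL hs hf α) j i hX]
    rfl

/-- The square of the norm. -/
def ss (X : Sp 3) : ℝ := ∑ i, X i ^ 2

theorem ss_eq (X : Sp 3) : ss X = ‖X‖ ^ 2 := (EuclideanSpace.real_norm_sq_eq X).symm

theorem ss_pos {X : Sp 3} (hX : X ≠ 0) : 0 < ss X := by
  rw [ss_eq]
  positivity

theorem contDiff_coord (j : Fin 4) : ContDiff ℝ ∞ fun Y : Sp 3 => Y j :=
  (EuclideanSpace.proj (𝕜 := ℝ) j : Sp 3 →L[ℝ] ℝ).contDiff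

theorem contDiff_ss : ContDiff ℝ ∞ ss :=
  ContDiff.sum fun i _ => (contDiff_coord i).pow 2

theorem D_ss (i : Fin 4) (X : Sp 3) : D i ss X = 2 * X i := by
  have h : ss = fun Y => ∑ k ∈ Finset.univ, Y k * Y k := by
    ext Y
    simp [ss, sq]
  have hd : ∀ k, DifferentiableAt ℝ (fun Y : Sp 3 => Y k) X := fun k =>
    (contDiff_coord k).differentiable (by simp) X
  rw [h, D_sum (f := fun k Y => Y k * Y k) _ fun k _ => (hd k).mul (hd k)]
  simp only [D_mul (hd _) (hd _), D_coord]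
  simp [Finset.sum_add_distrib]
  ring

theorem D_comp_ss {φ : ℝ → ℝ} {φ' : ℝ} {X : Sp 3} (h : HasDerivAt φ φ' (ss X)) (i : Fin 4) :
    D i (fun Y => φ (ss Y)) X = φ' * (2 * X i) := by
  have hs : HasFDerivAt ss (fderiv ℝ ss X) X :=
    (contDiff_ss.differentiable (by simp) X).hasFDerivAt
  have h2 := h.comp_hasFDerivAt X hs
  have h3 : fderiv ℝ (fun Y => φ (ss Y)) X = φ' • fderiv ℝ ss X := h2.fderiv
  rw [← D_ss]
  simp only [D, h3]
  simp

/-- The punctured space. -/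
def P0 : Set (Sp 3) := {X | X ≠ 0}

theorem isOpen_P0 : IsOpen P0 := isOpen_ne

theorem OO_subset_P0 : OO ⊆ P0 := fun _ h => h.1

/-- Smooth away from the origin and homogeneous of degree `k`. -/
def Hom (k : ℤ) (f : Sp 3 → ℝ) : Prop :=
  ContDiffOn ℝ ∞ f P0 ∧ ∀ c : ℝ, 0 < c → ∀ X : Sp 3, X ≠ 0 → f (c • X) = c ^ k * f X

theorem Hom.D {k : ℤ} {f : Sp 3 → ℝ} (h : Hom k f) (i : Fin 4) : Hom (k - 1) (D i f) := by
  refine ⟨contDiffOn_D isOpen_P0 h.1 i, fun c hc X hX => ?_⟩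
  have hcX : c • X ≠ 0 := smul_ne_zero hc.ne' hX
  have h1 : Set.EqOn (fun Y => f (c • Y)) (fun Y => c ^ k * f Y) P0 := fun Y hY => h.2 c hc Y hY
  have h2 := D_congr isOpen_P0 h1 i hX
  rw [D_const_mul (diffAt_of isOpen_P0 h.1 hX)] at h2
  have h3 : HasFDerivAt (fun Y : Sp 3 => f (c • Y))
      ((fderiv ℝ f (c • X)).comp (c • ContinuousLinearMap.id ℝ (Sp 3))) X :=
    (diffAt_of isOpen_P0 h.1 hcX).hasFDerivAt.comp X ((hasFDerivAt_id X).const_smul c)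
  have h4 : Pool.Agent.MP_882061_an.D i (fun Y => f (c • Y)) X =
      c * Pool.Agent.MP_882061_an.D i f (c • X) := by
    simp only [Pool.Agent.MP_882061_an.D, h3.fderiv]
    simp
  rw [h4] at h2
  rw [zpow_sub_one₀ hc.ne']
  field_simp
  linarith

theorem Hom.DL {k : ℤ} {f : Sp 3 → ℝ} (h : Hom k f) (α : List (Fin 4)) :
    Hom (k - α.length) (DL α f) := by
  induction α with
  | nil => simpa using h
  | cons i α ih =>
    have := ih.D i
    rw [show k - ((i :: α).length : ℤ) = k - α.length - 1 by simp; ring]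
    exact this

theorem Hom.bound {k : ℤ} {f : Sp 3 → ℝ} (h : Hom k f) :
    ∃ C : ℝ, 0 ≤ C ∧ ∀ X : Sp 3, X ≠ 0 → |f X| ≤ C * ‖X‖ ^ k := by
  have hc : ContinuousOn f (Metric.sphere (0 : Sp 3) 1) := by
    refine h.1.continuousOn.mono fun X hX => ?_
    rintro rfl
    simp at hX
  obtain ⟨C, hC⟩ := (isCompact_sphere (0 : Sp 3) 1).exists_bound_of_continuousOn hc
  refine ⟨max C 0, le_max_right _ _, fun X hX => ?_⟩
  have hn : 0 < ‖X‖ := norm_pos_iff.2 hX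
  have hY : ‖X‖⁻¹ • X ∈ Metric.sphere (0 : Sp 3) 1 := by
    simp [norm_smul, hn.ne']
  have hY0 : ‖X‖⁻¹ • X ≠ 0 := smul_ne_zero (inv_ne_zero hn.ne') hX
  have h1 := h.2 ‖X‖ hn _ hY0
  rw [smul_smul, mul_inv_cancel₀ hn.ne', one_smul] at h1
  rw [h1, abs_mul, abs_of_pos (zpow_pos hn k), mul_comm]
  gcongr
  exact (hC _ hY).trans (le_max_left _ _)

theorem Hom.mul {k l : ℤ} {f g : Sp 3 → ℝ} (hf : Hom k f) (hg : Hom l g) :
    Hom (k + l) fun X => f X * g X := by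
  refine ⟨hf.1.mul hg.1, fun c hc X hX => ?_⟩
  simp only [hf.2 c hc X hX, hg.2 c hc X hX, zpow_add₀ hc.ne']
  ring

theorem Hom.add {k : ℤ} {f g : Sp 3 → ℝ} (hf : Hom k f) (hg : Hom k g) :
    Hom k fun X => f X + g X := by
  refine ⟨hf.1.add hg.1, fun c hc X hX => ?_⟩
  simp only [hf.2 c hc X hX, hg.2 c hc X hX]
  ring

theorem Hom.const_mul {k : ℤ} {f : Sp 3 → ℝ} (hf : Hom k f) (a : ℝ) :
    Hom k fun X => a * f X := by
  refine ⟨contDiffOn_const.mul hf.1, fun c hc X hX => ?_⟩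
  simp only [hf.2 c hc X hX]
  ring

theorem hom_zero (k : ℤ) : Hom k fun _ => 0 := ⟨contDiffOn_const, by simp⟩

theorem hom_coord (j : Fin 4) : Hom 1 fun X => X j :=
  ⟨(contDiff_coord j).contDiffOn, by simp⟩

theorem hom_ss : Hom 2 ss := by
  refine ⟨contDiff_ss.contDiffOn, fun c hc X _ => ?_⟩
  simp only [ss_eq, norm_smul, Real.norm_eq_abs, abs_of_pos hc, mul_pow]
  norm_cast

theorem hom_ss_inv : Hom (-2) fun X => (ss X)⁻¹ := by
  refine ⟨contDiff_ss.contDiffOn.inv fun X hX => (ss_pos hX).ne', fun c hc X hX => ?_⟩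
  simp only [hom_ss.2 c hc X hX, mul_inv, zpow_neg]

theorem Hom.dec {a : ℕ} {f : Sp 3 → ℝ} (h : Hom (-(a : ℤ)) f) : Dec a f := by
  refine ⟨h.1.mono OO_subset_P0, fun α => ?_⟩
  obtain ⟨C, -, hC⟩ := (h.DL α).bound
  refine ⟨C, fun X _ hX => (hC X hX).trans_eq ?_⟩
  rw [show -(a : ℤ) - α.length = -((a + α.length : ℕ) : ℤ) by push_cast; ring, zpow_neg,
    zpow_natCast, div_eq_mul_inv]

theorem Dec.D {a : ℕ} {f : Sp 3 → ℝ} (h : Dec a f) (i : Fin 4) : Dec (a + 1) (D i f) := by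
  refine ⟨contDiffOn_D isOpen_OO h.1 i, fun α => ?_⟩
  obtain ⟨C, hC⟩ := h.2 (α ++ [i])
  refine ⟨C, fun X h0 hX => ?_⟩
  have := hC X h0 hX
  rw [DL_append] at this
  simpa [add_assoc, add_comm 1] using this

theorem Dec.lin {a : ℕ} {ι : Type*} (t : Finset ι) (c : ι → ℝ) {f : ι → Sp 3 → ℝ}
    (hf : ∀ k ∈ t, Dec a (f k)) : Dec a fun Y => ∑ k ∈ t, c k * f k Y := by
  refine ⟨ContDiffOn.sum fun k hk => contDiffOn_const.mul (hf k hk).1, fun α => ?_⟩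
  have h1 : ∀ k, ∃ C : ℝ, k ∈ t → ∀ X : Sp 3, 0 ≤ X 0 → X ≠ 0 →
      |DL α (f k) X| ≤ C / ‖X‖ ^ (a + α.length) := by
    intro k
    by_cases hk : k ∈ t
    · obtain ⟨C, hC⟩ := (hf k hk).2 α
      exact ⟨C, fun _ => hC⟩
    · exact ⟨0, fun h => absurd h hk⟩
  choose C hC using h1
  refine ⟨∑ k ∈ t, |c k| * C k, fun X h0 hX => ?_⟩
  rw [DL_lin isOpen_OO t c (fun k hk => (hf k hk).1) α (mem_OO h0 hX), Finset.sum_div]
  refine (Finset.abs_sum_le_sum_abs _ _).trans (Finset.sum_le_sum fun k hk => ?_)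
  rw [abs_mul, mul_div_assoc]
  gcongr
  exact hC k hk X h0 hX

theorem Har.D {f : Sp 3 → ℝ} (h : Har f) (i : Fin 4) : Har (D i f) := by
  refine ⟨contDiffOn_D isOpen_OO h.1 i, fun X hX => ?_⟩
  have h1 : ∀ k, Pool.Agent.MP_882061_an.D k (Pool.Agent.MP_882061_an.D k
      (Pool.Agent.MP_882061_an.D i f)) X = Pool.Agent.MP_882061_an.D i
      (Pool.Agent.MP_882061_an.D k (Pool.Agent.MP_882061_an.D k f)) X := fun k =>
    DL_D_comm isOpen_OO h.1 [k, k] i hX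
  simp only [h1]
  have h3 := D_sum (f := fun k => DL [k, k] f) Finset.univ
    (fun k _ => diffAt_of isOpen_OO (contDiffOn_DL isOpen_OO h.1 [k, k]) hX) i
  have h2 : Set.EqOn (fun Y => ∑ k, DL [k, k] f Y) (fun _ => 0) OO := fun Y hY => h.2 Y hY
  rw [D_congr isOpen_OO h2 i hX, D_const] at h3
  exact h3.symm

theorem Har.DL {f : Sp 3 → ℝ} (h : Har f) (α : List (Fin 4)) : Har (DL α f) := by
  induction α with
  | nil => exact h
  | cons i α ih => exact ih.D i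

theorem Har.lin {ι : Type*} (t : Finset ι) (c : ι → ℝ) {f : ι → Sp 3 → ℝ}
    (hf : ∀ k ∈ t, Har (f k)) : Har fun Y => ∑ k ∈ t, c k * f k Y := by
  refine ⟨ContDiffOn.sum fun k hk => contDiffOn_const.mul (hf k hk).1, fun X hX => ?_⟩
  have h1 : ∀ i, Pool.Agent.MP_882061_an.D i (Pool.Agent.MP_882061_an.D i
      fun Y => ∑ k ∈ t, c k * f k Y) X = ∑ k ∈ t, c k * Pool.Agent.MP_882061_an.D i
        (Pool.Agent.MP_882061_an.D i (f k)) X := fun i =>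
    DL_lin isOpen_OO t c (fun k hk => (hf k hk).1) [i, i] hX
  simp only [h1]
  rw [Finset.sum_comm]
  refine Finset.sum_eq_zero fun k hk => ?_
  rw [← Finset.mul_sum, (hf k hk).2 X hX, mul_zero]

/-- The finite difference in the vertical direction. -/
def dl (L : ℝ) (f : Sp 3 → ℝ) : Sp 3 → ℝ := fun X => f X - f (X + L • ee 0)

@[simp] theorem shift_zero (X : Sp 3) (L : ℝ) : (X + L • ee 0) 0 = X 0 + L := by simp [ee]

theorem shift_mem {L : ℝ} (hL : 1 ≤ L) {X : Sp 3} (hX : X ∈ OO) : X + L • ee 0 ∈ OO := by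
  have h : 0 < (X + L • ee 0) 0 := by
    rw [shift_zero]
    linarith [hX.2]
  exact upper_subset_OO h

theorem ss_shift (X : Sp 3) (L : ℝ) : ss (X + L • ee 0) = ss X + 2 * L * X 0 + L ^ 2 := by
  simp [ss, Fin.sum_univ_four, ee]
  ring

theorem norm_le_shift {X : Sp 3} (h0 : 0 ≤ X 0) {L : ℝ} (hL : 0 ≤ L) :
    ‖X‖ ≤ ‖X + L • ee 0‖ := by
  have h := ss_shift X L
  rw [ss_eq, ss_eq] at h
  exact (pow_le_pow_iff_left₀ (norm_nonneg _) (norm_nonneg _) two_ne_zero).1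
    (by nlinarith [mul_nonneg hL h0])

theorem DL_shift (v : Sp 3) (f : Sp 3 → ℝ) (α : List (Fin 4)) :
    (DL α fun X => f (X + v)) = fun X => DL α f (X + v) := by
  induction α with
  | nil => rfl
  | cons i α ih =>
    ext X
    rw [DL_cons, ih]
    simp only [D, DL_cons]
    rw [fderiv_comp_add_right]

theorem contDiffOn_shift {L : ℝ} (hL : 1 ≤ L) {f : Sp 3 → ℝ} (hf : ContDiffOn ℝ ∞ f OO) :
    ContDiffOn ℝ ∞ (fun X => f (X + L • ee 0)) OO :=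
  hf.comp (contDiff_id.add contDiff_const).contDiffOn fun _ hX => shift_mem hL hX

theorem contDiffOn_dl {L : ℝ} (hL : 1 ≤ L) {f : Sp 3 → ℝ} (hf : ContDiffOn ℝ ∞ f OO) :
    ContDiffOn ℝ ∞ (dl L f) OO := hf.sub (contDiffOn_shift hL hf)

theorem DL_dl {L : ℝ} (hL : 1 ≤ L) {f : Sp 3 → ℝ} (hf : ContDiffOn ℝ ∞ f OO)
    (α : List (Fin 4)) : Set.EqOn (DL α (dl L f)) (dl L (DL α f)) OO := by
  intro X hX
  have := DL_sub isOpen_OO hf (contDiffOn_shift hL hf) α hX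
  rw [DL_shift] at this
  exact this

theorem Har.dl {L : ℝ} (hL : 1 ≤ L) {f : Sp 3 → ℝ} (h : Har f) : Har (dl L f) := by
  refine ⟨contDiffOn_dl hL h.1, fun X hX => ?_⟩
  have h1 : ∀ i, Pool.Agent.MP_882061_an.D i (Pool.Agent.MP_882061_an.D i
      (Pool.Agent.MP_882061_an.dl L f)) X = Pool.Agent.MP_882061_an.D i
        (Pool.Agent.MP_882061_an.D i f) X - Pool.Agent.MP_882061_an.D i
        (Pool.Agent.MP_882061_an.D i f) (X + L • ee 0) := fun i => DL_dl hL h.1 [i, i] hX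
  simp only [h1]
  rw [Finset.sum_sub_distrib, h.2 X hX, h.2 _ (shift_mem hL hX), sub_zero]

theorem nonneg_of_bound {g : Sp 3 → ℝ} {C : ℝ} {n : ℕ}
    (h : ∀ X : Sp 3, 0 ≤ X 0 → X ≠ 0 → |g X| ≤ C / ‖X‖ ^ n) : 0 ≤ C := by
  have h0 : (ee 0 : Sp 3) ≠ 0 := upper_ne_zero (by simp [upper, ee])
  have h1 := (abs_nonneg _).trans (h (ee 0) (by simp [ee]) h0)
  have h2 : 0 < ‖(ee 0 : Sp 3)‖ ^ n := pow_pos (norm_pos_iff.2 h0) n
  by_contra hC
  exact absurd h1 (not_le.2 (div_neg_of_neg_of_pos (not_le.1 hC) h2))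

theorem shift_ne {X : Sp 3} (h0 : 0 ≤ X 0) (hX : X ≠ 0) {L : ℝ} (hL : 0 ≤ L) :
    X + L • ee 0 ≠ 0 :=
  norm_pos_iff.1 ((norm_pos_iff.2 hX).trans_le (norm_le_shift h0 hL))

theorem bound_shift {g : Sp 3 → ℝ} {C : ℝ} {n : ℕ}
    (h : ∀ X : Sp 3, 0 ≤ X 0 → X ≠ 0 → |g X| ≤ C / ‖X‖ ^ n) {X : Sp 3} (h0 : 0 ≤ X 0)
    (hX : X ≠ 0) {L : ℝ} (hL : 0 ≤ L) : |g (X + L • ee 0)| ≤ C / ‖X‖ ^ n := by
  refine (h _ (by rw [shift_zero]; positivity) (shift_ne h0 hX hL)).trans ?_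
  have := nonneg_of_bound h
  have hn := norm_pos_iff.2 hX
  gcongr
  exact norm_le_shift h0 hL

theorem Dec.dl {L : ℝ} (hL : 1 ≤ L) {a : ℕ} {f : Sp 3 → ℝ} (h : Dec a f) : Dec a (dl L f) := by
  refine ⟨contDiffOn_dl hL h.1, fun α => ?_⟩
  obtain ⟨C, hC⟩ := h.2 α
  refine ⟨C + C, fun X h0 hX => ?_⟩
  rw [DL_dl hL h.1 α (mem_OO h0 hX), add_div]
  exact (abs_sub _ _).trans (add_le_add (hC X h0 hX) (bound_shift hC h0 hX (by linarith)))

theorem Dec.dl_succ {L : ℝ} (hL : 1 ≤ L) {a : ℕ} {f : Sp 3 → ℝ} (h : Dec a f) :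
    Dec (a + 1) (Pool.Agent.MP_882061_an.dl L f) := by
  refine ⟨contDiffOn_dl hL h.1, fun α => ?_⟩
  obtain ⟨C, hC⟩ := h.2 (0 :: α)
  refine ⟨C * L, fun X h0 hX => ?_⟩
  rw [DL_dl hL h.1 α (mem_OO h0 hX)]
  have hd : ∀ τ ∈ Set.Icc (0 : ℝ) L, HasDerivWithinAt (fun τ : ℝ => DL α f (X + τ • ee 0))
      (DL (0 :: α) f (X + τ • ee 0)) (Set.Icc 0 L) τ := by
    intro τ hτ
    have hm : X + τ • ee 0 ∈ OO :=
      mem_OO (by rw [shift_zero]; linarith [hτ.1]) (shift_ne h0 hX hτ.1)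
    have h1 := (diffAt_of isOpen_OO (contDiffOn_DL isOpen_OO h.1 α) hm).hasFDerivAt
    have h2 : HasDerivAt (fun τ : ℝ => X + τ • ee 0) (ee 0) τ := by
      simpa using ((hasDerivAt_id τ).smul_const (ee 0 : Sp 3)).const_add X
    exact (h1.comp_hasDerivAt τ h2).hasDerivWithinAt
  have hb : ∀ τ ∈ Set.Ico (0 : ℝ) L, ‖DL (0 :: α) f (X + τ • ee 0)‖ ≤
      C / ‖X‖ ^ (a + (0 :: α).length) := fun τ hτ => bound_shift hC h0 hX hτ.1
  have h3 := norm_image_sub_le_of_norm_deriv_le_segment' hd hb L ⟨by linarith, le_rfl⟩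
  simp only [zero_smul, add_zero, sub_zero, Real.norm_eq_abs, List.length_cons] at h3
  rw [Pool.Agent.MP_882061_an.dl, abs_sub_comm]
  refine h3.trans_eq ?_
  rw [show a + 1 + α.length = a + (α.length + 1) by ring]
  ring

theorem contDiffOn_dl_iter {L : ℝ} (hL : 1 ≤ L) {f : Sp 3 → ℝ} (hf : ContDiffOn ℝ ∞ f OO)
    (K : ℕ) : ContDiffOn ℝ ∞ ((dl L)^[K] f) OO := by
  induction K with
  | zero => exact hf
  | succ K ih => rw [Function.iterate_succ_apply']; exact contDiffOn_dl hL ih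

theorem Har.dl_iter {L : ℝ} (hL : 1 ≤ L) {f : Sp 3 → ℝ} (h : Har f) (K : ℕ) :
    Har ((Pool.Agent.MP_882061_an.dl L)^[K] f) := by
  induction K with
  | zero => exact h
  | succ K ih => rw [Function.iterate_succ_apply']; exact ih.dl hL

theorem Dec.dl_iter {L : ℝ} (hL : 1 ≤ L) {a : ℕ} {f : Sp 3 → ℝ} (h : Dec a f) (K : ℕ) :
    ∀ b, a ≤ b → b ≤ a + K → Dec b ((Pool.Agent.MP_882061_an.dl L)^[K] f) := by
  induction K with
  | zero =>
    intro b h1 h2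
    obtain rfl : b = a := by omega
    exact h
  | succ K ih =>
    intro b h1 h2
    rw [Function.iterate_succ_apply']
    by_cases hb : b ≤ a + K
    · exact (ih b h1 hb).dl hL
    · obtain rfl : b = a + K + 1 := by omega
      exact (ih (a + K) (by omega) le_rfl).dl_succ hL

theorem dl_iter_lin (L : ℝ) {ι : Type*} (t : Finset ι) (c : ι → ℝ) (f : ι → Sp 3 → ℝ) (K : ℕ) :
    ((dl L)^[K] fun Y => ∑ k ∈ t, c k * f k Y) =
      fun Y => ∑ k ∈ t, c k * (dl L)^[K] (f k) Y := by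
  induction K with
  | zero => rfl
  | succ K ih =>
    ext Y
    simp only [Function.iterate_succ_apply', ih, dl, mul_sub, Finset.sum_sub_distrib]

theorem DL_dl_iter {L : ℝ} (hL : 1 ≤ L) {f : Sp 3 → ℝ} (hf : ContDiffOn ℝ ∞ f OO)
    (α : List (Fin 4)) (K : ℕ) :
    Set.EqOn (DL α ((dl L)^[K] f)) ((dl L)^[K] (DL α f)) OO := by
  induction K with
  | zero => exact fun _ _ => rfl
  | succ K ih =>
    intro X hX
    rw [Function.iterate_succ_apply', Function.iterate_succ_apply',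
      DL_dl hL (contDiffOn_dl_iter hL hf K) α hX]
    simp only [dl]
    rw [ih hX, ih (shift_mem hL hX)]

/-- The finite differences change a function by a small amount when the step is large. -/
theorem dl_iter_sub {g : Sp 3 → ℝ} {C : ℝ} (hC : 0 ≤ C) {n : ℕ}
    (h : ∀ X : Sp 3, 0 ≤ X 0 → 1 ≤ ‖X‖ → |g X| ≤ C / ‖X‖ ^ n) {L : ℝ} (hL : 1 ≤ L) (K : ℕ) :
    ∀ X : Sp 3, 0 ≤ X 0 → |(dl L)^[K] g X - g X| ≤ 3 ^ K * C / ‖X + L • ee 0‖ ^ n := by
  have hL0 : 0 ≤ L := by linarith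
  have h1 : ∀ X : Sp 3, 0 ≤ X 0 → 1 ≤ ‖X + L • ee 0‖ := by
    intro X h0
    have h2 : |(X + L • ee 0) 0| ≤ ‖X + L • ee 0‖ := PiLp.norm_apply_le (X + L • ee 0) 0
    rw [shift_zero] at h2
    linarith [le_abs_self (X 0 + L)]
  induction K with
  | zero =>
    intro X h0
    have := h1 X h0
    simp only [Function.iterate_zero, id_eq, sub_self, abs_zero]
    positivity
  | succ K ih =>
    intro X h0
    have h0' : 0 ≤ (X + L • ee 0) 0 := by rw [shift_zero]; positivity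
    have a1 := ih X h0
    have a2 := ih _ h0'
    have a3 := h _ h0' (h1 X h0)
    have hp := h1 X h0
    have a4 : 3 ^ K * C / ‖X + L • ee 0 + L • ee 0‖ ^ n ≤ 3 ^ K * C / ‖X + L • ee 0‖ ^ n := by
      gcongr
      exact norm_le_shift h0' hL0
    have a5 : C / ‖X + L • ee 0‖ ^ n ≤ 3 ^ K * C / ‖X + L • ee 0‖ ^ n := by
      gcongr
      exact le_mul_of_one_le_left hC (one_le_pow₀ (by norm_num))
    rw [Function.iterate_succ_apply', dl]
    have e : (dl L)^[K] g X - (dl L)^[K] g (X + L • ee 0) - g X =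
        ((dl L)^[K] g X - g X) - ((dl L)^[K] g (X + L • ee 0) - g (X + L • ee 0)) -
          g (X + L • ee 0) := by ring
    rw [e]
    have e2 : 3 ^ (K + 1) * C / ‖X + L • ee 0‖ ^ n = 3 * (3 ^ K * C / ‖X + L • ee 0‖ ^ n) := by
      ring
    rw [e2]
    refine (abs_sub _ _).trans ?_
    have := abs_sub ((dl L)^[K] g X - g X) ((dl L)^[K] g (X + L • ee 0) - g (X + L • ee 0))
    linarith

end

end Pool.Agent.MP_882061_an

end

-- part MP_882061_an.Trace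
section

/-!
Boundary traces. The multipoles `gam n` at the origin, and their combination `qq N` whose trace on
the boundary is `s^2 (1 - s^(-2))^N - s^2 + N`, `s = |x|^2`, with zero normal derivative.
-/

open MeasureTheory Filter Topology
open scoped ContDiff

namespace Pool.Agent.MP_882061_an

noncomputable section

/-- Equality on the boundary away from the origin. -/
def Tr (f g : Sp 3 → ℝ) : Prop := ∀ X : Sp 3, X 0 = 0 → X ≠ 0 → f X = g X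

theorem hasDerivAt_line {f : Sp 3 → ℝ} {X : Sp 3} (hf : DifferentiableAt ℝ f X) (i : Fin 4) :
    HasDerivAt (fun τ : ℝ => f (X + τ • ee i)) (D i f X) 0 := by
  have h2 : HasDerivAt (fun τ : ℝ => X + τ • ee i) (ee i) 0 := by
    simpa using ((hasDerivAt_id (0 : ℝ)).smul_const (ee i : Sp 3)).const_add X
  have h1 : HasFDerivAt f (fderiv ℝ f X) (X + (0 : ℝ) • ee i) := by
    simpa using hf.hasFDerivAt
  exact h1.comp_hasDerivAt (0 : ℝ) h2

theorem Tr.D {f g : Sp 3 → ℝ} (h : Tr f g) (hf : ContDiffOn ℝ ∞ f OO) (hg : ContDiffOn ℝ ∞ g OO)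
    {j : Fin 4} (hj : j ≠ 0) : Tr (D j f) (D j g) := by
  intro X h0 hX
  have hm : X ∈ OO := mem_OO h0.ge hX
  have h1 := hasDerivAt_line (diffAt_of isOpen_OO hf hm) j
  have h2 := hasDerivAt_line (diffAt_of isOpen_OO hg hm) j
  have hc : Continuous fun τ : ℝ => X + τ • ee j := by fun_prop
  have h3 : ∀ᶠ τ : ℝ in 𝓝 0, X + τ • ee j ≠ 0 :=
    hc.continuousAt.eventually_ne (by simpa using hX)
  have h4 : (fun τ : ℝ => f (X + τ • ee j)) =ᶠ[𝓝 0] fun τ : ℝ => g (X + τ • ee j) := by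
    filter_upwards [h3] with τ hτ
    refine h _ ?_ hτ
    simp [ee, h0, Pi.single_apply, hj.symm]
  exact h1.unique (h2.congr_of_eventuallyEq h4)

theorem Tr.DL {f g : Sp 3 → ℝ} (h : Tr f g) (hf : ContDiffOn ℝ ∞ f OO)
    (hg : ContDiffOn ℝ ∞ g OO) {α : List (Fin 4)} (hα : ∀ j ∈ α, j ≠ 0) :
    Tr (DL α f) (DL α g) := by
  induction α with
  | nil => exact h
  | cons i α ih =>
    exact (ih fun j hj => hα j (List.mem_cons_of_mem _ hj)).D (contDiffOn_DL isOpen_OO hf α)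
      (contDiffOn_DL isOpen_OO hg α) (hα i List.mem_cons_self)

theorem Tr.D00 {f g : Sp 3 → ℝ} (h : Tr f g) (hf : Har f) (hg : ContDiffOn ℝ ∞ g OO) :
    Tr (Pool.Agent.MP_882061_an.D 0 (Pool.Agent.MP_882061_an.D 0 f))
      fun X => -∑ j : Fin 3, Pool.Agent.MP_882061_an.DL [j.succ, j.succ] g X := by
  intro X h0 hX
  have h1 := hf.2 X (mem_OO h0.ge hX)
  rw [Fin.sum_univ_succ] at h1
  have h2 : ∀ j : Fin 3, Pool.Agent.MP_882061_an.DL [j.succ, j.succ] f X =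
      Pool.Agent.MP_882061_an.DL [j.succ, j.succ] g X := fun j =>
    h.DL hf.1 hg (by simp [Fin.succ_ne_zero]) X h0 hX
  simp only [← h2]
  simp only [DL_cons, DL_nil]
  linarith

theorem DL_zero (α : List (Fin 4)) (hα : α ≠ []) (c : ℝ) : DL α (fun _ => c) = fun _ => 0 := by
  induction α with
  | nil => exact absurd rfl hα
  | cons i α ih =>
    by_cases h : α = []
    · subst h
      simp
    · rw [DL_cons, ih h, D_const]

/-- Negative powers of the squared norm. -/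
def gm (m : ℕ) : Sp 3 → ℝ := fun X => (ss X)⁻¹ ^ m

theorem hom_gm (m : ℕ) : Hom (-(2 * m : ℕ)) (gm m) := by
  induction m with
  | zero => exact ⟨contDiffOn_const, by simp [gm]⟩
  | succ m ih =>
    have h := ih.mul hom_ss_inv
    rw [show -((2 * m : ℕ) : ℤ) + -2 = -((2 * (m + 1) : ℕ) : ℤ) by push_cast; ring] at h
    have e : gm (m + 1) = fun X => gm m X * (ss X)⁻¹ := by
      ext X
      simp [gm, pow_succ]
    rwa [e]

theorem contDiffOn_gm (m : ℕ) : ContDiffOn ℝ ∞ (gm m) OO := (hom_gm m).1.mono OO_subset_P0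

theorem D_gm (m : ℕ) (i : Fin 4) {X : Sp 3} (hX : X ≠ 0) :
    D i (gm m) X = -(2 * m) * (gm (m + 1) X * X i) := by
  have hs := (ss_pos hX).ne'
  have h : HasDerivAt (fun s : ℝ => s⁻¹ ^ m) (m * (ss X)⁻¹ ^ (m - 1) * (-(ss X ^ 2)⁻¹)) (ss X) :=
    (hasDerivAt_inv hs).fun_pow m
  have h2 := D_comp_ss h i
  change D i (fun Y => (ss Y)⁻¹ ^ m) X = _
  rw [h2]
  rcases m with _ | m
  · simp
  · simp only [gm, Nat.add_sub_cancel, pow_succ]
    field_simp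

theorem DD_gm (m : ℕ) (i : Fin 4) {X : Sp 3} (hX : X ≠ 0) :
    D i (D i (gm m)) X = -(2 * m) * (-(2 * (m + 1)) * gm (m + 2) X * X i ^ 2 + gm (m + 1) X) := by
  have h1 : Set.EqOn (D i (gm m)) (fun X => -(2 * m) * (gm (m + 1) X * X i)) P0 :=
    fun Y hY => D_gm m i hY
  have d1 : DifferentiableAt ℝ (gm (m + 1)) X := diffAt_of isOpen_P0 (hom_gm _).1 hX
  have d2 : DifferentiableAt ℝ (fun Y : Sp 3 => Y i) X :=
    (contDiff_coord i).differentiable (by simp) X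
  rw [D_congr isOpen_P0 h1 i hX, D_const_mul (f := fun Y => gm (m + 1) Y * Y i) (d1.mul d2),
    D_mul d1 d2, D_gm _ _ hX, D_coord]
  push_cast
  simp only [if_true]
  ring

theorem gm_succ_mul (m : ℕ) {X : Sp 3} (hX : X ≠ 0) : gm (m + 1) X * ss X = gm m X := by
  have hs := (ss_pos hX).ne'
  simp only [gm, pow_succ]
  field_simp

theorem ss_four (X : Sp 3) : ss X = X 0 ^ 2 + X 1 ^ 2 + X 2 ^ 2 + X 3 ^ 2 := by
  simp [ss, Fin.sum_univ_four]

theorem har_gm : Har (gm 1) := by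
  refine ⟨contDiffOn_gm 1, fun X hX => ?_⟩
  simp only [DD_gm 1 _ hX.1]
  have h := gm_succ_mul 2 hX.1
  rw [ss_four] at h
  simp only [Fin.sum_univ_four]
  push_cast
  linear_combination 8 * h

theorem lap_gm (m : ℕ) {X : Sp 3} (h0 : X 0 = 0) (hX : X ≠ 0) :
    ∑ j : Fin 3, DL [j.succ, j.succ] (gm m) X = 2 * m * (2 * m - 1) * gm (m + 1) X := by
  simp only [DL_cons, DL_nil, DD_gm m _ hX]
  have h := gm_succ_mul (m + 1) hX
  rw [ss_four, h0] at h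
  simp only [Fin.sum_univ_three]
  have e1 : (Fin.succ 0 : Fin 4) = 1 := rfl
  have e2 : (Fin.succ 1 : Fin 4) = 2 := rfl
  have e3 : (Fin.succ 2 : Fin 4) = 3 := rfl
  rw [e1, e2, e3]
  linear_combination (4 * m * (m + 1) : ℝ) * h

/-- Even vertical derivatives of the Newton kernel. -/
def gam : ℕ → Sp 3 → ℝ
  | 0 => gm 1
  | n + 1 => D 0 (D 0 (gam n))

theorem hom_gam (n : ℕ) : Hom (-((2 * n + 2 : ℕ) : ℤ)) (gam n) := by
  induction n with
  | zero => exact hom_gm 1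
  | succ n ih =>
    have h := (ih.D 0).D 0
    rw [show -((2 * n + 2 : ℕ) : ℤ) - 1 - 1 = -((2 * (n + 1) + 2 : ℕ) : ℤ) by push_cast; ring] at h
    exact h

theorem har_gam (n : ℕ) : Har (gam n) := by
  induction n with
  | zero => exact har_gm
  | succ n ih => exact (ih.D 0).D 0

theorem tr_gam (n : ℕ) :
    Tr (gam n) fun X => (-1) ^ n * ((2 * n).factorial : ℝ) * gm (n + 1) X := by
  induction n with
  | zero => intro X _ _; simp [gam]
  | succ n ih =>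
    intro X h0 hX
    have hg : ContDiffOn ℝ ∞ (fun X => (-1) ^ n * ((2 * n).factorial : ℝ) * gm (n + 1) X) OO :=
      contDiffOn_const.mul (contDiffOn_gm _)
    have h1 := ih.D00 (har_gam n) hg X h0 hX
    have h2 : ∀ j : Fin 3, DL [j.succ, j.succ]
        (fun X => (-1) ^ n * ((2 * n).factorial : ℝ) * gm (n + 1) X) X =
        (-1) ^ n * ((2 * n).factorial : ℝ) * DL [j.succ, j.succ] (gm (n + 1)) X := by
      intro j
      have := DL_lin isOpen_OO ({0} : Finset ℕ) (fun _ => (-1) ^ n * ((2 * n).factorial : ℝ))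
        (f := fun _ => gm (n + 1)) (fun _ _ => contDiffOn_gm _) [j.succ, j.succ]
        (mem_OO h0.ge hX)
      simpa using this
    simp only [h2] at h1
    rw [← Finset.mul_sum, lap_gm _ h0 hX] at h1
    change D 0 (D 0 (gam n)) X = _
    rw [h1, show 2 * (n + 1) = 2 * n + 1 + 1 by ring, Nat.factorial_succ, Nat.factorial_succ]
    push_cast
    ring

theorem tr_D0_gam (n : ℕ) : Tr (D 0 (gam n)) fun _ => 0 := by
  induction n with
  | zero =>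
    intro X h0 hX
    change D 0 (gm 1) X = 0
    rw [D_gm _ _ hX, h0]
    simp
  | succ n ih =>
    intro X h0 hX
    have h1 := ih.D00 ((har_gam n).D 0) contDiffOn_const X h0 hX
    change D 0 (D 0 (D 0 (gam n))) X = 0
    rw [h1]
    simp

/-- The coefficients of the multipoles. -/
def cq (N j : ℕ) : ℝ := -((N.choose (j + 2) : ℝ) * (-1) ^ j) / ((2 * (2 * j + 1)).factorial : ℝ)

/-- The combination of multipoles. -/
def qq (N : ℕ) : Sp 3 → ℝ := fun X => ∑ j ∈ Finset.range (N - 1), cq N j * gam (2 * j + 1) X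

/-- The functions `s^2 w^i (1 - w)^(N - i)` with `w = s^(-2)`. -/
def EE (N i : ℕ) : Sp 3 → ℝ := fun X => ss X ^ 2 * gm 2 X ^ i * (1 - gm 2 X) ^ (N - i)

theorem har_qq (N : ℕ) : Har (qq N) := Har.lin _ _ fun _ _ => har_gam _

theorem tr_D0_qq (N : ℕ) : Tr (D 0 (qq N)) fun _ => 0 := by
  intro X h0 hX
  have h1 := DL_lin isOpen_OO (Finset.range (N - 1)) (cq N) (f := fun j => gam (2 * j + 1))
    (fun _ _ => (har_gam _).1) [0] (mem_OO h0.ge hX)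
  refine h1.trans (Finset.sum_eq_zero fun j _ => ?_)
  have := tr_D0_gam (2 * j + 1) X h0 hX
  simp only [DL_cons, DL_nil, this, mul_zero]

theorem tr_qq {N : ℕ} (hN : 1 ≤ N) : Tr (qq N) fun X => EE N 0 X - (EE 0 0 X - N) := by
  intro X h0 hX
  obtain ⟨M, rfl⟩ : ∃ M, N = M + 1 := ⟨N - 1, by omega⟩
  have hs := (ss_pos hX).ne'
  have h1 : ∀ j, cq (M + 1) j * gam (2 * j + 1) X =
      ss X ^ 2 * ((-gm 2 X) ^ (j + 1 + 1) * ((M + 1).choose (j + 1 + 1) : ℝ)) := by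
    intro j
    have hf : (((2 * (2 * j + 1)).factorial : ℕ) : ℝ) ≠ 0 := by positivity
    rw [tr_gam _ X h0 hX, cq, neg_pow (gm 2 X)]
    simp only [gm, pow_succ (-1 : ℝ), pow_mul (-1 : ℝ), ← pow_mul]
    rw [show 2 * (j + 1 + 1) = 2 * j + 1 + 1 + 2 by ring, pow_add (ss X)⁻¹ (2 * j + 1 + 1) 2]
    generalize (ss X)⁻¹ ^ (2 * j + 1 + 1) = u
    field_simp
    simp
  have h2 : (1 - gm 2 X) ^ (M + 1) =
      ∑ m ∈ Finset.range (M + 1 + 1), (-gm 2 X) ^ m * ((M + 1).choose m : ℝ) := by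
    rw [show 1 - gm 2 X = -gm 2 X + 1 by ring, add_pow]
    simp
  simp only [qq, h1, EE, Nat.add_sub_cancel, Nat.sub_zero, h2]
  rw [Finset.sum_range_succ', Finset.sum_range_succ', ← Finset.mul_sum]
  have h3 : ss X ^ 2 * gm 2 X = 1 := by
    simp only [gm]
    field_simp
  simp only [Nat.choose_zero_right, zero_add, Nat.choose_one_right]
  push_cast
  linear_combination (-(M + 1) : ℝ) * h3 + 2 * (M + 1) * h3

theorem contDiffOn_EE (N i : ℕ) : ContDiffOn ℝ ∞ (EE N i) P0 :=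
  ((contDiff_ss.contDiffOn.pow 2).mul ((hom_gm 2).1.pow i)).mul
    ((contDiffOn_const.sub (hom_gm 2).1).pow _)

theorem D_EE (N i : ℕ) (j : Fin 4) {X : Sp 3} (hX : X ≠ 0) :
    D j (EE N i) X = (ss X)⁻¹ * X j *
      ((4 - 4 * i) * EE N i X + 4 * ((N - i : ℕ) : ℝ) * EE N (i + 1) X) := by
  have hs := (ss_pos hX).ne'
  have hw : HasDerivAt (fun s : ℝ => s⁻¹ ^ 2) (-2 * (ss X)⁻¹ ^ 2 * (ss X)⁻¹) (ss X) := by
    refine ((hasDerivAt_inv hs).fun_pow 2).congr_deriv ?_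
    push_cast
    field_simp
  have h := (((hasDerivAt_id (ss X)).fun_pow 2).fun_mul (hw.fun_pow i)).fun_mul
    ((hw.const_sub 1).fun_pow (N - i))
  have h2 := D_comp_ss h j
  refine h2.trans ?_
  simp only [EE, gm, id]
  have e1 : (i : ℝ) * ((ss X)⁻¹ ^ 2) ^ (i - 1) * (ss X)⁻¹ ^ 2 = i * ((ss X)⁻¹ ^ 2) ^ i := by
    rcases i with _ | i
    · simp
    · simp only [Nat.add_sub_cancel, pow_succ _ i]
      ring
  have e2 : ss X * (ss X)⁻¹ = 1 := mul_inv_cancel₀ hs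
  rw [show N - (i + 1) = N - i - 1 by omega, pow_succ _ i]
  generalize (1 - (ss X)⁻¹ ^ 2) ^ (N - i) = a at *
  generalize (1 - (ss X)⁻¹ ^ 2) ^ (N - i - 1) = b at *
  generalize ((ss X)⁻¹ ^ 2) ^ (i - 1) = c at *
  generalize ((ss X)⁻¹ ^ 2) ^ i = d at *
  generalize (ss X)⁻¹ = u at *
  push_cast
  linear_combination (-4 * ss X ^ 2 * u * a * X j) * e1 - 4 * ss X * d * a * X j * e2

/-- The structure of the derivatives of `s^2 (1 - w)^N`. -/
theorem DL_EE (β : List (Fin 4)) : ∃ a : ℕ → Sp 3 → ℝ, (∀ i, Hom (-(β.length : ℤ)) (a i)) ∧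
    (∀ i, β.length < i → a i = fun _ => 0) ∧ ∀ N : ℕ, ∀ X : Sp 3, X ≠ 0 →
      DL β (EE N 0) X =
        ∑ i ∈ Finset.range (β.length + 1), (N.descFactorial i : ℝ) * (EE N i X * a i X) := by
  induction β with
  | nil =>
    refine ⟨fun i _ => if i = 0 then 1 else 0, fun i => ⟨contDiffOn_const, by simp⟩, ?_, ?_⟩
    · intro i hi
      have : i ≠ 0 := by simp at hi; omega
      simp [this]
    · intro N X _
      simp
  | cons j β ih =>
    obtain ⟨a, ha, hz, hE⟩ := ih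
    have hu : Hom (-1) fun X : Sp 3 => (ss X)⁻¹ * X j := hom_ss_inv.mul (hom_coord j)
    let b : ℕ → Sp 3 → ℝ := fun i X => (4 - 4 * i) * ((ss X)⁻¹ * X j * a i X) + D j (a i) X
    let c : ℕ → Sp 3 → ℝ := fun i => Nat.casesOn i (fun _ => 0)
      fun k X => 4 * ((ss X)⁻¹ * X j * a k X)
    have e : -(((j :: β).length : ℕ) : ℤ) = -1 + -(β.length : ℤ) := by simp
    have hb : ∀ i, Hom (-1 + -(β.length : ℤ)) (b i) := by
      intro i
      refine ((hu.mul (ha i)).const_mul _).add ?_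
      rw [show -1 + -(β.length : ℤ) = -(β.length : ℤ) - 1 by ring]
      exact (ha i).D j
    have hc : ∀ i, Hom (-1 + -(β.length : ℤ)) (c i) := by
      intro i
      rcases i with _ | k
      · exact hom_zero _
      · exact (hu.mul (ha k)).const_mul _
    have hb0 : ∀ i, β.length < i → b i = fun _ => 0 := by
      intro i hi
      ext X
      simp [b, hz i hi]
    refine ⟨fun i X => b i X + c i X, fun i => e ▸ (hb i).add (hc i), ?_, ?_⟩
    · intro i hi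
      simp only [List.length_cons] at hi
      obtain ⟨k, rfl⟩ : ∃ k, i = k + 1 := ⟨i - 1, by omega⟩
      ext X
      simp [hb0 (k + 1) (by omega), c, hz k (by omega)]
    · intro N X hX
      have h1 : Set.EqOn (DL β (EE N 0)) (fun X => ∑ i ∈ Finset.range (β.length + 1),
          (N.descFactorial i : ℝ) * (EE N i X * a i X)) P0 := fun Y hY => hE N Y hY
      have h2 := DL_lin isOpen_P0 (Finset.range (β.length + 1))
        (fun i => (N.descFactorial i : ℝ)) (f := fun i X => EE N i X * a i X)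
        (fun i _ => (contDiffOn_EE N i).mul (ha i).1) [j] hX
      rw [DL_cons, D_congr isOpen_P0 h1 j hX]
      refine h2.trans ?_
      have h3 : ∀ i, (N.descFactorial i : ℝ) * DL [j] (fun X => EE N i X * a i X) X =
          (N.descFactorial i : ℝ) * (EE N i X * b i X) +
            (N.descFactorial (i + 1) : ℝ) * (EE N (i + 1) X * c (i + 1) X) := by
        intro i
        rw [DL_cons, DL_nil, D_mul (diffAt_of isOpen_P0 (contDiffOn_EE N i) hX)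
          (diffAt_of isOpen_P0 (ha i).1 hX), D_EE N i j hX, Nat.descFactorial_succ]
        simp only [b, c]
        push_cast
        ring
      simp only [h3, List.length_cons, mul_add, Finset.sum_add_distrib]
      congr 1
      · rw [Finset.sum_range_succ _ (β.length + 1), hb0 _ (by omega)]
        simp
      · rw [Finset.sum_range_succ' _ (β.length + 1)]
        simp [c]

end

end Pool.Agent.MP_882061_an

end

-- part MP_882061_an.Molecule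
section

/-!
The molecules: second derivatives of a finite difference of `qq N`.
-/

open MeasureTheory Filter Topology
open scoped ContDiff

namespace Pool.Agent.MP_882061_an

noncomputable section

/-- Kronecker symbol. -/
def kr (i j : Fin 4) : ℤ := if i = j then 1 else 0

/-- Fourth derivatives of `s^2`. -/
def t4 (k l m n : Fin 4) : ℤ := 8 * (kr k l * kr m n + kr k m * kr l n + kr k n * kr l m)

theorem D_coord' (i j : Fin 4) (X : Sp 3) : D i (fun Y => Y j) X = (kr i j : ℝ) := by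
  rw [D_coord, kr]
  split_ifs <;> simp

theorem DL4_EE (k l m n : Fin 4) (X : Sp 3) : DL [k, l, m, n] (EE 0 0) X = t4 k l m n := by
  have dc : ∀ (j : Fin 4) (Y : Sp 3), DifferentiableAt ℝ (fun Y : Sp 3 => Y j) Y := fun j Y =>
    (contDiff_coord j).differentiable (by simp) Y
  have ds : ∀ Y : Sp 3, DifferentiableAt ℝ ss Y := fun Y =>
    contDiff_ss.differentiable (by simp) Y
  have e0 : EE 0 0 = fun Y => ss Y * ss Y := by
    ext Y
    simp [EE, sq]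
  have e1 : D n (EE 0 0) = fun Y => 4 * (ss Y * Y n) := by
    ext Y
    rw [e0, D_mul (ds Y) (ds Y), D_ss]
    ring
  have e2 : D m (D n (EE 0 0)) = fun Y => 8 * (Y m * Y n) + (4 * kr m n) * ss Y := by
    ext Y
    rw [e1, D_const_mul (f := fun Y => ss Y * Y n) ((ds Y).mul (dc n Y)), D_mul (ds Y) (dc n Y),
      D_ss, D_coord']
    ring
  have e3 : D l (D m (D n (EE 0 0))) =
      fun Y : Sp 3 => (8 * kr l m) * Y n + ((8 * kr l n) * Y m + (8 * kr m n) * Y l) := by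
    ext Y
    rw [e2, D_add (f := fun Y => 8 * (Y m * Y n)) (((dc m Y).mul (dc n Y)).const_mul 8)
      ((ds Y).const_mul _), D_const_mul (f := fun Y => Y m * Y n) ((dc m Y).mul (dc n Y)),
      D_mul (dc m Y) (dc n Y), D_const_mul (ds Y), D_ss, D_coord', D_coord']
    ring
  change D k (D l (D m (D n (EE 0 0)))) X = _
  rw [e3, D_add ((dc n X).const_mul _) (g := fun Y : Sp 3 => (8 * kr l n) * Y m + (8 * kr m n) * Y l)
    (((dc m X).const_mul _).add ((dc l X).const_mul _)),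
    D_add ((dc m X).const_mul _) ((dc l X).const_mul _), D_const_mul (dc n X),
    D_const_mul (dc m X), D_const_mul (dc l X), D_coord', D_coord', D_coord', t4]
  push_cast
  ring

/-- Boundary values of fourth derivatives in terms of tangential derivatives. -/
def TT (a b c d : Fin 4) (φ : List (Fin 4) → ℝ) : ℝ :=
  if a = 0 then (if c = 0 then -∑ m : Fin 3, φ [m.succ, m.succ, b, d] else 0)
  else (if c = 0 then 0 else φ [a, b, c, d])

theorem tr_TT {f h : Sp 3 → ℝ} (hf : Har f) (hh : ContDiffOn ℝ ∞ h OO) (h1 : Tr f h)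
    (h2 : Tr (D 0 f) fun _ => 0) (a b c d : Fin 4) (hb : b ≠ 0) (hd : d ≠ 0) :
    Tr (DL [a, b, c, d] f) fun X => TT a b c d fun β => DL β h X := by
  intro X h0 hX
  have hm : X ∈ OO := mem_OO h0.ge hX
  have hz : ∀ β : List (Fin 4), β ≠ [] → (∀ j ∈ β, j ≠ 0) → DL β (D 0 f) X = 0 := by
    intro β hβ hβ'
    rw [h2.DL (hf.D 0).1 contDiffOn_const hβ' X h0 hX, DL_zero β hβ]
  unfold TT
  by_cases ha : a = 0 <;> by_cases hc : c = 0 <;> simp only [ha, hc, if_true, if_false]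
  · have e1 : Set.EqOn (D b (D 0 (D d f))) (D 0 (D b (D d f))) OO :=
      D_comm isOpen_OO (hf.D d).1 b 0
    have e2 := D_congr isOpen_OO e1 0 hm
    have e3 := (h1.DL hf.1 hh (α := [b, d]) (by simp [hb, hd])).D00 (hf.DL [b, d])
      (contDiffOn_DL isOpen_OO hh _) X h0 hX
    exact e2.trans e3
  · have e1 := DL_D_comm isOpen_OO hf.1 [b, c, d] 0 hm
    rw [hz _ (by simp) (by simp [hb, hc, hd])] at e1
    exact e1.symm
  · have e1 : Set.EqOn (D 0 (D d f)) (D d (D 0 f)) OO := D_comm isOpen_OO hf.1 0 d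
    have e2 := DL_congr isOpen_OO e1 [a, b] hm
    exact e2.trans (hz [a, b, d] (by simp) (by simp [ha, hb, hd]))
  · exact h1.DL hf.1 hh (by simp [ha, hb, hc, hd]) X h0 hX

/-- The constant tensor at infinity. -/
def T0 (a b c d : Fin 4) : ℤ :=
  if a = 0 then (if c = 0 then -∑ m : Fin 3, t4 m.succ m.succ b d else 0)
  else (if c = 0 then 0 else t4 a b c d)

theorem TT_approx {φ : List (Fin 4) → ℝ} {lam ε : ℝ} (hε : 0 ≤ ε)
    (h : ∀ k l m n, |φ [k, l, m, n] - lam * t4 k l m n| ≤ ε) (a b c d : Fin 4) :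
    |TT a b c d φ - lam * T0 a b c d| ≤ 3 * ε := by
  unfold TT T0
  by_cases ha : a = 0 <;> by_cases hc : c = 0 <;> simp only [ha, hc, if_true, if_false]
  · simp only [Fin.sum_univ_three]
    push_cast
    have h1 := abs_le.1 (h 1 1 b d)
    have h2 := abs_le.1 (h 2 2 b d)
    have h3 := abs_le.1 (h 3 3 b d)
    rw [abs_le]
    constructor <;> linarith [h1.1, h1.2, h2.1, h2.2, h3.1, h3.2]
  · simpa using hε
  · simpa using hε
  · linarith [h a b c d]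

/-- The nine components. -/
def ix : Fin 9 → Fin 4 × Fin 4 :=
  ![(0, 1), (0, 2), (0, 3), (1, 1), (1, 2), (1, 3), (2, 2), (2, 3), (3, 3)]

/-- Eighty times the inverse of the tensor at infinity. -/
def sI (γ β : Fin 9) : ℤ :=
  if (ix γ).1 = 0 then (if γ = β then -2 else 0)
  else if (ix γ).1 = (ix γ).2 then
    (if (ix β).1 = (ix β).2 then (if γ = β then 4 else -1) else 0)
  else (if γ = β then 10 else 0)

theorem T0_sI : ∀ α β : Fin 9,
    ∑ γ, sI γ β * T0 (ix α).1 (ix α).2 (ix γ).1 (ix γ).2 = if α = β then 80 else 0 := by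
  decide +kernel

theorem sI_le : ∀ γ β : Fin 9, |sI γ β| ≤ 80 := by decide +kernel

theorem ix_ne : ∀ α : Fin 9, (ix α).2 ≠ 0 := by decide

/-- The boundary matrix of a family of potentials. -/
def Psi (G : Fin 9 → Sp 3 → ℝ) (α β : Fin 9) (x : Bd 3) : ℝ :=
  DL [(ix α).1, (ix α).2] (G β) (pt 0 x)

/-- The error majorant. -/
def mu (N : ℕ) (w : ℝ) : ℝ :=
  ∑ i ∈ Finset.range 4, (N * w) ^ (i + 1) * |1 - w| ^ (N - (i + 1))

theorem gm_pos (m : ℕ) {X : Sp 3} (hX : X ≠ 0) : 0 < gm m X := by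
  have := ss_pos hX
  unfold gm
  positivity

theorem mu_nonneg (N : ℕ) {w : ℝ} (hw : 0 ≤ w) : 0 ≤ mu N w := by
  unfold mu
  positivity

theorem EE_bound (k l m n : Fin 4) : ∃ C : ℝ, 0 ≤ C ∧ ∀ N : ℕ, ∀ X : Sp 3, X ≠ 0 →
    |DL [k, l, m, n] (EE N 0) X - (1 - gm 2 X) ^ N * t4 k l m n| ≤ C * mu N (gm 2 X) := by
  obtain ⟨a, ha, -, hE⟩ := DL_EE [k, l, m, n]
  have hb : ∀ i, ∃ C : ℝ, 0 ≤ C ∧ ∀ X : Sp 3, X ≠ 0 → |ss X ^ 2 * a i X| ≤ C := by
    intro i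
    obtain ⟨C, hC0, hC⟩ := ((hom_ss.mul hom_ss).mul (ha i)).bound
    refine ⟨C, hC0, fun X hX => ?_⟩
    have := hC X hX
    simpa [sq] using this
  choose C hC0 hC using hb
  refine ⟨∑ i ∈ Finset.range 4, C (i + 1), Finset.sum_nonneg fun i _ => hC0 _, fun N X hX => ?_⟩
  have h0 : (t4 k l m n : ℝ) = ss X ^ 2 * a 0 X := by
    rw [← DL4_EE k l m n X, hE 0 X hX, Finset.sum_range_succ']
    simp [EE]
  have hw := (gm_pos 2 hX).le
  have h1 : DL [k, l, m, n] (EE N 0) X - (1 - gm 2 X) ^ N * t4 k l m n =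
      ∑ i ∈ Finset.range 4, (N.descFactorial (i + 1) : ℝ) * (EE N (i + 1) X * a (i + 1) X) := by
    rw [h0, hE N X hX, Finset.sum_range_succ']
    simp [EE]
    ring
  rw [h1, mu, Finset.mul_sum]
  refine (Finset.abs_sum_le_sum_abs _ _).trans (Finset.sum_le_sum fun i hi => ?_)
  have h2 : (N.descFactorial (i + 1) : ℝ) ≤ (N : ℝ) ^ (i + 1) := by
    exact_mod_cast Nat.descFactorial_le_pow N (i + 1)
  have h3 : C (i + 1) ≤ ∑ i ∈ Finset.range 4, C (i + 1) :=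
    Finset.single_le_sum (f := fun i => C (i + 1)) (fun i _ => hC0 _) hi
  have h4 := (hC (i + 1) X hX).trans h3
  have e : (N.descFactorial (i + 1) : ℝ) * (EE N (i + 1) X * a (i + 1) X) =
      (ss X ^ 2 * a (i + 1) X) * ((N.descFactorial (i + 1) : ℝ) * gm 2 X ^ (i + 1) *
        (1 - gm 2 X) ^ (N - (i + 1))) := by
    simp only [EE]
    ring
  rw [e, abs_mul, abs_mul _ ((1 - gm 2 X) ^ _), abs_pow, abs_of_nonneg (a := _ * gm 2 X ^ _)
    (by positivity), mul_pow]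
  gcongr
  exact (abs_nonneg _).trans h4

theorem unif4 {P : Fin 4 → Fin 4 → Fin 4 → Fin 4 → ℝ → Prop}
    (hmono : ∀ k l m n C C', C ≤ C' → P k l m n C → P k l m n C')
    (h : ∀ k l m n, ∃ C, 0 ≤ C ∧ P k l m n C) : ∃ C, 0 ≤ C ∧ ∀ k l m n, P k l m n C := by
  choose C hC0 hC using h
  let F : Fin 4 × Fin 4 × Fin 4 × Fin 4 → ℝ := fun q => C q.1 q.2.1 q.2.2.1 q.2.2.2
  refine ⟨∑ q, F q, Finset.sum_nonneg fun q _ => hC0 _ _ _ _, fun k l m n => ?_⟩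
  exact hmono k l m n _ _ (Finset.single_le_sum (f := F) (fun q _ => hC0 _ _ _ _)
    (Finset.mem_univ (k, l, m, n))) (hC k l m n)

theorem qq_TT : ∃ C : ℝ, 0 ≤ C ∧ ∀ N : ℕ, 1 ≤ N → ∀ X : Sp 3, X 0 = 0 → X ≠ 0 →
    ∀ a b c d : Fin 4, b ≠ 0 → d ≠ 0 →
      |DL [a, b, c, d] (qq N) X - ((1 - gm 2 X) ^ N - 1) * T0 a b c d| ≤ C * mu N (gm 2 X) := by
  obtain ⟨C, hC0, hC⟩ := unif4 (P := fun k l m n C => ∀ N : ℕ, ∀ X : Sp 3, X ≠ 0 →
    |DL [k, l, m, n] (EE N 0) X - (1 - gm 2 X) ^ N * t4 k l m n| ≤ C * mu N (gm 2 X))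
    (fun k l m n C C' hCC h N X hX => (h N X hX).trans
      (mul_le_mul_of_nonneg_right hCC (mu_nonneg N (gm_pos 2 hX).le))) EE_bound
  refine ⟨3 * C, by positivity, fun N hN X h0 hX a b c d hb hd => ?_⟩
  have c1 : ContDiffOn ℝ ∞ (EE N 0) OO := (contDiffOn_EE N 0).mono OO_subset_P0
  have c2 : ContDiffOn ℝ ∞ (EE 0 0) OO := (contDiffOn_EE 0 0).mono OO_subset_P0
  have c3 : ContDiffOn ℝ ∞ (fun X => EE 0 0 X - N) OO := c2.sub contDiffOn_const
  rw [tr_TT (har_qq N) (c1.sub c3) (tr_qq hN) (tr_D0_qq N) a b c d hb hd X h0 hX, mul_assoc]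
  refine TT_approx (mul_nonneg hC0 (mu_nonneg N (gm_pos 2 hX).le)) (fun k l m n => ?_) a b c d
  have hm : X ∈ OO := mem_OO h0.ge hX
  rw [DL_sub isOpen_OO c1 c3 _ hm]
  simp only
  rw [DL_sub isOpen_OO c2 contDiffOn_const _ hm, DL_zero _ (by simp)]
  simp only
  rw [DL4_EE]
  have := hC k l m n N X hX
  rw [show DL [k, l, m, n] (EE N 0) X - ((t4 k l m n : ℝ) - 0) -
    ((1 - gm 2 X) ^ N - 1) * t4 k l m n =
      DL [k, l, m, n] (EE N 0) X - (1 - gm 2 X) ^ N * t4 k l m n by ring]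
  exact this

theorem dec_gam (j : ℕ) : Dec (4 * j + 4) (gam (2 * j + 1)) := by
  have h := hom_gam (2 * j + 1)
  rw [show 2 * (2 * j + 1) + 2 = 4 * j + 4 by ring] at h
  exact h.dec

theorem qq_far (N : ℕ) (k l m n : Fin 4) : ∃ C : ℝ, 0 ≤ C ∧ ∀ X : Sp 3, 0 ≤ X 0 → 1 ≤ ‖X‖ →
    |DL [k, l, m, n] (qq N) X| ≤ C / ‖X‖ ^ 8 := by
  choose C hC using fun j => (dec_gam j).2 [k, l, m, n]
  have hC0 : ∀ j, 0 ≤ C j := fun j => nonneg_of_bound (hC j)
  refine ⟨∑ j ∈ Finset.range (N - 1), |cq N j| * C j,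
    Finset.sum_nonneg fun j _ => mul_nonneg (abs_nonneg _) (hC0 j), fun X h0 h1 => ?_⟩
  have hX : X ≠ 0 := norm_pos_iff.1 (by linarith)
  have h2 := DL_lin isOpen_OO (Finset.range (N - 1)) (cq N) (f := fun j => gam (2 * j + 1))
    (fun _ _ => (har_gam _).1) [k, l, m, n] (mem_OO h0 hX)
  rw [show DL [k, l, m, n] (qq N) X = _ from h2, Finset.sum_div]
  refine (Finset.abs_sum_le_sum_abs _ _).trans (Finset.sum_le_sum fun j _ => ?_)
  rw [abs_mul, mul_div_assoc]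
  gcongr
  refine (hC j X h0 hX).trans ?_
  have := hC0 j
  gcongr
  simp

theorem dec_qq_iter {L : ℝ} (hL : 1 ≤ L) {N K b : ℕ} (h1 : 4 * N - 4 ≤ b) (h2 : b ≤ K) :
    Dec b ((dl L)^[K] (qq N)) := by
  unfold qq
  rw [dl_iter_lin]
  refine Dec.lin _ _ fun j hj => (dec_gam j).dl_iter hL K b ?_ (by omega)
  have := Finset.mem_range.1 hj
  omega

theorem abs_one_sub_le_om {ρ : ℝ} (hρ : 0 < ρ) : |1 - 1 / ρ ^ 4| ≤ om ρ := by
  unfold om
  have hw : 0 < 1 / ρ ^ 4 := by positivity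
  split_ifs with h
  · have h1 : 1 / ρ ^ 4 ≤ 1 := by
      rw [div_le_one (by positivity)]
      exact one_le_pow₀ h
    rw [abs_of_nonneg (by linarith)]
    linarith [Real.add_one_le_exp (-(1 / ρ ^ 4))]
  · have h1 : 1 ≤ 1 / ρ ^ 4 := by
      rw [le_div_iff₀ (by positivity), one_mul]
      exact pow_le_one₀ hρ.le (by linarith)
    rw [abs_of_nonpos (by linarith)]
    linarith

theorem exp_le_om_pow {ρ : ℝ} (hρ : 0 < ρ) (N : ℕ) : Real.exp (-N) ≤ om ρ ^ (N - 4) := by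
  unfold om
  split_ifs with h
  · have h1 : 1 / ρ ^ 4 ≤ 1 := by
      rw [div_le_one (by positivity)]
      exact one_le_pow₀ h
    rw [← Real.exp_nat_mul]
    refine Real.exp_le_exp.2 ?_
    have h2 : ((N - 4 : ℕ) : ℝ) ≤ N := by exact_mod_cast Nat.sub_le N 4
    have h3 : (0 : ℝ) ≤ ((N - 4 : ℕ) : ℝ) := by positivity
    nlinarith
  · have h1 : 1 ≤ 1 / ρ ^ 4 := by
      rw [le_div_iff₀ (by positivity), one_mul]
      exact pow_le_one₀ hρ.le (by linarith)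
    exact (Real.exp_le_one_iff.2 (by simp)).trans (one_le_pow₀ h1)

theorem weight_le {C : ℝ} (hC : 1 ≤ C) {N : ℕ} (hN : 5 ≤ N) {ρ : ℝ} (hρ : 0 < ρ) :
    |1 - 1 / ρ ^ 4| ^ N + C * mu N (1 / ρ ^ 4) + Real.exp (-N) * (1 / ρ ^ 4) ≤
      Wt (C + 1) N ρ := by
  obtain ⟨M, rfl⟩ : ∃ M, N = M + 4 := ⟨N - 4, by omega⟩
  have h1 := abs_one_sub_le_om hρ
  have h2 := exp_le_om_pow hρ (M + 4)
  have hw : 0 < 1 / ρ ^ 4 := by positivity
  unfold Wt mu
  simp only [Nat.add_sub_cancel] at h2 ⊢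
  generalize 1 / ρ ^ 4 = w at *
  have ha0 : 0 ≤ |1 - w| := abs_nonneg _
  have ha1 : |1 - w| ≤ 1 + w := by
    rw [abs_le]
    constructor <;> linarith
  have hN1 : (1 : ℝ) ≤ ((M + 4 : ℕ) : ℝ) := by exact_mod_cast (by omega : 1 ≤ M + 4)
  simp only [Finset.sum_range_succ, Finset.sum_range_zero, zero_add]
  rw [show M + 4 - 1 = M + 3 by omega, show M + 4 - (1 + 1) = M + 2 by omega,
    show M + 4 - (2 + 1) = M + 1 by omega, show M + 4 - (3 + 1) = M by omega]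
  generalize ((M + 4 : ℕ) : ℝ) = n at *
  generalize |1 - w| = a at *
  have hy : 0 ≤ n * w := by positivity
  have hwy : w ≤ n * w := le_mul_of_one_le_left hw.le hN1
  rw [mul_assoc (C + 1)]
  generalize n * w = y at *
  have hCy : y ≤ C * y := le_mul_of_one_le_left hy hC
  have h3 : a ^ 4 + C * (y * a ^ 3 + y ^ 2 * a ^ 2 + y ^ 3 * a + y ^ 4) ≤ (a + C * y) ^ 4 := by
    have e : C * (y * a ^ 3 + y ^ 2 * a ^ 2 + y ^ 3 * a + y ^ 4) =
        (C * y) * (a ^ 3 + y * a ^ 2 + y ^ 2 * a + y ^ 3) := by ring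
    have hz : 0 ≤ C * y := hy.trans hCy
    rw [e]
    generalize C * y = z at *
    have : z * (a ^ 3 + y * a ^ 2 + y ^ 2 * a + y ^ 3) ≤
        z * (a ^ 3 + z * a ^ 2 + z ^ 2 * a + z ^ 3) := by gcongr
    have h5 : 0 ≤ 3 * a ^ 3 * z + 5 * a ^ 2 * z ^ 2 + 3 * a * z ^ 3 := by positivity
    nlinarith
  have h4 : (a + C * y) ^ 4 ≤ (1 + (C + 1) * y) ^ 4 := by
    have : 0 ≤ C * y := hy.trans hCy
    have h9 : a + C * y ≤ 1 + (C + 1) * y := by linarith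
    gcongr
  have hom : 0 ≤ om ρ := ha0.trans h1
  have h5 : a ^ M ≤ om ρ ^ M := by gcongr
  have hz1 : 1 ≤ 1 + (C + 1) * y := by nlinarith
  have h6 : Real.exp (-n) * w ≤ om ρ ^ M * ((1 + (C + 1) * y) ^ 4 * ((C + 1) * y)) := by
    have h7 : w ≤ (1 + (C + 1) * y) ^ 4 * ((C + 1) * y) := by
      have h8 : w ≤ (C + 1) * y := by nlinarith
      exact h8.trans (le_mul_of_one_le_left (hw.le.trans h8) (one_le_pow₀ hz1))
    gcongr
  have h7 : a ^ M * (a ^ 4 + C * (y * a ^ 3 + y ^ 2 * a ^ 2 + y ^ 3 * a + y ^ 4)) ≤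
      om ρ ^ M * (1 + (C + 1) * y) ^ 4 := by
    have : 0 ≤ C := by linarith
    gcongr
    exact h3.trans h4
  calc _ = a ^ M * (a ^ 4 + C * (y * a ^ 3 + y ^ 2 * a ^ 2 + y ^ 3 * a + y ^ 4)) +
        Real.exp (-n) * w := by ring
    _ ≤ _ := add_le_add h7 h6
    _ = _ := by ring

theorem exists_molecule : ∃ C : ℝ, 1 ≤ C ∧ ∀ N : ℕ, 5 ≤ N → ∀ b : ℕ, 4 * N ≤ b →
    ∃ G : Fin 9 → Sp 3 → ℝ, (∀ β, Har (G β) ∧ Dec (4 * N - 4 + 2) (G β) ∧ Dec (b + 2) (G β)) ∧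
      ∀ x : Bd 3, x ≠ 0 → ∀ A : Fin 9 → ℝ, ‖A + act (Psi G) x A‖ ≤ Wt C N ‖x‖ * ‖A‖ := by
  obtain ⟨C, hC0, hC⟩ := qq_TT
  refine ⟨81 * C + 1 + 1, by linarith, fun N hN b hb => ?_⟩
  obtain ⟨C1, hC10, hC1⟩ := unif4 (P := fun k l m n C => ∀ X : Sp 3, 0 ≤ X 0 → 1 ≤ ‖X‖ →
    |DL [k, l, m, n] (qq N) X| ≤ C / ‖X‖ ^ 8)
    (fun k l m n C C' hCC h X h0 h1 => (h X h0 h1).trans (by gcongr)) (qq_far N)
  obtain ⟨L, hL, hL2⟩ : ∃ L : ℝ, 1 ≤ L ∧ 81 * (3 ^ b * C1) ≤ Real.exp (-N) * L := by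
    refine ⟨max 1 (81 * (3 ^ b * C1) / Real.exp (-N)), le_max_left _ _, ?_⟩
    rw [← div_le_iff₀' (Real.exp_pos _)]
    exact le_max_right _ _
  have hq : Har ((dl L)^[b] (qq N)) := (har_qq N).dl_iter hL b
  refine ⟨fun β X => ∑ γ, (sI γ β : ℝ) / 80 * DL [(ix γ).1, (ix γ).2] ((dl L)^[b] (qq N)) X,
    fun β => ⟨Har.lin _ _ fun γ _ => hq.DL _, Dec.lin _ _ fun γ _ => ?_,
      Dec.lin _ _ fun γ _ => ?_⟩, fun x hx A => ?_⟩
  · exact ((dec_qq_iter hL le_rfl (by omega)).D _).D _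
  · exact ((dec_qq_iter hL (by omega) le_rfl).D _).D _
  have hX := pt_zero_ne hx
  have hρ : 0 < ‖x‖ := norm_pos_iff.2 hx
  have hm : pt 0 x ∈ OO := mem_OO (by simp) hX
  have hs : ss (pt 0 x) = ‖x‖ ^ 2 := by rw [ss_eq, norm_pt_zero]
  have hw : gm 2 (pt 0 x) = 1 / ‖x‖ ^ 4 := by
    rw [gm, hs]
    field_simp
  set w : ℝ := 1 / ‖x‖ ^ 4 with hwdef
  have hw0 : 0 < w := by positivity
  set ε : ℝ := C * mu N w + Real.exp (-N) * w / 81 with hε
  have hε0 : 0 ≤ ε := add_nonneg (mul_nonneg hC0 (mu_nonneg N hw0.le)) (by positivity)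
  have h1 : ∀ a b' c d : Fin 4, b' ≠ 0 → d ≠ 0 →
      |DL [a, b', c, d] ((dl L)^[b] (qq N)) (pt 0 x) - ((1 - w) ^ N - 1) * T0 a b' c d| ≤ ε := by
    intro a b' c d hb' hd
    have e1 := hC N (by omega) (pt 0 x) (by simp) hX a b' c d hb' hd
    rw [hw] at e1
    have e2 := dl_iter_sub hC10 (hC1 a b' c d) hL b (pt 0 x) (by simp)
    rw [← DL_dl_iter hL (har_qq N).1 _ b hm] at e2
    have e3 : 3 ^ b * C1 / ‖pt 0 x + L • ee 0‖ ^ 8 ≤ Real.exp (-N) * w / 81 := by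
      have e4 := ss_shift (pt 0 x) L
      rw [hs, ss_eq, pt_zero] at e4
      have e5 : ‖pt 0 x + L • ee 0‖ ^ 8 = (‖x‖ ^ 2 + L ^ 2) ^ 4 := by
        rw [show (8 : ℕ) = 2 * 4 by norm_num, pow_mul, e4]
        ring
      have e6 : ‖x‖ ^ 4 * L ≤ (‖x‖ ^ 2 + L ^ 2) ^ 4 := by
        have e7 : L ≤ L ^ 4 := le_self_pow₀ hL (by norm_num)
        have e8 : ‖x‖ ^ 2 * L ^ 2 ≤ (‖x‖ ^ 2 + L ^ 2) ^ 2 := by nlinarith [sq_nonneg (‖x‖ ^ 2), sq_nonneg (L ^ 2), mul_nonneg (sq_nonneg ‖x‖) (sq_nonneg L)]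
        calc ‖x‖ ^ 4 * L ≤ ‖x‖ ^ 4 * L ^ 4 := by gcongr
          _ = (‖x‖ ^ 2 * L ^ 2) ^ 2 := by ring
          _ ≤ ((‖x‖ ^ 2 + L ^ 2) ^ 2) ^ 2 := by gcongr
          _ = _ := by ring
      rw [e5]
      calc 3 ^ b * C1 / (‖x‖ ^ 2 + L ^ 2) ^ 4 ≤ Real.exp (-N) * L / 81 / (‖x‖ ^ 4 * L) := by
            gcongr
            linarith
        _ = _ := by
            rw [hwdef]
            field_simp
    have e4 := abs_le.1 e1
    have e5 := abs_le.1 (e2.trans e3)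
    rw [abs_le]
    constructor <;> linarith [e4.1, e4.2, e5.1, e5.2]
  have h2 : ∀ α β : Fin 9, |Psi (fun β X => ∑ γ, (sI γ β : ℝ) / 80 *
      DL [(ix γ).1, (ix γ).2] ((dl L)^[b] (qq N)) X) α β x -
        ((1 - w) ^ N - 1) * (if α = β then 1 else 0)| ≤ 9 * ε := by
    intro α β
    have e1 := DL_lin isOpen_OO Finset.univ (fun γ => (sI γ β : ℝ) / 80)
      (f := fun γ => DL [(ix γ).1, (ix γ).2] ((dl L)^[b] (qq N))) (fun γ _ => (hq.DL _).1)
      [(ix α).1, (ix α).2] hm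
    have e2 : (if α = β then 1 else 0 : ℝ) =
        ∑ γ, (sI γ β : ℝ) / 80 * T0 (ix α).1 (ix α).2 (ix γ).1 (ix γ).2 := by
      have e3 : ((∑ γ, sI γ β * T0 (ix α).1 (ix α).2 (ix γ).1 (ix γ).2 : ℤ) : ℝ) =
          ((if α = β then 80 else 0 : ℤ) : ℝ) := by rw [T0_sI]
      push_cast at e3
      simp only [div_mul_eq_mul_div]
      rw [← Finset.sum_div, e3]
      split_ifs <;> norm_num
    rw [Psi, e1, e2, Finset.mul_sum, ← Finset.sum_sub_distrib]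
    refine (Finset.abs_sum_le_sum_abs _ _).trans ?_
    have e4 : ∀ γ : Fin 9, |(sI γ β : ℝ) / 80 * DL [(ix α).1, (ix α).2]
        (DL [(ix γ).1, (ix γ).2] ((dl L)^[b] (qq N))) (pt 0 x) - ((1 - w) ^ N - 1) *
          ((sI γ β : ℝ) / 80 * T0 (ix α).1 (ix α).2 (ix γ).1 (ix γ).2)| ≤ ε := by
      intro γ
      have e5 := h1 (ix α).1 (ix α).2 (ix γ).1 (ix γ).2 (ix_ne α) (ix_ne γ)
      have e6 : |(sI γ β : ℝ) / 80| ≤ 1 := by
        have e7 : |(sI γ β : ℝ)| ≤ 80 := by exact_mod_cast sI_le γ β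
        rw [abs_div, div_le_one (by norm_num)]
        simpa using e7
      rw [mul_left_comm, ← mul_sub, abs_mul]
      exact (mul_le_mul e6 e5 (abs_nonneg _) zero_le_one).trans_eq (one_mul _)
    refine (Finset.sum_le_sum fun γ _ => e4 γ).trans_eq ?_
    simp
  have hW := weight_le (C := 81 * C + 1) (by linarith) hN hρ
  have hmu := mu_nonneg N hw0.le
  have hW2 : |1 - w| ^ N + 81 * ε ≤ Wt (81 * C + 1 + 1) N ‖x‖ := by
    refine le_trans ?_ hW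
    rw [hε]
    nlinarith
  have hW0 : 0 ≤ |1 - w| ^ N + 81 * ε := by positivity
  refine le_trans ?_ (mul_le_mul_of_nonneg_right hW2 (norm_nonneg A))
  rw [pi_norm_le_iff_of_nonneg (by positivity)]
  intro α
  generalize Psi _ = Ψ at h2 ⊢
  have e1 : (A + act Ψ x A) α = (1 - w) ^ N * A α +
      ∑ β, A β * (Ψ α β x - ((1 - w) ^ N - 1) * (if α = β then 1 else 0)) := by
    simp only [Pi.add_apply, act, mul_sub, Finset.sum_sub_distrib]
    simp
    ring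
  rw [e1, Real.norm_eq_abs]
  have e2 : ∀ β, |A β| ≤ ‖A‖ := fun β => norm_le_pi_norm A β
  have e3 : |∑ β, A β * (Ψ α β x - ((1 - w) ^ N - 1) * (if α = β then 1 else 0))| ≤
      9 * (‖A‖ * (9 * ε)) := by
    refine (Finset.abs_sum_le_sum_abs _ _).trans ((Finset.sum_le_sum fun β _ => ?_).trans_eq
      (b := ∑ _β : Fin 9, ‖A‖ * (9 * ε)) (by simp))
    rw [abs_mul]
    exact mul_le_mul (e2 β) (h2 α β) (abs_nonneg _) (norm_nonneg _)
  have e4 : |(1 - w) ^ N * A α| ≤ |1 - w| ^ N * ‖A‖ := by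
    rw [abs_mul, abs_pow]
    gcongr
    exact e2 α
  refine (abs_add_le _ _).trans ?_
  linarith

end

end Pool.Agent.MP_882061_an

end

-- part MP_882061_an.Numeric
section

open MeasureTheory Filter Topology Metric
open scoped ENNReal ContDiff FourierTransform

namespace Pool.Agent.MP_882061_an

noncomputable section

/-- An explicit majorant of `W^(1/(4N)) - 1`. -/
def numericG (y : ℝ) : ℝ :=
  if y < 1 then 1.001 * (y⁻¹ + 0.001 * y⁻¹ ^ 2) - 1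
  else -0.18 * y ^ (-4 : ℝ) + 0.001 * y ^ (-7 / 2 : ℝ)

theorem numeric_pow (u : ℝ) (hu : 0 ≤ u) : 1 + u ^ 8 ≤ Real.exp (2 * u ^ 7) := by
  have h7 : 0 ≤ u ^ 7 := by positivity
  have h1 : 1 + u ^ 8 ≤ (1 + u ^ 7) ^ 2 := by
    rcases le_total u 1 with h | h
    · have : u ^ 8 ≤ u ^ 7 := pow_le_pow_of_le_one hu h (by norm_num)
      nlinarith
    · have : u ^ 8 ≤ u ^ 14 := pow_le_pow_right₀ h (by norm_num)
      nlinarith
  have h2 : 1 + u ^ 7 ≤ Real.exp (u ^ 7) := by linarith [Real.add_one_le_exp (u ^ 7)]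
  calc 1 + u ^ 8 ≤ (1 + u ^ 7) ^ 2 := h1
    _ ≤ Real.exp (u ^ 7) ^ 2 := by gcongr
    _ = Real.exp (2 * u ^ 7) := by rw [← Real.exp_nat_mul]; norm_num

theorem numeric_small {C M : ℝ} (hC : 1 ≤ C) (hM : 5000 * C ^ 7 ≤ M) {t : ℝ} (ht0 : 0 ≤ t)
    (ht1 : t ≤ 1) :
    ((1 + C * M ^ 8 * t ^ 8) ^ 5) ^ (1 / (4 * M ^ 8)) ≤ 1 + 0.001 * t ^ 7 := by
  have hC7 : 1 ≤ C ^ 7 := one_le_pow₀ hC
  have hM0 : 0 < M := by linarith
  have hC8 : C ≤ C ^ 8 := le_self_pow₀ hC (by norm_num)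
  have h1 : 1 + C * M ^ 8 * t ^ 8 ≤ Real.exp (2 * (C * M * t) ^ 7) := by
    refine le_trans ?_ (numeric_pow _ (by positivity))
    rw [mul_pow, mul_pow]
    gcongr
  have ht7 : t ^ 7 ≤ 1 := pow_le_one₀ ht0 ht1
  have ht7' : 0 ≤ t ^ 7 := by positivity
  have h2 : 2 * (C * M * t) ^ 7 * 5 * (1 / (4 * M ^ 8)) ≤ 0.0005 * t ^ 7 := by
    have : 2 * (C * M * t) ^ 7 * 5 * (1 / (4 * M ^ 8)) = 2.5 * C ^ 7 / M * t ^ 7 := by
      field_simp; ring
    rw [this]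
    gcongr
    rw [div_le_iff₀ hM0]
    linarith
  calc ((1 + C * M ^ 8 * t ^ 8) ^ 5) ^ (1 / (4 * M ^ 8))
      ≤ (Real.exp (2 * (C * M * t) ^ 7) ^ 5) ^ (1 / (4 * M ^ 8)) := by gcongr
    _ = Real.exp (2 * (C * M * t) ^ 7 * 5 * (1 / (4 * M ^ 8))) := by
        rw [← Real.exp_nat_mul, ← Real.exp_mul]; congr 1; push_cast; ring
    _ ≤ Real.exp (0.0005 * t ^ 7) := Real.exp_le_exp.2 h2
    _ ≤ 1 + 0.001 * t ^ 7 := by
        have hx : |0.0005 * t ^ 7| ≤ 1 := by rw [abs_of_nonneg (by positivity)]; linarith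
        have := Real.abs_exp_sub_one_le hx
        rw [abs_of_nonneg (a := 0.0005 * t ^ 7) (by positivity)] at this
        linarith [le_abs_self (Real.exp (0.0005 * t ^ 7) - 1)]

theorem numeric_wt_nonneg {C : ℝ} (hC : 1 ≤ C) (N : ℕ) (ρ : ℝ) : 0 ≤ Wt C N ρ := by
  have : 0 ≤ om ρ := by unfold om; split_ifs <;> positivity
  unfold Wt
  have : 0 ≤ C := by linarith
  positivity

theorem numeric_point {C : ℝ} (hC : 1 ≤ C) {M : ℕ} (hM : 5000 * C ^ 7 ≤ M) {ρ : ℝ} (hρ : 0 < ρ) :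
    Wt C (M ^ 8) ρ ^ (1 / (4 * (M : ℝ) ^ 8)) ≤ 1 + numericG ρ := by
  have hC7 : 1 ≤ C ^ 7 := one_le_pow₀ hC
  have hC0 : 0 ≤ C := by linarith
  have hM1 : (5000 : ℝ) ≤ M := by linarith
  have hN : (5000 : ℝ) ≤ (M : ℝ) ^ 8 := hM1.trans (le_self_pow₀ (by linarith) (by norm_num))
  have hN4 : 4 ≤ M ^ 8 := by exact_mod_cast (show (4 : ℝ) ≤ (M : ℝ) ^ 8 by linarith)
  obtain ⟨N, hNd⟩ : ∃ N : ℕ, N = M ^ 8 := ⟨_, rfl⟩
  have hNr : (M : ℝ) ^ 8 = N := by rw [hNd]; push_cast; rfl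
  have hs := fun t ht0 ht1 => numeric_small hC hM (t := t) ht0 ht1
  rw [hNr] at hs hN ⊢
  rw [← hNd] at hN4 ⊢
  have hp0 : 0 ≤ 1 / (4 * (N : ℝ)) := by positivity
  unfold Wt numericG om
  by_cases h1 : ρ < 1
  · rw [if_neg (not_le.2 h1), if_pos h1]
    obtain ⟨r, hr⟩ : ∃ r, r = ρ⁻¹ := ⟨_, rfl⟩
    have hr1 : 1 ≤ r := hr ▸ (one_le_inv₀ hρ).2 h1.le
    have hw : 1 / ρ ^ 4 = r ^ 4 := by rw [hr, one_div, inv_pow]
    have hw1 : 1 ≤ r ^ 4 := one_le_pow₀ hr1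
    rw [hw, ← hr]
    have e1 : (r ^ 4) ^ (N - 4) * (1 + C * N * r ^ 4) ^ 5 ≤
        r ^ (4 * (N + 1)) * (1 + C * N * 1 ^ 8) ^ 5 := by
      have : 1 + C * N * r ^ 4 ≤ r ^ 4 * (1 + C * N * 1 ^ 8) := by nlinarith
      calc (r ^ 4) ^ (N - 4) * (1 + C * N * r ^ 4) ^ 5
          ≤ (r ^ 4) ^ (N - 4) * (r ^ 4 * (1 + C * N * 1 ^ 8)) ^ 5 := by gcongr
        _ = _ := by
          rw [mul_pow, ← mul_assoc, ← pow_add, ← pow_mul, show N - 4 + 5 = N + 1 by omega]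
    have e2 : (r ^ (4 * (N + 1))) ^ (1 / (4 * (N : ℝ))) ≤ r + 0.001 * r ^ 2 := by
      have hb := rpow_one_add_le_one_add_mul_self (s := r - 1) (by linarith) (p := 1 / (N : ℝ))
        (by positivity) (by rw [div_le_one (by linarith)]; linarith)
      rw [add_sub_cancel] at hb
      have hN' : 1 / (N : ℝ) ≤ 0.001 := by rw [div_le_iff₀ (by linarith)]; linarith
      rw [← Real.rpow_natCast, ← Real.rpow_mul (by linarith),
        show ((4 * (N + 1) : ℕ) : ℝ) * (1 / (4 * (N : ℝ))) = 1 + 1 / (N : ℝ) by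
          push_cast; field_simp,
        Real.rpow_add (by linarith), Real.rpow_one]
      have : r ^ (1 / (N : ℝ)) ≤ 1 + 0.001 * r := by
        have : 1 / (N : ℝ) * (r - 1) ≤ 0.001 * r := by
          apply mul_le_mul hN' (by linarith) (by linarith) (by norm_num)
        linarith
      nlinarith
    have e3 := hs 1 zero_le_one le_rfl
    calc _ ≤ (r ^ (4 * (N + 1)) * (1 + C * N * 1 ^ 8) ^ 5) ^ (1 / (4 * (N : ℝ))) := by gcongr
      _ = (r ^ (4 * (N + 1))) ^ (1 / (4 * (N : ℝ))) *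
          ((1 + C * N * 1 ^ 8) ^ 5) ^ (1 / (4 * (N : ℝ))) :=
        Real.mul_rpow (by positivity) (by positivity)
      _ ≤ (r + 0.001 * r ^ 2) * (1 + 0.001 * 1 ^ 7) := by gcongr
      _ = _ := by ring
  · rw [if_pos (not_lt.1 h1), if_neg h1]
    have h1' : 1 ≤ ρ := not_lt.1 h1
    obtain ⟨t, ht⟩ : ∃ t, t = ρ ^ (-1 / 2 : ℝ) := ⟨_, rfl⟩
    have ht0 : 0 ≤ t := ht ▸ Real.rpow_nonneg hρ.le _
    have ht1 : t ≤ 1 := ht ▸ Real.rpow_le_one_of_one_le_of_nonpos h1' (by norm_num)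
    have h8 : ρ ^ (-4 : ℝ) = t ^ 8 := by
      rw [ht, ← Real.rpow_natCast, ← Real.rpow_mul hρ.le]; norm_num
    have h7 : ρ ^ (-7 / 2 : ℝ) = t ^ 7 := by
      rw [ht, ← Real.rpow_natCast, ← Real.rpow_mul hρ.le]; norm_num
    have hw : 1 / ρ ^ 4 = t ^ 8 := by
      rw [← h8, Real.rpow_neg hρ.le, one_div]; norm_cast
    rw [hw, h8, h7]
    have hw0 : 0 ≤ t ^ 8 := by positivity
    have hw1 : t ^ 8 ≤ 1 := pow_le_one₀ ht0 ht1
    have e1 : (Real.exp (-t ^ 8) ^ (N - 4)) ^ (1 / (4 * (N : ℝ))) ≤ 1 - 0.18 * t ^ 8 := by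
      rw [← Real.exp_nat_mul, ← Real.exp_mul, Nat.cast_sub hN4]
      have hb : 0.24 ≤ ((N : ℝ) - 4) * (1 / (4 * (N : ℝ))) := by
        rw [mul_one_div, le_div_iff₀ (by linarith)]; linarith
      have : ((N : ℝ) - (4 : ℕ)) * -t ^ 8 * (1 / (4 * (N : ℝ))) ≤ -(0.24 * t ^ 8) := by
        push_cast; nlinarith
      refine (Real.exp_le_exp.2 this).trans ?_
      have hx : |-(0.24 * t ^ 8)| ≤ 1 := by rw [abs_neg, abs_of_nonneg (by positivity)]; linarith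
      have := (abs_le.1 (Real.abs_exp_sub_one_sub_id_le hx)).2
      nlinarith
    have e3 := hs t ht0 ht1
    have h70 : 0 ≤ t ^ 7 := by positivity
    calc _ = (Real.exp (-t ^ 8) ^ (N - 4)) ^ (1 / (4 * (N : ℝ))) *
          ((1 + C * N * t ^ 8) ^ 5) ^ (1 / (4 * (N : ℝ))) :=
        Real.mul_rpow (by positivity) (by positivity)
      _ ≤ (1 - 0.18 * t ^ 8) * (1 + 0.001 * t ^ 7) := by
        gcongr
        linarith
      _ ≤ _ := by nlinarith [mul_nonneg hw0 h70]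

theorem numeric_in (y : ℝ) (hy : y ∈ Set.Ioo (0 : ℝ) 1) :
    y ^ 2 * numericG y = 1.001 * y + 1.001 * 0.001 - y ^ 2 := by
  have := hy.1.ne'
  rw [numericG, if_pos hy.2]
  field_simp

theorem numeric_out (y : ℝ) (hy : 1 ≤ y) :
    y ^ 2 * numericG y = -0.18 * y ^ (-2 : ℝ) + 0.001 * y ^ (-3 / 2 : ℝ) := by
  have h0 : 0 < y := by linarith
  have e1 : y ^ (-2 : ℝ) = y ^ 2 * y ^ (-4 : ℝ) := by
    rw [← Real.rpow_natCast, ← Real.rpow_add h0]; norm_num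
  have e2 : y ^ (-3 / 2 : ℝ) = y ^ 2 * y ^ (-7 / 2 : ℝ) := by
    rw [← Real.rpow_natCast, ← Real.rpow_add h0]; norm_num
  rw [numericG, if_neg (not_lt.2 hy), e1, e2]
  ring

theorem numeric_radial {R : ℝ} (hR : 100 ≤ R) :
    IntegrableOn (fun y => y ^ 2 * numericG y) (Set.Ioc 0 R) ∧
      ∫ y in Set.Ioc 0 R, y ^ 2 * numericG y ≤ -0.007 := by
  have hR1 : 1 ≤ R := by linarith
  have h0 : (0 : ℝ) ∉ Set.uIcc 1 R := Set.notMem_uIcc_of_lt zero_lt_one (by linarith)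
  have i1 : IntervalIntegrable (fun y => y ^ 2 * numericG y) volume 0 1 := by
    rw [intervalIntegrable_iff_integrableOn_Ioo_of_le zero_le_one]
    refine IntegrableOn.congr_fun (f := fun y : ℝ => 1.001 * y + 1.001 * 0.001 - y ^ 2) ?_
      (fun y hy => (numeric_in y hy).symm) measurableSet_Ioo
    exact (Continuous.integrableOn_Icc (by fun_prop)).mono_set Set.Ioo_subset_Icc_self
  have j1 : IntervalIntegrable (fun y : ℝ => y ^ (-2 : ℝ)) volume 1 R :=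
    intervalIntegral.intervalIntegrable_rpow (Or.inr h0)
  have j2 : IntervalIntegrable (fun y : ℝ => y ^ (-3 / 2 : ℝ)) volume 1 R :=
    intervalIntegral.intervalIntegrable_rpow (Or.inr h0)
  have hout : Set.EqOn (fun y => y ^ 2 * numericG y)
      (fun y : ℝ => -0.18 * y ^ (-2 : ℝ) + 0.001 * y ^ (-3 / 2 : ℝ)) (Set.uIcc 1 R) := by
    intro y hy
    rw [Set.uIcc_of_le hR1] at hy
    exact numeric_out y hy.1
  have i2 : IntervalIntegrable (fun y => y ^ 2 * numericG y) volume 1 R :=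
    ((j1.const_mul _).add (j2.const_mul _)).congr
      fun y hy => (hout (Set.uIoc_subset_uIcc hy)).symm
  have v1 : ∫ y in (0 : ℝ)..1, y ^ 2 * numericG y = 1.001 / 2 + 1.001 * 0.001 - 1 / 3 := by
    have : ∫ y in (0 : ℝ)..1, y ^ 2 * numericG y =
        ∫ y in (0 : ℝ)..1, (1.001 * y + 1.001 * 0.001 - y ^ 2) := by
      rw [intervalIntegral.integral_of_le zero_le_one, intervalIntegral.integral_of_le zero_le_one,
        integral_Ioc_eq_integral_Ioo, integral_Ioc_eq_integral_Ioo]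
      exact setIntegral_congr_fun measurableSet_Ioo numeric_in
    rw [this, intervalIntegral.integral_sub (by apply Continuous.intervalIntegrable; fun_prop)
      (by apply Continuous.intervalIntegrable; fun_prop),
      intervalIntegral.integral_add (by apply Continuous.intervalIntegrable; fun_prop)
      (by apply Continuous.intervalIntegrable; fun_prop), intervalIntegral.integral_const_mul,
      integral_id, integral_pow, intervalIntegral.integral_const]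
    norm_num
  have v2 : ∫ y in (1 : ℝ)..R, y ^ 2 * numericG y ≤ -0.18 * 0.99 + 0.002 := by
    rw [intervalIntegral.integral_congr hout,
      intervalIntegral.integral_add (j1.const_mul _) (j2.const_mul _),
      intervalIntegral.integral_const_mul, intervalIntegral.integral_const_mul,
      integral_rpow (Or.inr ⟨by norm_num, h0⟩), integral_rpow (Or.inr ⟨by norm_num, h0⟩),
      Real.one_rpow, Real.one_rpow]
    have a1 : R ^ (-2 + 1 : ℝ) ≤ 0.01 := by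
      rw [show (-2 + 1 : ℝ) = -1 by norm_num, Real.rpow_neg_one, inv_le_comm₀ (by linarith)
        (by norm_num)]
      norm_num; linarith
    have a2 : 0 ≤ R ^ (-3 / 2 + 1 : ℝ) := Real.rpow_nonneg (by linarith) _
    have b1 : (R ^ (-2 + 1 : ℝ) - 1) / (-2 + 1) = 1 - R ^ (-2 + 1 : ℝ) := by ring
    have b2 : (R ^ (-3 / 2 + 1 : ℝ) - 1) / (-3 / 2 + 1) = 2 - 2 * R ^ (-3 / 2 + 1 : ℝ) := by ring
    rw [b1, b2]
    linarith
  refine ⟨(intervalIntegrable_iff_integrableOn_Ioc_of_le (by linarith)).1 (i1.trans i2), ?_⟩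
  rw [← intervalIntegral.integral_of_le (by linarith),
    ← intervalIntegral.integral_add_adjacent_intervals i1 i2, v1]
  linarith

theorem numeric_ball {R : ℝ} (hR : 100 ≤ R) :
    IntegrableOn (fun x : Bd 3 => numericG ‖x‖) (closedBall 0 R) ∧
      ∫ x in closedBall (0 : Bd 3) R, numericG ‖x‖ ≤
        -(0.021 * (volume : Measure (Bd 3)).real (ball 0 1)) := by
  obtain ⟨h1, h2⟩ := numeric_radial hR
  have e1 : (closedBall (0 : Bd 3) R).indicator (fun x => numericG ‖x‖) =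
      fun x => (Set.Iic R).indicator numericG ‖x‖ := by
    ext x
    by_cases hx : ‖x‖ ≤ R <;> simp [Set.indicator, hx]
  have e2 : (fun y : ℝ => y ^ (Module.finrank ℝ (Bd 3) - 1) • (Set.Iic R).indicator numericG y) =
      (Set.Iic R).indicator fun y => y ^ 2 * numericG y := by
    ext y
    by_cases hy : y ≤ R <;> simp [Set.indicator, hy]
  constructor
  · rw [← integrable_indicator_iff measurableSet_closedBall, e1,
      integrable_fun_norm_addHaar (μ := volume) (f := (Set.Iic R).indicator numericG), e2,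
      IntegrableOn, integrable_indicator_iff measurableSet_Iic, IntegrableOn,
      Measure.restrict_restrict measurableSet_Iic, Set.inter_comm, Set.Ioi_inter_Iic]
    exact h1
  · rw [← integral_indicator measurableSet_closedBall, e1,
      integral_fun_norm_addHaar (μ := volume) ((Set.Iic R).indicator numericG), e2,
      setIntegral_indicator measurableSet_Iic, Set.Ioi_inter_Iic]
    have hV : 0 ≤ (volume : Measure (Bd 3)).real (ball 0 1) := measureReal_nonneg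
    simp only [finrank_euclideanSpace, Fintype.card_fin, smul_eq_mul, nsmul_eq_mul, Nat.cast_ofNat]
    nlinarith

theorem numeric (C : ℝ) (hC : 1 ≤ C) : ∃ N : ℕ, 5 ≤ N ∧ ∀ p : ℝ, 0 < p → p ≤ 1 / (4 * N) →
    ∃ κ : ℝ, 0 < κ ∧ ∃ R₀ : ℝ, 0 < R₀ ∧ ∀ R : ℝ, R₀ ≤ R →
      (∫⁻ x in closedBall (0 : Bd 3) R, ENNReal.ofReal (Wt C N ‖x‖ ^ p)) + ENNReal.ofReal κ ≤
        volume (closedBall (0 : Bd 3) R) := by
  obtain ⟨M, hM⟩ := exists_nat_ge (5000 * C ^ 7)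
  have hC7 : 1 ≤ C ^ 7 := one_le_pow₀ hC
  have hM1 : (5000 : ℝ) ≤ M := by linarith
  have hN : (5000 : ℝ) ≤ (M : ℝ) ^ 8 := hM1.trans (le_self_pow₀ (by linarith) (by norm_num))
  refine ⟨M ^ 8, by exact_mod_cast (show (5 : ℝ) ≤ (M : ℝ) ^ 8 by linarith), fun p hp hp1 => ?_⟩
  push_cast at hp1
  obtain ⟨θ, hθ⟩ : ∃ θ, θ = p * (4 * (M : ℝ) ^ 8) := ⟨_, rfl⟩
  have hθ0 : 0 < θ := by rw [hθ]; positivity
  have hθ1 : θ ≤ 1 := by rw [hθ]; exact (le_div_iff₀ (by positivity)).1 hp1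
  have hpθ : p = 1 / (4 * (M : ℝ) ^ 8) * θ := by rw [hθ]; field_simp
  have hV : 0 < (volume : Measure (Bd 3)).real (ball 0 1) :=
    ENNReal.toReal_pos (measure_ball_pos _ _ one_pos).ne' measure_ball_lt_top.ne
  have hpt : ∀ ρ : ℝ, 0 < ρ → Wt C (M ^ 8) ρ ^ p ≤ 1 + θ * numericG ρ := by
    intro ρ hρ
    have hW := numeric_wt_nonneg hC (M ^ 8) ρ
    have h1 := numeric_point hC hM hρ
    have h0 : 0 ≤ Wt C (M ^ 8) ρ ^ (1 / (4 * (M : ℝ) ^ 8)) := Real.rpow_nonneg hW _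
    rw [hpθ, Real.rpow_mul hW]
    exact (Real.rpow_le_rpow h0 h1 hθ0.le).trans
      (rpow_one_add_le_one_add_mul_self (by linarith) hθ0.le hθ1)
  have hae : ∀ᵐ x : Bd 3, 0 < ‖x‖ := by
    have : ∀ᵐ x : Bd 3, x ∉ ({0} : Set (Bd 3)) := measure_eq_zero_iff_ae_notMem.1 (by simp)
    filter_upwards [this] with x hx using norm_pos_iff.2 hx
  refine ⟨θ * (0.021 * (volume : Measure (Bd 3)).real (ball 0 1)), by positivity, 100,
    by norm_num, fun R hR => ?_⟩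
  obtain ⟨h1, h2⟩ := numeric_ball hR
  have hfin : volume (closedBall (0 : Bd 3) R) ≠ ⊤ := measure_closedBall_lt_top.ne
  have hc : IntegrableOn (fun _ : Bd 3 => (1 : ℝ)) (closedBall 0 R) := integrableOn_const hfin
  have hint : Integrable (fun x : Bd 3 => 1 + θ * numericG ‖x‖)
      (volume.restrict (closedBall 0 R)) := hc.add (h1.const_mul θ)
  have hnn : 0 ≤ᵐ[volume.restrict (closedBall (0 : Bd 3) R)] fun x => 1 + θ * numericG ‖x‖ := by
    filter_upwards [ae_restrict_of_ae hae] with x hx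
    exact (Real.rpow_nonneg (numeric_wt_nonneg hC _ _) p).trans (hpt _ hx)
  have hκ : 0 ≤ θ * (0.021 * (volume : Measure (Bd 3)).real (ball 0 1)) := by positivity
  calc _ ≤ (∫⁻ x in closedBall (0 : Bd 3) R, ENNReal.ofReal (1 + θ * numericG ‖x‖)) +
        ENNReal.ofReal (θ * (0.021 * (volume : Measure (Bd 3)).real (ball 0 1))) := by
        refine add_le_add_left (lintegral_mono_ae ?_) _
        filter_upwards [ae_restrict_of_ae hae] with x hx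
        exact ENNReal.ofReal_le_ofReal (hpt _ hx)
    _ ≤ _ := by
        rw [← ofReal_integral_eq_lintegral_ofReal hint hnn,
          ← ENNReal.ofReal_add (integral_nonneg_of_ae hnn) hκ,
          ← ENNReal.ofReal_toReal hfin]
        refine ENNReal.ofReal_le_ofReal ?_
        rw [integral_add hc (h1.const_mul θ), integral_const_mul, setIntegral_const, smul_eq_mul,
          mul_one, measureReal_def]
        nlinarith

end

end Pool.Agent.MP_882061_an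

end

-- part MP_882061_an.CoverStep
section

open MeasureTheory Filter Topology Metric
open scoped ENNReal ContDiff FourierTransform

namespace Pool.Agent.MP_882061_an

noncomputable section

theorem coverstep_scale (F : Bd 3 → ℝ≥0∞) (y : Bd 3) {r : ℝ} (hr : 0 < r) :
    ∫⁻ x, F (r⁻¹ • (x - y)) = ENNReal.ofReal (r ^ 3) * ∫⁻ x, F x := by
  have h1 : ∫⁻ x, F (r⁻¹ • (x - y)) = ∫⁻ x, F (r⁻¹ • x) :=
    lintegral_sub_right_eq_self (fun x => F (r⁻¹ • x)) y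
  have hr' : r⁻¹ ≠ 0 := inv_ne_zero hr.ne'
  have h2 : ∫⁻ x, F (r⁻¹ • x) = ∫⁻ x, F x ∂(Measure.map (fun x : Bd 3 => r⁻¹ • x) volume) :=
    (lintegral_map_equiv F (MeasurableEquiv.smul₀ r⁻¹ hr')).symm
  rw [h1, h2, Measure.map_addHaar_smul volume hr', lintegral_smul_measure]
  simp [abs_of_pos hr]

theorem coverstep_tsum {ι : Type} [DecidableEq ι] (f : ι → Fin 9 → ℝ) (a : Fin 9 → ℝ) (i : ι) :
    ‖a - ∑' k, f k‖ₑ ≤ ∑' k, if k = i then ‖a - f i‖ₑ else ‖f k‖ₑ := by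
  by_cases ht : (∑' k, if k = i then ‖a - f i‖ₑ else ‖f k‖ₑ) = ⊤
  · rw [ht]; exact le_top
  set u : ι → Fin 9 → ℝ := fun k => if k = i then a - f i else -f k with hu
  have hn : ∀ k, ‖u k‖ₑ = if k = i then ‖a - f i‖ₑ else ‖f k‖ₑ := by
    intro k
    by_cases hk : k = i <;> simp [hu, hk]
  have hs : Summable u := by
    apply Summable.of_enorm
    simpa only [hn] using ht
  have hs2 : HasSum (fun k => if k = i then a else 0) a := hasSum_ite_eq i a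
  have hf : ∀ k, f k = (if k = i then a else 0) - u k := by
    intro k
    by_cases hk : k = i <;> simp [hu, hk]
  have h3 : ∑' k, f k = a - ∑' k, u k := by
    have := (hs2.sub hs.hasSum).tsum_eq
    simpa only [← hf] using this
  rw [h3, sub_sub_cancel]
  refine enorm_tsum_le_tsum_enorm.trans (le_of_eq ?_)
  simp only [hn]

theorem coverstep_meas (Ψ : Fin 9 → Fin 9 → Bd 3 → ℝ) (hΨ : ∀ α β, Measurable (Ψ α β))
    (A : Fin 9 → ℝ) : Measurable fun x => act Ψ x A := by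
  refine measurable_pi_lambda _ fun α => ?_
  exact Finset.measurable_sum _ fun β _ => (hΨ α β).const_mul _

/-- The error density of one atom. -/
def coverstepErr (p : ℝ) (Ψ : Fin 9 → Fin 9 → Bd 3 → ℝ) (R : ℝ) (e : ℝ≥0∞) (A : Fin 9 → ℝ)
    (z : Bd 3) : ℝ≥0∞ :=
  (closedBall (0 : Bd 3) R).indicator (fun z => e * ‖A‖ₑ ^ p + ‖A + act Ψ z A‖ₑ ^ p) z +
    (closedBall (0 : Bd 3) R)ᶜ.indicator (fun z => ‖act Ψ z A‖ₑ ^ p) z

theorem coverstep_err_meas (p : ℝ) (Ψ : Fin 9 → Fin 9 → Bd 3 → ℝ)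
    (hΨ : ∀ α β, Measurable (Ψ α β)) (R : ℝ) (e : ℝ≥0∞) (A : Fin 9 → ℝ) :
    Measurable (coverstepErr p Ψ R e A) := by
  have h1 := coverstep_meas Ψ hΨ A
  refine Measurable.add (Measurable.indicator ?_ measurableSet_closedBall)
    (Measurable.indicator ?_ measurableSet_closedBall.compl)
  · exact measurable_const.add ((h1.const_add A).enorm.pow_const p)
  · exact h1.enorm.pow_const p

theorem coverstep_err_int {p : ℝ} (Ψ : Fin 9 → Fin 9 → Bd 3 → ℝ)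
    (hΨ : ∀ α β, Measurable (Ψ α β)) {R : ℝ} {θ : ℝ≥0∞} (e : ℝ≥0∞) (A : Fin 9 → ℝ)
    (h : (∫⁻ x in closedBall (0 : Bd 3) R, ‖A + act Ψ x A‖ₑ ^ p) +
      ∫⁻ x in (closedBall (0 : Bd 3) R)ᶜ, ‖act Ψ x A‖ₑ ^ p ≤
        θ * ‖A‖ₑ ^ p * volume (closedBall (0 : Bd 3) R)) :
    ∫⁻ z, coverstepErr p Ψ R e A z ≤ (e + θ) * (‖A‖ₑ ^ p * volume (closedBall (0 : Bd 3) R)) := by
  have h1 := coverstep_meas Ψ hΨ A
  unfold coverstepErr
  rw [lintegral_add_right _ (Measurable.indicator (h1.enorm.pow_const p)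
      measurableSet_closedBall.compl), lintegral_indicator measurableSet_closedBall,
    lintegral_indicator measurableSet_closedBall.compl, lintegral_add_left measurable_const,
    setLIntegral_const, add_assoc, add_mul, ← mul_assoc, ← mul_assoc]
  exact add_le_add le_rfl h

theorem coverstep_radii {p : ℝ} (hp0 : 0 < p) {g : Bd 3 → Fin 9 → ℝ} (hg : Continuous g)
    {e : ℝ≥0∞} (he0 : e ≠ 0) (he : e ≠ ⊤) {y : Bd 3} (hy : g y ≠ 0) {δ : ℝ} (hδ : 0 < δ) :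
    ∃ ρ ∈ Set.Ioo 0 δ, ∀ x ∈ closedBall y ρ,
      ‖g x - g y‖ₑ ^ p ≤ e * ‖g y‖ₑ ^ p ∧ ‖g y‖ₑ ^ p ≤ (1 + e) * ‖g x‖ₑ ^ p := by
  have ha0 : ‖g y‖ₑ ^ p ≠ 0 := by
    simp [hy]
  have hat : ‖g y‖ₑ ^ p ≠ ⊤ := ENNReal.rpow_ne_top_of_nonneg hp0.le enorm_ne_top
  have c1 : Continuous fun x => ‖g x - g y‖ₑ ^ p :=
    ENNReal.continuous_rpow_const.comp (hg.sub continuous_const).enorm
  have c2 : Continuous fun x => (1 + e) * ‖g x‖ₑ ^ p :=
    (ENNReal.continuous_const_mul (by simp [he])).comp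
      (ENNReal.continuous_rpow_const.comp hg.enorm)
  have e1 : ∀ᶠ x in 𝓝 y, ‖g x - g y‖ₑ ^ p < e * ‖g y‖ₑ ^ p := by
    refine c1.continuousAt.eventually_lt continuousAt_const ?_
    simp only [sub_self, enorm_zero, ENNReal.zero_rpow_of_pos hp0]
    exact ENNReal.mul_pos he0 ha0
  have e2 : ∀ᶠ x in 𝓝 y, ‖g y‖ₑ ^ p < (1 + e) * ‖g x‖ₑ ^ p := by
    refine continuousAt_const.eventually_lt c2.continuousAt ?_
    rw [add_mul, one_mul]
    exact ENNReal.lt_add_right hat (mul_ne_zero he0 ha0)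
  obtain ⟨ε, hε, hb⟩ := Metric.nhds_basis_closedBall.eventually_iff.1 (e1.and e2)
  refine ⟨min ε (δ / 2), ⟨lt_min hε (by linarith), (min_le_right _ _).trans_lt (by linarith)⟩,
    fun x hx => ?_⟩
  have := hb (closedBall_subset_closedBall (min_le_left _ _) hx)
  exact ⟨this.1.le, this.2.le⟩

theorem coverstep_approx {p : ℝ} (hp0 : 0 < p) {g : Bd 3 → Fin 9 → ℝ}
    (hg : AEStronglyMeasurable g volume) (hI : ∫⁻ x, ‖g x‖ₑ ^ p ≠ ⊤) {ε : ℝ≥0∞} (hε : ε ≠ 0) :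
    ∃ g' : Bd 3 → Fin 9 → ℝ, Continuous g' ∧ ∫⁻ x, ‖g x - g' x‖ₑ ^ p ≤ ε := by
  have hq0 : ENNReal.ofReal p ≠ 0 := by simpa using hp0
  have hm : MemLp g (ENNReal.ofReal p) volume := by
    refine ⟨hg, ?_⟩
    rw [eLpNorm_lt_top_iff_lintegral_rpow_enorm_lt_top hq0 ENNReal.ofReal_ne_top,
      ENNReal.toReal_ofReal hp0.le]
    exact hI.lt_top
  have hε' : ε ^ (1 / p) ≠ 0 := by
    simp [hε, hp0.le]
  obtain ⟨g', -, h1, h2, -⟩ := hm.exists_hasCompactSupport_eLpNorm_sub_le ENNReal.ofReal_ne_top hε'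
  refine ⟨g', h2, ?_⟩
  rw [eLpNorm_eq_lintegral_rpow_enorm_toReal hq0 ENNReal.ofReal_ne_top,
    ENNReal.toReal_ofReal hp0.le, ENNReal.rpow_le_rpow_iff (by positivity)] at h1
  exact h1

theorem coverstep_const {θ : ℝ} (hθ0 : 0 ≤ θ) (hθ : θ < 1) :
    ∃ e : ℝ≥0∞, e ≠ 0 ∧ e ≠ ⊤ ∧ e + (e + ENNReal.ofReal θ) * ((1 + e) * (1 + e)) < 1 := by
  set η : ℝ := (1 - θ) / 10 with hη
  have h0 : 0 < η := by rw [hη]; linarith
  have h1 : η ≤ 1 / 10 := by rw [hη]; linarith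
  refine ⟨ENNReal.ofReal η, by simpa using h0, ENNReal.ofReal_ne_top, ?_⟩
  rw [← ENNReal.ofReal_one, ← ENNReal.ofReal_add h0.le hθ0, ← ENNReal.ofReal_add zero_le_one h0.le,
    ← ENNReal.ofReal_mul (by positivity), ← ENNReal.ofReal_mul (by positivity),
    ← ENNReal.ofReal_add h0.le (by positivity), ENNReal.ofReal_lt_ofReal_iff one_pos]
  have hθ' : θ = 1 - 10 * η := by rw [hη]; ring
  rw [hθ']
  nlinarith [mul_pos h0 h0, mul_pos h0 (mul_pos h0 h0)]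

theorem coverstep_cont {p : ℝ} (hp0 : 0 < p) (hp1 : p ≤ 1) (Ψ : Fin 9 → Fin 9 → Bd 3 → ℝ)
    (hΨ : ∀ α β, Measurable (Ψ α β)) {R : ℝ} (hR : 0 < R) {θ e : ℝ≥0∞} (he0 : e ≠ 0) (he : e ≠ ⊤)
    (h : ∀ A : Fin 9 → ℝ, (∫⁻ x in closedBall (0 : Bd 3) R, ‖A + act Ψ x A‖ₑ ^ p) +
      ∫⁻ x in (closedBall (0 : Bd 3) R)ᶜ, ‖act Ψ x A‖ₑ ^ p ≤
        θ * ‖A‖ₑ ^ p * volume (closedBall (0 : Bd 3) R))
    {g : Bd 3 → Fin 9 → ℝ} (hg : Continuous g) {r₀ : ℝ} (hr₀ : 0 < r₀) :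
    ∃ (ι : Type) (_ : Countable ι) (y : ι → Bd 3) (r : ι → ℝ) (A : ι → Fin 9 → ℝ),
      (∀ i, 0 < r i ∧ r i ≤ r₀) ∧
      (∑' i, ‖A i‖ₑ ^ p * ENNReal.ofReal (r i ^ 3)) * volume (closedBall (0 : Bd 3) R) ≤
        (1 + e) * ∫⁻ x, ‖g x‖ₑ ^ p ∧
      ∫⁻ x, ‖g x - ∑' i, act Ψ ((r i)⁻¹ • (x - y i)) (A i)‖ₑ ^ p ≤
        (e + θ) * ((1 + e) * ∫⁻ x, ‖g x‖ₑ ^ p) := by
  classical
  obtain ⟨t, ρ, tc, ts, tρ, tcov, tdis⟩ :=
    Besicovitch.exists_disjoint_closedBall_covering_ae (volume : Measure (Bd 3))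
      (fun y => {ρ | ∀ x ∈ closedBall y ρ,
        ‖g x - g y‖ₑ ^ p ≤ e * ‖g y‖ₑ ^ p ∧ ‖g y‖ₑ ^ p ≤ (1 + e) * ‖g x‖ₑ ^ p})
      {y | g y ≠ 0} (fun y hy δ hδ => by
        obtain ⟨ρ, h1, h2⟩ := coverstep_radii hp0 hg he0 he hy hδ
        exact ⟨ρ, h2, h1⟩) (fun _ => R * r₀) (fun _ _ => mul_pos hR hr₀)
  have : Countable t := tc.to_subtype
  set V := volume (closedBall (0 : Bd 3) R) with hV
  have hρ0 : ∀ i : t, 0 < ρ i := fun i => (tρ i i.2).2.1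
  have hr0 : ∀ i : t, 0 < ρ i / R := fun i => div_pos (hρ0 i) hR
  have hvol : ∀ i : t, volume (closedBall (i : Bd 3) (ρ i)) =
      ENNReal.ofReal ((ρ i / R) ^ 3) * V := by
    intro i
    have := Measure.addHaar_closedBall_mul_of_pos (volume : Measure (Bd 3)) (i : Bd 3) (hr0 i) R
    rw [div_mul_cancel₀ _ hR.ne', finrank_euclideanSpace_fin] at this
    exact this
  have hmem : ∀ (i : t) (x : Bd 3), (ρ i / R)⁻¹ • (x - i) ∈ closedBall (0 : Bd 3) R ↔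
      x ∈ closedBall (i : Bd 3) (ρ i) := by
    intro i x
    rw [mem_closedBall_zero_iff, mem_closedBall, dist_eq_norm, norm_smul, norm_inv,
      Real.norm_of_nonneg (hr0 i).le, inv_mul_le_iff₀ (hr0 i), div_mul_cancel₀ _ hR.ne']
  have hsum : (∑' i : t, ‖-g i‖ₑ ^ p * ENNReal.ofReal ((ρ i / R) ^ 3)) * V ≤
      (1 + e) * ∫⁻ x, ‖g x‖ₑ ^ p := by
    rw [← ENNReal.tsum_mul_right]
    have hgm : Measurable fun x => ‖g x‖ₑ ^ p := hg.measurable.enorm.pow_const p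
    calc ∑' i : t, ‖-g i‖ₑ ^ p * ENNReal.ofReal ((ρ i / R) ^ 3) * V
        ≤ ∑' i : t, ∫⁻ x in closedBall (i : Bd 3) (ρ i), (1 + e) * ‖g x‖ₑ ^ p := by
          refine ENNReal.tsum_le_tsum fun i => ?_
          rw [mul_assoc, ← hvol, enorm_neg, ← setLIntegral_const]
          exact setLIntegral_mono' measurableSet_closedBall fun x hx => ((tρ i i.2).1 x hx).2
      _ = ∫⁻ x in ⋃ i : t, closedBall (i : Bd 3) (ρ i), (1 + e) * ‖g x‖ₑ ^ p := by
          rw [lintegral_iUnion (fun _ => measurableSet_closedBall)]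
          intro i j hij
          exact tdis i.2 j.2 (fun h => hij (Subtype.ext h))
      _ ≤ ∫⁻ x, (1 + e) * ‖g x‖ₑ ^ p := setLIntegral_le_lintegral _ _
      _ = (1 + e) * ∫⁻ x, ‖g x‖ₑ ^ p := lintegral_const_mul _ hgm
  refine ⟨t, inferInstance, fun i => i, fun i => ρ i / R, fun i => -g i, fun i => ⟨hr0 i, ?_⟩,
    hsum, ?_⟩
  · rw [div_le_iff₀ hR, mul_comm]
    exact (tρ i i.2).2.2.le
  have hpt : ∀ᵐ x : Bd 3, ‖g x - ∑' i : t, act Ψ ((ρ i / R)⁻¹ • (x - i)) (-g i)‖ₑ ^ p ≤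
      ∑' i : t, coverstepErr p Ψ R e (-g i) ((ρ i / R)⁻¹ • (x - i)) := by
    have hout : ∀ (x : Bd 3) (k : t), x ∉ closedBall (k : Bd 3) (ρ k) →
        ‖act Ψ ((ρ k / R)⁻¹ • (x - k)) (-g k)‖ₑ ^ p ≤
          coverstepErr p Ψ R e (-g k) ((ρ k / R)⁻¹ • (x - k)) := by
      intro x k hk
      have hk' : (ρ k / R)⁻¹ • (x - k) ∈ (closedBall (0 : Bd 3) R)ᶜ := fun h' =>
        hk ((hmem k x).1 h')
      unfold coverstepErr
      rw [Set.indicator_of_mem hk']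
      exact le_add_self
    filter_upwards [measure_eq_zero_iff_ae_notMem.1 tcov] with x hx
    by_cases hxB : ∃ j : t, x ∈ closedBall (j : Bd 3) (ρ j)
    · obtain ⟨j, hj⟩ := hxB
      refine (ENNReal.rpow_le_rpow (coverstep_tsum _ (g x) j) hp0.le).trans
        ((tsum_rpow_le _ hp0 hp1).trans (ENNReal.tsum_le_tsum fun k => ?_))
      by_cases hk : k = j
      · subst hk
        rw [if_pos rfl]
        unfold coverstepErr
        rw [Set.indicator_of_mem ((hmem k x).2 hj)]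
        refine le_trans ?_ le_self_add
        set b := act Ψ ((ρ k / R)⁻¹ • (x - k)) (-g k)
        have h1 : g x - b = (g x - g k) - (-g k + b) := by abel
        rw [h1]
        refine (ENNReal.rpow_le_rpow enorm_sub_le hp0.le).trans
          ((ENNReal.rpow_add_le_add_rpow _ _ hp0.le hp1).trans (add_le_add ?_ le_rfl))
        rw [enorm_neg]
        exact ((tρ k k.2).1 x hj).1
      · rw [if_neg hk]
        refine hout x k fun hxk => ?_
        exact Set.disjoint_left.1 (tdis k.2 j.2 (fun h => hk (Subtype.ext h))) hxk hj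
    · have hg0 : g x = 0 := by
        by_contra hne
        refine hx ⟨hne, fun hU => hxB ?_⟩
        simp only [Set.mem_iUnion] at hU
        obtain ⟨j, hj, hxj⟩ := hU
        exact ⟨⟨j, hj⟩, hxj⟩
      rw [hg0, zero_sub, enorm_neg]
      refine (ENNReal.rpow_le_rpow enorm_tsum_le_tsum_enorm hp0.le).trans
        ((tsum_rpow_le _ hp0 hp1).trans (ENNReal.tsum_le_tsum fun k => ?_))
      exact hout x k fun hxk => hxB ⟨k, hxk⟩
  refine (lintegral_mono_ae hpt).trans ?_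
  have hme : ∀ i : t, AEMeasurable
      (fun x : Bd 3 => coverstepErr p Ψ R e (-g i) ((ρ i / R)⁻¹ • (x - (i : Bd 3)))) volume :=
    fun i => ((coverstep_err_meas p Ψ hΨ R e (-g i)).comp
      (by fun_prop : Measurable fun x : Bd 3 => (ρ i / R)⁻¹ • (x - (i : Bd 3)))).aemeasurable
  rw [lintegral_tsum hme]
  refine le_trans ?_ (mul_le_mul_right hsum _)
  rw [← ENNReal.tsum_mul_right, ← ENNReal.tsum_mul_left]
  refine ENNReal.tsum_le_tsum fun i => ?_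
  rw [coverstep_scale (coverstepErr p Ψ R e (-g i)) i (hr0 i)]
  refine (mul_le_mul_right (coverstep_err_int Ψ hΨ e (-g i) (h _)) _).trans (le_of_eq ?_)
  ring

theorem cover_step {p : ℝ} (hp0 : 0 < p) (hp1 : p ≤ 1) (Ψ : Fin 9 → Fin 9 → Bd 3 → ℝ)
    (hΨ : ∀ α β, Measurable (Ψ α β)) {R θ : ℝ} (hR : 0 < R) (hθ0 : 0 ≤ θ) (hθ : θ < 1)
    (h : ∀ A : Fin 9 → ℝ, (∫⁻ x in closedBall (0 : Bd 3) R, ‖A + act Ψ x A‖ₑ ^ p) +
      ∫⁻ x in (closedBall (0 : Bd 3) R)ᶜ, ‖act Ψ x A‖ₑ ^ p ≤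
        ENNReal.ofReal θ * ‖A‖ₑ ^ p * volume (closedBall (0 : Bd 3) R)) :
    ∃ θ' C : ℝ≥0∞, θ' < 1 ∧ C ≠ ⊤ ∧ ∀ g : Bd 3 → Fin 9 → ℝ, AEStronglyMeasurable g volume →
      ∫⁻ x, ‖g x‖ₑ ^ p ≠ ⊤ → ∀ r₀ : ℝ, 0 < r₀ →
        ∃ (ι : Type) (_ : Countable ι) (y : ι → Bd 3) (r : ι → ℝ) (A : ι → Fin 9 → ℝ),
          (∀ i, 0 < r i ∧ r i ≤ r₀) ∧
          ∑' i, ‖A i‖ₑ ^ p * ENNReal.ofReal (r i ^ 3) ≤ C * ∫⁻ x, ‖g x‖ₑ ^ p ∧
          ∫⁻ x, ‖g x - ∑' i, act Ψ ((r i)⁻¹ • (x - y i)) (A i)‖ₑ ^ p ≤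
            θ' * ∫⁻ x, ‖g x‖ₑ ^ p := by
  obtain ⟨e, he0, he, hlt⟩ := coverstep_const hθ0 hθ
  have hV0 : volume (closedBall (0 : Bd 3) R) ≠ 0 := (measure_closedBall_pos volume _ hR).ne'
  have hVt : volume (closedBall (0 : Bd 3) R) ≠ ⊤ := measure_closedBall_lt_top.ne
  have h1e : 1 + e ≠ ⊤ := by simp [he]
  refine ⟨_, (1 + e) * (1 + e) * (volume (closedBall (0 : Bd 3) R))⁻¹, hlt,
    ENNReal.mul_ne_top (ENNReal.mul_ne_top h1e h1e) (ENNReal.inv_ne_top.2 hV0),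
    fun g hg hI r₀ hr₀ => ?_⟩
  by_cases hI0 : ∫⁻ x, ‖g x‖ₑ ^ p = 0
  · refine ⟨Empty, inferInstance, Empty.elim, Empty.elim, Empty.elim, fun i => i.elim, ?_, ?_⟩
    · simp
    · simp [hI0]
  obtain ⟨g', hg', hd⟩ := coverstep_approx hp0 hg hI (mul_ne_zero he0 hI0)
  obtain ⟨ι, hι, y, r, A, h1, h2, h3⟩ := coverstep_cont hp0 hp1 Ψ hΨ hR he0 he h hg' hr₀
  have hdm : AEMeasurable (fun x => ‖g x - g' x‖ₑ ^ p) volume :=
    (hg.sub hg'.aestronglyMeasurable).enorm.pow_const p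
  have hI' : ∫⁻ x, ‖g' x‖ₑ ^ p ≤ (1 + e) * ∫⁻ x, ‖g x‖ₑ ^ p := by
    calc ∫⁻ x, ‖g' x‖ₑ ^ p ≤ ∫⁻ x, (‖g x‖ₑ ^ p + ‖g x - g' x‖ₑ ^ p) := by
          refine lintegral_mono fun x => ?_
          have hx : g' x = g x - (g x - g' x) := by abel
          conv_lhs => rw [hx]
          exact (ENNReal.rpow_le_rpow enorm_sub_le hp0.le).trans
            (ENNReal.rpow_add_le_add_rpow _ _ hp0.le hp1)
      _ = (∫⁻ x, ‖g x‖ₑ ^ p) + ∫⁻ x, ‖g x - g' x‖ₑ ^ p := lintegral_add_right' _ hdm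
      _ ≤ (1 + e) * ∫⁻ x, ‖g x‖ₑ ^ p := by
          rw [add_mul, one_mul]
          exact add_le_add le_rfl hd
  refine ⟨ι, hι, y, r, A, h1, ?_, ?_⟩
  · have h4 := (h2.trans (mul_le_mul_right hI' _))
    rw [← ENNReal.le_div_iff_mul_le (Or.inl hV0) (Or.inl hVt), div_eq_mul_inv] at h4
    refine h4.trans (le_of_eq ?_)
    ring
  · calc ∫⁻ x, ‖g x - ∑' i, act Ψ ((r i)⁻¹ • (x - y i)) (A i)‖ₑ ^ p
        ≤ ∫⁻ x, (‖g x - g' x‖ₑ ^ p +
            ‖g' x - ∑' i, act Ψ ((r i)⁻¹ • (x - y i)) (A i)‖ₑ ^ p) := by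
          refine lintegral_mono fun x => ?_
          have hx : g x - ∑' i, act Ψ ((r i)⁻¹ • (x - y i)) (A i) =
              (g x - g' x) + (g' x - ∑' i, act Ψ ((r i)⁻¹ • (x - y i)) (A i)) := by abel
          beta_reduce
          rw [hx]
          exact (ENNReal.rpow_le_rpow (enorm_add_le _ _) hp0.le).trans
            (ENNReal.rpow_add_le_add_rpow _ _ hp0.le hp1)
      _ = (∫⁻ x, ‖g x - g' x‖ₑ ^ p) +
            ∫⁻ x, ‖g' x - ∑' i, act Ψ ((r i)⁻¹ • (x - y i)) (A i)‖ₑ ^ p :=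
          lintegral_add_left' hdm _
      _ ≤ e * (∫⁻ x, ‖g x‖ₑ ^ p) +
            (e + ENNReal.ofReal θ) * ((1 + e) * ((1 + e) * ∫⁻ x, ‖g x‖ₑ ^ p)) :=
          add_le_add hd (h3.trans (mul_le_mul_right (mul_le_mul_right hI' _) _))
      _ = _ := by ring

end

end Pool.Agent.MP_882061_an

end

-- part MP_882061_an.Cover
section

open MeasureTheory Filter Topology Metric
open scoped ENNReal ContDiff FourierTransform

namespace Pool.Agent.MP_882061_an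

noncomputable section

theorem cover_meas {Ψ : Fin 9 → Fin 9 → Bd 3 → ℝ} (hΨ : ∀ α β, Measurable (Ψ α β))
    (A : Fin 9 → ℝ) : Measurable (fun x => act Ψ x A) := by
  refine measurable_pi_lambda _ fun α => ?_
  exact Finset.measurable_sum _ fun β _ => (hΨ α β).const_mul _

theorem cover_meas' {Ψ : Fin 9 → Fin 9 → Bd 3 → ℝ} (hΨ : ∀ α β, Measurable (Ψ α β))
    (A : Fin 9 → ℝ) (y : Bd 3) (r : ℝ) : Measurable (fun x => act Ψ (r⁻¹ • (x - y)) A) :=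
  (cover_meas hΨ A).comp ((measurable_id.sub_const y).const_smul r⁻¹)

theorem cover_scale {f : Bd 3 → ℝ≥0∞} (hf : Measurable f) (y : Bd 3) {r : ℝ} (hr : 0 < r) :
    ∫⁻ x, f (r⁻¹ • (x - y)) = ENNReal.ofReal (r ^ 3) * ∫⁻ x, f x := by
  rw [lintegral_sub_right_eq_self (fun x => f (r⁻¹ • x)) y]
  have h1 := lintegral_map (μ := (volume : Measure (Bd 3))) hf (measurable_const_smul r⁻¹)
  rw [← h1, Measure.map_addHaar_smul _ (inv_ne_zero hr.ne'), lintegral_smul_measure]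
  simp only [finrank_euclideanSpace, Fintype.card_fin, inv_pow, inv_inv, smul_eq_mul]
  rw [abs_of_pos (pow_pos hr 3)]

theorem cover_int {p : ℝ} (hp0 : 0 < p) (hp1 : p ≤ 1) {Ψ : Fin 9 → Fin 9 → Bd 3 → ℝ}
    {R θ : ℝ}
    (h : ∀ A : Fin 9 → ℝ, (∫⁻ x in closedBall (0 : Bd 3) R, ‖A + act Ψ x A‖ₑ ^ p) +
      ∫⁻ x in (closedBall (0 : Bd 3) R)ᶜ, ‖act Ψ x A‖ₑ ^ p ≤
        ENNReal.ofReal θ * ‖A‖ₑ ^ p * volume (closedBall (0 : Bd 3) R)) (A : Fin 9 → ℝ) :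
    ∫⁻ x, ‖act Ψ x A‖ₑ ^ p ≤
      (ENNReal.ofReal θ + 1) * volume (closedBall (0 : Bd 3) R) * ‖A‖ₑ ^ p := by
  rw [← lintegral_add_compl (μ := volume) (fun x => ‖act Ψ x A‖ₑ ^ p)
    (measurableSet_closedBall (x := (0 : Bd 3)) (ε := R))]
  have h1 : ∫⁻ x in closedBall (0 : Bd 3) R, ‖act Ψ x A‖ₑ ^ p ≤
      (∫⁻ x in closedBall (0 : Bd 3) R, ‖A + act Ψ x A‖ₑ ^ p) +
        ‖A‖ₑ ^ p * volume (closedBall (0 : Bd 3) R) := by
    rw [← setLIntegral_const, ← lintegral_add_right _ measurable_const]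
    refine lintegral_mono fun x => ?_
    refine le_trans ?_ (ENNReal.rpow_add_le_add_rpow _ _ hp0.le hp1)
    gcongr
    have := enorm_sub_le (a := A + act Ψ x A) (b := A)
    rwa [add_sub_cancel_left] at this
  calc (∫⁻ x in closedBall (0 : Bd 3) R, ‖act Ψ x A‖ₑ ^ p) +
        ∫⁻ x in (closedBall (0 : Bd 3) R)ᶜ, ‖act Ψ x A‖ₑ ^ p
      ≤ ((∫⁻ x in closedBall (0 : Bd 3) R, ‖A + act Ψ x A‖ₑ ^ p) +
        ‖A‖ₑ ^ p * volume (closedBall (0 : Bd 3) R)) +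
        ∫⁻ x in (closedBall (0 : Bd 3) R)ᶜ, ‖act Ψ x A‖ₑ ^ p := by gcongr
    _ = ((∫⁻ x in closedBall (0 : Bd 3) R, ‖A + act Ψ x A‖ₑ ^ p) +
        ∫⁻ x in (closedBall (0 : Bd 3) R)ᶜ, ‖act Ψ x A‖ₑ ^ p) +
        ‖A‖ₑ ^ p * volume (closedBall (0 : Bd 3) R) := by ring
    _ ≤ ENNReal.ofReal θ * ‖A‖ₑ ^ p * volume (closedBall (0 : Bd 3) R) +
        ‖A‖ₑ ^ p * volume (closedBall (0 : Bd 3) R) := by gcongr; exact h A
    _ = (ENNReal.ofReal θ + 1) * volume (closedBall (0 : Bd 3) R) * ‖A‖ₑ ^ p := by ring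

theorem cover_summable {p : ℝ} (hp0 : 0 < p) (hp1 : p ≤ 1) {Ψ : Fin 9 → Fin 9 → Bd 3 → ℝ}
    (hΨ : ∀ α β, Measurable (Ψ α β)) {K : ℝ≥0∞} (hK : K ≠ ⊤)
    (h : ∀ A : Fin 9 → ℝ, ∫⁻ x, ‖act Ψ x A‖ₑ ^ p ≤ K * ‖A‖ₑ ^ p) {ι : Type} [Countable ι]
    (y : ι → Bd 3) (r : ι → ℝ) (A : ι → Fin 9 → ℝ) (hr : ∀ i, 0 < r i)
    (hA : ∑' i, ‖A i‖ₑ ^ p * ENNReal.ofReal (r i ^ 3) ≠ ⊤) :
    ∀ᵐ x, Summable (fun i => act Ψ ((r i)⁻¹ • (x - y i)) (A i)) := by
  have hm : ∀ i, Measurable (fun x => ‖act Ψ ((r i)⁻¹ • (x - y i)) (A i)‖ₑ ^ p) := fun i =>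
    (cover_meas' hΨ (A i) (y i) (r i)).enorm.pow_const p
  have h1 : ∫⁻ x, ∑' i, ‖act Ψ ((r i)⁻¹ • (x - y i)) (A i)‖ₑ ^ p ≠ ⊤ := by
    rw [lintegral_tsum fun i => (hm i).aemeasurable]
    refine ne_top_of_le_ne_top (ENNReal.mul_ne_top hK hA) ?_
    rw [← ENNReal.tsum_mul_left]
    refine ENNReal.tsum_le_tsum fun i => ?_
    rw [cover_scale (f := fun x => ‖act Ψ x (A i)‖ₑ ^ p)
      ((cover_meas hΨ (A i)).enorm.pow_const p) (y i) (hr i)]
    calc ENNReal.ofReal (r i ^ 3) * ∫⁻ x, ‖act Ψ x (A i)‖ₑ ^ p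
        ≤ ENNReal.ofReal (r i ^ 3) * (K * ‖A i‖ₑ ^ p) := by gcongr; exact h _
      _ = K * (‖A i‖ₑ ^ p * ENNReal.ofReal (r i ^ 3)) := by ring
  filter_upwards [ae_lt_top' (AEMeasurable.tsum fun i => (hm i).aemeasurable) h1] with x hx
  refine Summable.of_enorm fun htop => ?_
  have h2 := (tsum_rpow_le (fun i => ‖act Ψ ((r i)⁻¹ • (x - y i)) (A i)‖ₑ) hp0 hp1).trans_lt hx
  rw [htop, ENNReal.top_rpow_of_pos hp0] at h2
  exact lt_irrefl _ h2

theorem cover {p : ℝ} (hp0 : 0 < p) (hp1 : p ≤ 1) (Ψ : Fin 9 → Fin 9 → Bd 3 → ℝ)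
    (hΨ : ∀ α β, Measurable (Ψ α β)) {R θ : ℝ} (hR : 0 < R) (hθ0 : 0 ≤ θ) (hθ : θ < 1)
    (h : ∀ A : Fin 9 → ℝ, (∫⁻ x in closedBall (0 : Bd 3) R, ‖A + act Ψ x A‖ₑ ^ p) +
      ∫⁻ x in (closedBall (0 : Bd 3) R)ᶜ, ‖act Ψ x A‖ₑ ^ p ≤
        ENNReal.ofReal θ * ‖A‖ₑ ^ p * volume (closedBall (0 : Bd 3) R)) :
    ∃ C : ℝ≥0∞, C ≠ ⊤ ∧ ∀ g : Bd 3 → Fin 9 → ℝ, AEStronglyMeasurable g volume →
      ∫⁻ x, ‖g x‖ₑ ^ p ≠ ⊤ → ∀ r₀ : ℝ, 0 < r₀ →
        ∃ (ι : Type) (_ : Countable ι) (y : ι → Bd 3) (r : ι → ℝ) (A : ι → Fin 9 → ℝ),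
          (∀ i, 0 < r i ∧ r i ≤ r₀) ∧
          ∑' i, ‖A i‖ₑ ^ p * ENNReal.ofReal (r i ^ 3) ≤ C * ∫⁻ x, ‖g x‖ₑ ^ p ∧
          ∀ᵐ x, HasSum (fun i => act Ψ ((r i)⁻¹ • (x - y i)) (A i)) (g x) := by
  obtain ⟨θ', C, hθ', hC, H⟩ := cover_step hp0 hp1 Ψ hΨ hR hθ0 hθ h
  have hK : (ENNReal.ofReal θ + 1) * volume (closedBall (0 : Bd 3) R) ≠ ⊤ :=
    ENNReal.mul_ne_top (by simp) measure_closedBall_lt_top.ne
  have hinv : (1 - θ')⁻¹ ≠ ⊤ := ENNReal.inv_ne_top.2 (tsub_pos_of_lt hθ').ne'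
  refine ⟨C * (1 - θ')⁻¹, ENNReal.mul_ne_top hC hinv, fun g hg hI r₀ hr₀ => ?_⟩
  let T : Type := {g : Bd 3 → Fin 9 → ℝ //
    AEStronglyMeasurable g volume ∧ ∫⁻ x, ‖g x‖ₑ ^ p ≠ ⊤}
  choose ι cι y r A h1 h2 h3 using fun f : T => H f.1 f.2.1 f.2.2 r₀ hr₀
  let next : T → T := fun f =>
    ⟨fun x => f.1 x - ∑' i, act Ψ ((r f i)⁻¹ • (x - y f i)) (A f i),
      f.2.1.sub (by
        have := cι f
        exact (Measurable.tsum fun i =>
          cover_meas' hΨ (A f i) (y f i) (r f i)).aestronglyMeasurable),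
      ne_top_of_le_ne_top (ENNReal.mul_ne_top (hθ'.trans ENNReal.one_lt_top).ne f.2.2) (h3 f)⟩
  let s : ℕ → T := fun n => Nat.rec ⟨g, hg, hI⟩ (fun _ f => next f) n
  have hs0 : (s 0).1 = g := rfl
  have hsS : ∀ n x, (s (n + 1)).1 x = (s n).1 x -
      ∑' i, act Ψ ((r (s n) i)⁻¹ • (x - y (s n) i)) (A (s n) i) := fun n x => rfl
  have hb : ∀ n, ∫⁻ x, ‖(s n).1 x‖ₑ ^ p ≤ θ' ^ n * ∫⁻ x, ‖g x‖ₑ ^ p := by
    intro n
    induction n with
    | zero => simp [hs0]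
    | succ n ih =>
      calc ∫⁻ x, ‖(s (n + 1)).1 x‖ₑ ^ p ≤ θ' * ∫⁻ x, ‖(s n).1 x‖ₑ ^ p := h3 (s n)
        _ ≤ θ' * (θ' ^ n * ∫⁻ x, ‖g x‖ₑ ^ p) := by gcongr
        _ = θ' ^ (n + 1) * ∫⁻ x, ‖g x‖ₑ ^ p := by ring
  have hb2 : ∑' n, ∫⁻ x, ‖(s n).1 x‖ₑ ^ p ≤ (1 - θ')⁻¹ * ∫⁻ x, ‖g x‖ₑ ^ p := by
    rw [← ENNReal.tsum_geometric, ← ENNReal.tsum_mul_right]
    exact ENNReal.tsum_le_tsum hb
  have : ∀ n, Countable (ι (s n)) := fun n => cι (s n)
  have hsum : ∑' q : Σ n, ι (s n), ‖A (s q.1) q.2‖ₑ ^ p * ENNReal.ofReal (r (s q.1) q.2 ^ 3) ≤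
      C * (1 - θ')⁻¹ * ∫⁻ x, ‖g x‖ₑ ^ p := by
    rw [ENNReal.tsum_sigma']
    calc ∑' n, ∑' i : ι (s n), ‖A (s n) i‖ₑ ^ p * ENNReal.ofReal (r (s n) i ^ 3)
        ≤ ∑' n, C * ∫⁻ x, ‖(s n).1 x‖ₑ ^ p := ENNReal.tsum_le_tsum fun n => h2 (s n)
      _ = C * ∑' n, ∫⁻ x, ‖(s n).1 x‖ₑ ^ p := ENNReal.tsum_mul_left
      _ ≤ C * ((1 - θ')⁻¹ * ∫⁻ x, ‖g x‖ₑ ^ p) := by gcongr
      _ = C * (1 - θ')⁻¹ * ∫⁻ x, ‖g x‖ₑ ^ p := by ring
  refine ⟨Σ n, ι (s n), inferInstance, fun q => y (s q.1) q.2, fun q => r (s q.1) q.2,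
    fun q => A (s q.1) q.2, fun q => h1 _ _, hsum, ?_⟩
  have e1 := cover_summable hp0 hp1 hΨ hK (cover_int hp0 hp1 h)
    (fun q : Σ n, ι (s n) => y (s q.1) q.2) (fun q => r (s q.1) q.2) (fun q => A (s q.1) q.2)
    (fun q => (h1 _ _).1)
    (ne_top_of_le_ne_top (ENNReal.mul_ne_top (ENNReal.mul_ne_top hC hinv) hI) hsum)
  have hm : ∀ n, AEMeasurable (fun x => ‖(s n).1 x‖ₑ ^ p) volume := fun n =>
    (s n).2.1.enorm.pow_const p
  have e2 : ∀ᵐ x, ∑' n, ‖(s n).1 x‖ₑ ^ p < ⊤ := by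
    refine ae_lt_top' (AEMeasurable.tsum hm) ?_
    rw [lintegral_tsum hm]
    exact ne_top_of_le_ne_top (ENNReal.mul_ne_top hinv hI) hb2
  filter_upwards [e1, e2] with x hx1 hx2
  have t1 : Tendsto (fun n => (s n).1 x) atTop (𝓝 0) := by
    refine Summable.tendsto_atTop_zero (Summable.of_enorm fun htop => ?_)
    have h4 := (tsum_rpow_le (fun n => ‖(s n).1 x‖ₑ) hp0 hp1).trans_lt hx2
    rw [htop, ENNReal.top_rpow_of_pos hp0] at h4
    exact lt_irrefl _ h4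
  have t2 := (hx1.hasSum.sigma fun n => (hx1.sigma_factor n).hasSum).tendsto_sum_nat
  have t3 : ∀ N, ∑ n ∈ Finset.range N,
      ∑' i : ι (s n), act Ψ ((r (s n) i)⁻¹ • (x - y (s n) i)) (A (s n) i) =
        g x - (s N).1 x := by
    intro N
    induction N with
    | zero => simp [hs0]
    | succ N ih => rw [Finset.sum_range_succ, ih, hsS]; abel
  simp only [t3] at t2
  have t4 : Tendsto (fun N => g x - (s N).1 x) atTop (𝓝 (g x - 0)) := tendsto_const_nhds.sub t1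
  rw [sub_zero] at t4
  rw [← tendsto_nhds_unique t2 t4]
  exact hx1.hasSum

end

end Pool.Agent.MP_882061_an

end
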