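import Pool.Agent.MP_882061_an.Mg.Cover

-- part MP_882061_an.RieszOne
section

open MeasureTheory Filter Topology Metric
open scoped ENNReal ContDiff FourierTransform

namespace Pool.Agent.MP_882061_an

noncomputable section

theorem rieszone_dec_D {a : ℕ} {f : Sp 3 → ℝ} (hd : Dec a f) (i : Fin 4) :
    Dec (a + 1) (D i f) := by
  refine ⟨contDiffOn_D isOpen_OO hd.1 i, fun α => ?_⟩
  obtain ⟨C, hC⟩ := hd.2 (α ++ [i])
  refine ⟨C, fun X h0 hX => ?_⟩
  have h := hC X h0 hX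
  rw [DL_append] at h
  have e : a + (α ++ [i]).length = a + 1 + α.length := by simp; omega
  rw [e] at h
  exact h

theorem rieszone_mem {t : ℝ} (ht : 0 < t) (x : Bd 3) : pt t x ∈ OO :=
  upper_subset_OO (pt_mem_upper ht x)

/-- The weight used for domination. -/
def rieszoneW (x : Bd 3) : ℝ := (1 + ‖x‖) ^ (-(4 : ℝ))

theorem rieszone_W_int : Integrable rieszoneW := by
  unfold rieszoneW
  apply integrable_one_add_norm
  simp
  norm_num

theorem rieszone_bound0 {a : ℕ} {g : Sp 3 → ℝ} (hd : Dec a g) :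
    ∃ C : ℝ, 0 ≤ C ∧ ∀ t : ℝ, 0 < t → ∀ x : Bd 3, |g (pt t x)| ≤ C / ‖pt t x‖ ^ a := by
  obtain ⟨C, hC⟩ := hd.2 []
  refine ⟨|C|, abs_nonneg _, fun t ht x => ?_⟩
  have h := hC (pt t x) (by simpa using ht.le) (rieszone_mem ht x).1
  simp only [DL_nil, List.length_nil, add_zero] at h
  refine h.trans ?_
  gcongr
  exact le_abs_self C

theorem rieszone_bound {a : ℕ} (ha : 4 ≤ a) {g : Sp 3 → ℝ} (hd : Dec a g) {s : ℝ} (hs : 0 < s) :
    ∃ K : ℝ, ∀ t : ℝ, s ≤ t → ∀ x : Bd 3, |g (pt t x)| ≤ K * rieszoneW x := by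
  obtain ⟨C, hC0, hC⟩ := rieszone_bound0 hd
  set c : ℝ := min s 1 / 2 with hc
  have hc0 : 0 < c := by positivity
  refine ⟨C / c ^ a, fun t ht x => ?_⟩
  have ht0 : 0 < t := hs.trans_le ht
  refine (hC t ht0 x).trans ?_
  have h1 : c * (1 + ‖x‖) ≤ ‖pt t x‖ := by
    have e1 := abs_le_norm_pt t x
    have e2 := norm_le_norm_pt t x
    rw [abs_of_pos ht0] at e1
    have e3 : min s 1 ≤ t := (min_le_left _ _).trans ht
    have e4 : min s 1 ≤ 1 := min_le_right _ _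
    have e5 : min s 1 * ‖x‖ ≤ ‖x‖ := by
      have := mul_le_mul_of_nonneg_right e4 (norm_nonneg x)
      linarith
    rw [hc]
    nlinarith
  have hx1 : (1 : ℝ) ≤ 1 + ‖x‖ := by linarith [norm_nonneg x]
  have h2 : c ^ a * (1 + ‖x‖) ^ 4 ≤ ‖pt t x‖ ^ a := by
    calc c ^ a * (1 + ‖x‖) ^ 4 ≤ c ^ a * (1 + ‖x‖) ^ a := by
          gcongr
      _ = (c * (1 + ‖x‖)) ^ a := by rw [mul_pow]
      _ ≤ _ := by gcongr
  have h3 : rieszoneW x = ((1 + ‖x‖) ^ 4)⁻¹ := by
    unfold rieszoneW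
    rw [Real.rpow_neg (by positivity)]
    norm_cast
  rw [h3]
  calc C / ‖pt t x‖ ^ a ≤ C / (c ^ a * (1 + ‖x‖) ^ 4) := by gcongr
    _ = _ := by field_simp

/-- The linear map `x ↦ (0, x)`. -/
def rieszoneL : Bd 3 →L[ℝ] Sp 3 :=
  LinearMap.toContinuousLinearMap
    { toFun := fun x => pt 0 x
      map_add' := fun x y => by
        ext i
        refine Fin.cases ?_ (fun j => ?_) i <;> simp
      map_smul' := fun c x => by
        ext i
        refine Fin.cases ?_ (fun j => ?_) i <;> simp }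

theorem rieszone_L_apply (x : Bd 3) : rieszoneL x = pt 0 x := rfl

theorem rieszone_L_single (j : Fin 3) : rieszoneL (EuclideanSpace.single j 1) = ee j.succ := by
  rw [rieszone_L_apply]
  ext i
  refine Fin.cases ?_ (fun k => ?_) i
  · simp [ee, (Fin.succ_ne_zero j).symm]
  · simp [ee]

theorem rieszone_pt_fderiv (t : ℝ) (x : Bd 3) : HasFDerivAt (fun x : Bd 3 => pt t x) rieszoneL x := by
  have : (fun x : Bd 3 => pt t x) = fun x => rieszoneL x + t • ee 0 := by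
    funext y
    rw [pt_eq_add, rieszone_L_apply]
  rw [this]
  exact rieszoneL.hasFDerivAt.add_const _

theorem rieszone_pt_deriv (t : ℝ) (x : Bd 3) : HasDerivAt (fun t : ℝ => pt t x) (ee 0) t := by
  have : (fun t : ℝ => pt t x) = fun t => pt 0 x + t • ee 0 := by
    funext y
    rw [pt_eq_add]
  rw [this]
  simpa using ((hasDerivAt_id t).smul_const (ee 0)).const_add (pt 0 x)

theorem rieszone_slice_fderiv {g : Sp 3 → ℝ} (hg : ContDiffOn ℝ ∞ g OO) {t : ℝ} (ht : 0 < t)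
    (x : Bd 3) :
    HasFDerivAt (fun x : Bd 3 => g (pt t x)) ((fderiv ℝ g (pt t x)).comp rieszoneL) x :=
  (diffAt_of isOpen_OO hg (rieszone_mem ht x)).hasFDerivAt.comp x (rieszone_pt_fderiv t x)

theorem rieszone_slice_deriv {g : Sp 3 → ℝ} (hg : ContDiffOn ℝ ∞ g OO) {t : ℝ} (ht : 0 < t)
    (x : Bd 3) : HasDerivAt (fun t : ℝ => g (pt t x)) (D 0 g (pt t x)) t :=
  (diffAt_of isOpen_OO hg (rieszone_mem ht x)).hasFDerivAt.comp_hasDerivAt t
    (rieszone_pt_deriv t x)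

theorem rieszone_slice_cont {g : Sp 3 → ℝ} (hg : ContDiffOn ℝ ∞ g OO) {t : ℝ} (ht : 0 < t) :
    Continuous (fun x : Bd 3 => g (pt t x)) :=
  continuous_iff_continuousAt.2 fun x => (rieszone_slice_fderiv hg ht x).continuousAt

theorem rieszone_slice_int {a : ℕ} (ha : 4 ≤ a) {g : Sp 3 → ℝ} (hd : Dec a g) {t : ℝ}
    (ht : 0 < t) : Integrable (fun x : Bd 3 => g (pt t x)) := by
  obtain ⟨K, hK⟩ := rieszone_bound ha hd ht
  refine (rieszone_W_int.const_mul K).mono' (rieszone_slice_cont hd.1 ht).aestronglyMeasurable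
    (Eventually.of_forall fun x => ?_)
  exact hK t le_rfl x

/-- The Fourier transform of a slice. -/
def rieszoneF (g : Sp 3 → ℝ) (ξ : Bd 3) (t : ℝ) : ℂ := 𝓕 (fun x : Bd 3 => (g (pt t x) : ℂ)) ξ

theorem rieszone_F_space {a : ℕ} (ha : 4 ≤ a) {g : Sp 3 → ℝ} (hd : Dec a g) {t : ℝ}
    (ht : 0 < t) (j : Fin 3) (ξ : Bd 3) :
    rieszoneF (D j.succ g) ξ t = 2 * Real.pi * Complex.I * (ξ j : ℂ) * rieszoneF g ξ t := by
  set h : Bd 3 → ℂ := fun x => (g (pt t x) : ℂ) with hh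
  have hder : ∀ x, HasFDerivAt h
      (Complex.ofRealCLM.comp ((fderiv ℝ g (pt t x)).comp rieszoneL)) x := fun x =>
    Complex.ofRealCLM.hasFDerivAt.comp x (rieszone_slice_fderiv hd.1 ht x)
  have hint : Integrable h := (rieszone_slice_int ha hd ht).ofReal
  have hfd : fderiv ℝ h = fun x =>
      Complex.ofRealCLM.comp ((fderiv ℝ g (pt t x)).comp rieszoneL) :=
    funext fun x => (hder x).fderiv
  have hint' : Integrable (fderiv ℝ h) := by
    have hb : Integrable (fun x : Bd 3 => ‖rieszoneL‖ * ∑ i, |D i g (pt t x)|) := by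
      refine Integrable.const_mul (integrable_finsetSum _ fun i _ => ?_) _
      exact (rieszone_slice_int (by omega) (rieszone_dec_D hd i) ht).abs
    refine hb.mono' (measurable_fderiv ℝ h).aestronglyMeasurable
      (Eventually.of_forall fun x => ?_)
    rw [hfd]
    calc ‖Complex.ofRealCLM.comp ((fderiv ℝ g (pt t x)).comp rieszoneL)‖
        ≤ ‖Complex.ofRealCLM‖ * (‖fderiv ℝ g (pt t x)‖ * ‖rieszoneL‖) :=
          (ContinuousLinearMap.opNorm_comp_le _ _).trans (by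
            gcongr
            exact ContinuousLinearMap.opNorm_comp_le _ _)
      _ ≤ _ := by
          rw [Complex.ofRealCLM_norm, one_mul, mul_comm]
          gcongr
          exact norm_fderiv_le g _
  have key := Real.fourier_fderiv hint (fun x => (hder x).differentiableAt) hint'
  have k2 := Real.fourier_continuousLinearMap_apply (a := EuclideanSpace.single j (1 : ℝ))
    (v := ξ) hint'
  rw [key] at k2
  have e : (fun x => fderiv ℝ h x (EuclideanSpace.single j (1 : ℝ))) =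
      fun x : Bd 3 => ((D j.succ g (pt t x) : ℝ) : ℂ) := by
    funext x
    rw [hfd]
    simp [rieszone_L_single, D]
  rw [e] at k2
  unfold rieszoneF
  have e5 : (innerSL ℝ ξ) (EuclideanSpace.single j (1 : ℝ)) = ξ j := by
    rw [innerSL_apply_apply, EuclideanSpace.inner_single_right]
    simp
  rw [← k2, VectorFourier.fourierSMulRight_apply, neg_apply,
    neg_apply, e5]
  simp only [neg_smul, Complex.real_smul, smul_eq_mul]
  ring

theorem rieszone_F_time {a : ℕ} (ha : 4 ≤ a) {g : Sp 3 → ℝ} (hd : Dec a g) {t : ℝ}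
    (ht : 0 < t) (ξ : Bd 3) : HasDerivAt (rieszoneF g ξ) (rieszoneF (D 0 g) ξ t) t := by
  have hd' := rieszone_dec_D hd 0
  obtain ⟨K, hK⟩ := rieszone_bound (by omega : 4 ≤ a + 1) hd' (half_pos ht)
  have hch : Continuous (fun x : Bd 3 => ((Real.fourierChar (-inner ℝ x ξ) : Circle) : ℂ)) := by
    fun_prop
  have hs : Set.Ioi (t / 2) ∈ 𝓝 t := Ioi_mem_nhds (half_lt_self ht)
  have := (hasDerivAt_integral_of_dominated_loc_of_deriv_le (μ := (volume : Measure (Bd 3)))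
    (F := fun (s : ℝ) (x : Bd 3) =>
      ((Real.fourierChar (-inner ℝ x ξ) : Circle) : ℂ) * (g (pt s x) : ℂ))
    (F' := fun (s : ℝ) (x : Bd 3) =>
      ((Real.fourierChar (-inner ℝ x ξ) : Circle) : ℂ) * (D 0 g (pt s x) : ℂ))
    (bound := fun x => K * rieszoneW x) hs ?_ ?_ ?_ ?_ (rieszone_W_int.const_mul K) ?_).2
  · unfold rieszoneF
    simp only [Real.fourier_eq, Circle.smul_def, smul_eq_mul]
    exact this
  · filter_upwards [hs] with s hs
    have hs0 : 0 < s := (half_pos ht).trans hs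
    exact (hch.mul (Complex.continuous_ofReal.comp
      (rieszone_slice_cont hd.1 hs0))).aestronglyMeasurable
  · refine (rieszone_slice_int ha hd ht).norm.mono' (hch.mul (Complex.continuous_ofReal.comp
      (rieszone_slice_cont hd.1 ht))).aestronglyMeasurable (Eventually.of_forall fun x => ?_)
    rw [norm_mul, Circle.norm_coe, one_mul, Complex.norm_real]
  · exact (hch.mul (Complex.continuous_ofReal.comp
      (rieszone_slice_cont hd'.1 ht))).aestronglyMeasurable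
  · refine Eventually.of_forall fun x s hs => ?_
    rw [norm_mul, Circle.norm_coe, one_mul, Complex.norm_real]
    exact hK s (le_of_lt hs) x
  · refine Eventually.of_forall fun x s hs => ?_
    have hs0 : 0 < s := (half_pos ht).trans hs
    exact (rieszone_slice_deriv hd.1 hs0 x).ofReal_comp.const_mul _

theorem rieszone_F_tendsto {a : ℕ} (ha : 4 ≤ a) {g : Sp 3 → ℝ} (hd : Dec a g) (ξ : Bd 3) :
    Tendsto (rieszoneF g ξ) atTop (𝓝 0) := by
  obtain ⟨K, hK⟩ := rieszone_bound ha hd one_pos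
  obtain ⟨C, hC0, hC⟩ := rieszone_bound0 hd
  have h1 : Tendsto (fun t : ℝ => ∫ x : Bd 3, |g (pt t x)|) atTop (𝓝 (∫ _x : Bd 3, (0 : ℝ))) := by
    refine tendsto_integral_filter_of_dominated_convergence (fun x => K * rieszoneW x) ?_ ?_
      (rieszone_W_int.const_mul K) (Eventually.of_forall fun x => ?_)
    · filter_upwards [eventually_gt_atTop 0] with t ht
      exact (rieszone_slice_cont hd.1 ht).abs.aestronglyMeasurable
    · filter_upwards [eventually_ge_atTop 1] with t ht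
      refine Eventually.of_forall fun x => ?_
      simpa using hK t ht x
    · have h2 : Tendsto (fun t : ℝ => C / t ^ a) atTop (𝓝 0) :=
        tendsto_const_nhds.div_atTop (tendsto_pow_atTop (by omega))
      refine squeeze_zero' (Eventually.of_forall fun t => abs_nonneg _) ?_ h2
      filter_upwards [eventually_gt_atTop 0] with t ht
      refine (hC t ht x).trans ?_
      have e1 := abs_le_norm_pt t x
      rw [abs_of_pos ht] at e1
      gcongr
  rw [integral_zero] at h1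
  refine squeeze_zero_norm (fun t => ?_) h1
  unfold rieszoneF
  rw [Real.fourier_eq]
  refine (norm_integral_le_integral_norm _).trans (le_of_eq ?_)
  congr 1
  funext x
  simp

theorem rieszone_F_lap {a : ℕ} (ha : 4 ≤ a) {f : Sp 3 → ℝ} (hf : Har f) (hd : Dec a f) {t : ℝ}
    (ht : 0 < t) (ξ : Bd 3) :
    rieszoneF (D 0 (D 0 f)) ξ t = ((2 * Real.pi * ‖ξ‖ : ℝ) : ℂ) ^ 2 * rieszoneF f ξ t := by
  have e : (fun x : Bd 3 => ((D 0 (D 0 f) (pt t x) : ℝ) : ℂ)) =
      fun x => -∑ j : Fin 3, ((D j.succ (D j.succ f) (pt t x) : ℝ) : ℂ) := by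
    funext x
    have h := hf.2 _ (rieszone_mem ht x)
    rw [Fin.sum_univ_succ] at h
    have h' : D 0 (D 0 f) (pt t x) = -∑ j : Fin 3, D j.succ (D j.succ f) (pt t x) := by linarith
    rw [h']
    push_cast
    rfl
  have e2 : rieszoneF (D 0 (D 0 f)) ξ t = -∑ j : Fin 3, rieszoneF (D j.succ (D j.succ f)) ξ t := by
    unfold rieszoneF
    rw [e]
    simp only [Real.fourier_eq, Circle.smul_def, smul_eq_mul, mul_neg, Finset.mul_sum]
    rw [integral_neg, integral_finsetSum]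
    intro j _
    have hch : Continuous (fun x : Bd 3 => ((Real.fourierChar (-inner ℝ x ξ) : Circle) : ℂ)) := by
      fun_prop
    have hd2 := rieszone_dec_D (rieszone_dec_D hd j.succ) j.succ
    refine (rieszone_slice_int (by omega) hd2 ht).norm.mono' (hch.mul
      (Complex.continuous_ofReal.comp (rieszone_slice_cont hd2.1 ht))).aestronglyMeasurable
      (Eventually.of_forall fun x => ?_)
    rw [norm_mul, Circle.norm_coe, one_mul, Complex.norm_real]
  rw [e2]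
  have e3 : ∀ j : Fin 3, rieszoneF (D j.succ (D j.succ f)) ξ t =
      -((2 * Real.pi) ^ 2 * (ξ j : ℂ) ^ 2 * rieszoneF f ξ t) := by
    intro j
    rw [rieszone_F_space (by omega : 4 ≤ a + 1) (rieszone_dec_D hd j.succ) ht,
      rieszone_F_space ha hd ht]
    linear_combination ((2 * Real.pi) ^ 2 * (ξ j : ℂ) ^ 2 * rieszoneF f ξ t) * Complex.I_mul_I
  simp only [e3, Finset.sum_neg_distrib, neg_neg]
  have e4 : ((‖ξ‖ : ℝ) : ℂ) ^ 2 = ∑ j : Fin 3, (ξ j : ℂ) ^ 2 := by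
    have := EuclideanSpace.real_norm_sq_eq ξ
    exact_mod_cast this
  push_cast
  rw [mul_pow (2 * (Real.pi : ℂ)), e4, Finset.mul_sum, Finset.sum_mul]

theorem rieszone_ode {ψ : ℝ → ℂ} {k : ℝ} (hk : 0 ≤ k)
    (hψ : ∀ t, 0 < t → HasDerivAt ψ (k * ψ t) t) (h0 : Tendsto ψ atTop (𝓝 0)) {t : ℝ}
    (ht : 0 < t) : ψ t = 0 := by
  set χ : ℝ → ℂ := fun s => ψ s * (Real.exp (-(k * s)) : ℝ) with hχ
  have hd : ∀ s, 0 < s → HasDerivAt χ 0 s := by
    intro s hs
    have h1 : HasDerivAt (fun s : ℝ => Real.exp (-(k * s))) (Real.exp (-(k * s)) * (-k)) s := by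
      have := ((hasDerivAt_id s).const_mul k).neg.exp
      simpa using this
    have h2 := (hψ s hs).mul h1.ofReal_comp
    refine h2.congr_deriv ?_
    push_cast
    ring
  have hc : ∀ s, t ≤ s → χ s = χ t := by
    intro s hs
    have := constant_of_has_deriv_right_zero (f := χ) (a := t) (b := s)
      (fun y hy => (hd y (ht.trans_le hy.1)).continuousAt.continuousWithinAt)
      (fun y hy => (hd y (ht.trans_le hy.1)).hasDerivWithinAt)
    exact this s ⟨hs, le_rfl⟩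
  have hle : ∀ᶠ s in atTop, ‖χ t‖ ≤ ‖ψ s‖ := by
    filter_upwards [eventually_ge_atTop t] with s hs
    rw [← hc s hs, hχ]
    simp only [norm_mul, Complex.norm_real, Real.norm_eq_abs, Real.abs_exp]
    have : Real.exp (-(k * s)) ≤ 1 := by
      rw [Real.exp_le_one_iff]
      have := mul_nonneg hk (ht.le.trans hs)
      linarith
    exact mul_le_of_le_one_right (norm_nonneg _) this
  have h3 : ‖χ t‖ ≤ 0 := by
    have := ge_of_tendsto h0.norm hle
    simpa using this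
  have h4 : χ t = 0 := norm_le_zero_iff.1 h3
  rw [hχ] at h4
  rcases mul_eq_zero.1 h4 with h | h
  · exact h
  · exact absurd (Complex.ofReal_eq_zero.1 h) (Real.exp_ne_zero _)

theorem isRiesz_of_dec {a : ℕ} (ha : 4 ≤ a) {f : Sp 3 → ℝ} (hf : Har f) (hd : Dec a f)
    (j : Fin 3) : IsRiesz j (D 0 f) (D j.succ f) := by
  intro t ht
  refine ⟨rieszone_slice_int (by omega) (rieszone_dec_D hd 0) ht,
    rieszone_slice_int (by omega) (rieszone_dec_D hd j.succ) ht, fun ξ hξ => ?_⟩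
  set k : ℝ := 2 * Real.pi * ‖ξ‖ with hk
  have hk0 : 0 ≤ k := by positivity
  have hd0 := rieszone_dec_D hd 0
  have key : rieszoneF (D 0 f) ξ t + k * rieszoneF f ξ t = 0 := by
    refine rieszone_ode (ψ := fun s => rieszoneF (D 0 f) ξ s + k * rieszoneF f ξ s) hk0
      (fun s hs => ?_) ?_ ht
    · have h1 := (rieszone_F_time (by omega : 4 ≤ a + 1) hd0 hs ξ).add
        ((rieszone_F_time ha hd hs ξ).const_mul (k : ℂ))
      refine h1.congr_deriv ?_
      rw [rieszone_F_lap ha hf hd hs ξ, ← hk]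
      ring
    · have := (rieszone_F_tendsto (by omega : 4 ≤ a + 1) hd0 ξ).add
        ((rieszone_F_tendsto ha hd ξ).const_mul (k : ℂ))
      simpa using this
  have h2 := rieszone_F_space ha hd ht j ξ
  change rieszoneF (D j.succ f) ξ t = _ * rieszoneF (D 0 f) ξ t
  have h3 : rieszoneF (D 0 f) ξ t = -(k * rieszoneF f ξ t) := by linear_combination key
  have hn : ((‖ξ‖ : ℝ) : ℂ) ≠ 0 := by
    exact_mod_cast norm_ne_zero_iff.2 hξ
  rw [h2, h3, hk]
  push_cast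
  field_simp

end

end Pool.Agent.MP_882061_an

end

-- part MP_882061_an.RieszOps
section

open MeasureTheory Filter Topology Metric
open scoped ENNReal ContDiff FourierTransform

namespace Pool.Agent.MP_882061_an

noncomputable section

theorem rieszops_fourier (f : Bd 3 → ℂ) (ξ : Bd 3) :
    𝓕 f ξ = ∫ x, ((Real.fourierChar (-(inner ℝ x ξ)) : Circle) : ℂ) * f x := by
  rw [Real.fourier_eq]
  simp only [Circle.smul_def, smul_eq_mul]

theorem rieszops_int {f : Bd 3 → ℝ} (hf : Integrable f) (ξ : Bd 3) :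
    Integrable fun x => ((Real.fourierChar (-(inner ℝ x ξ)) : Circle) : ℂ) * (f x : ℂ) := by
  have h := (Real.fourierIntegral_convergent_iff (μ := volume) (f := fun x => (f x : ℂ)) ξ).2
    hf.ofReal
  simpa only [Circle.smul_def, smul_eq_mul] using h

theorem rieszops_aff (g : Bd 3 → ℝ) (y ξ : Bd 3) {r : ℝ} (hr : 0 < r) (c : ℝ) :
    𝓕 (fun x : Bd 3 => ((c * g (r⁻¹ • (x - y)) : ℝ) : ℂ)) ξ =
      (c * r ^ 3 * ((Real.fourierChar (-(inner ℝ y ξ)) : Circle) : ℂ)) *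
        𝓕 (fun x : Bd 3 => (g x : ℂ)) (r • ξ) := by
  rw [rieszops_fourier, rieszops_fourier]
  have h1 := integral_sub_right_eq_self (μ := (volume : Measure (Bd 3)))
    (fun x : Bd 3 => ((Real.fourierChar (-(inner ℝ (x + y) ξ)) : Circle) : ℂ) *
      ((c * g (r⁻¹ • x) : ℝ) : ℂ)) y
  simp only [sub_add_cancel] at h1
  rw [h1]
  have h2 := Measure.integral_comp_inv_smul_of_nonneg (volume : Measure (Bd 3))
    (fun x : Bd 3 => ((Real.fourierChar (-(inner ℝ x (r • ξ))) : Circle) : ℂ) * (g x : ℂ)) hr.le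
  have h3 : ∀ x : Bd 3, inner ℝ (r⁻¹ • x) (r • ξ) = inner ℝ x ξ := by
    intro x
    rw [real_inner_smul_left, real_inner_smul_right, ← mul_assoc, inv_mul_cancel₀ hr.ne', one_mul]
  simp only [h3, finrank_euclideanSpace, Fintype.card_fin, Complex.real_smul] at h2
  have h4 : ∀ x : Bd 3, ((Real.fourierChar (-(inner ℝ (x + y) ξ)) : Circle) : ℂ) *
      ((c * g (r⁻¹ • x) : ℝ) : ℂ) = (c * ((Real.fourierChar (-(inner ℝ y ξ)) : Circle) : ℂ)) *
        (((Real.fourierChar (-(inner ℝ x ξ)) : Circle) : ℂ) * (g (r⁻¹ • x) : ℂ)) := by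
    intro x
    rw [inner_add_left, neg_add, AddChar.map_add_eq_mul, Circle.coe_mul]
    push_cast
    ring
  simp only [h4]
  rw [integral_const_mul, h2]
  push_cast
  ring

theorem rieszops_integrable_tsum {ι : Type} [Countable ι] {f : ι → Bd 3 → ℝ}
    (hf : ∀ i, Integrable (f i)) (hs : Summable fun i => ∫ x, |f i x|) :
    Integrable fun x => ∑' i, f i x := by
  have hm : ∀ i, AEMeasurable (fun x => ‖f i x‖ₑ) volume := fun i => (hf i).1.enorm
  have hfin : ∑' i, ∫⁻ x, ‖f i x‖ₑ ≠ ⊤ := by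
    have h1 : ∀ i, ∫⁻ x, ‖f i x‖ₑ = ENNReal.ofReal (∫ x, |f i x|) := by
      intro i
      rw [← ofReal_integral_norm_eq_lintegral_enorm (hf i)]
      rfl
    simp only [h1]
    rw [← ENNReal.ofReal_tsum_of_nonneg (fun i => integral_nonneg fun x => abs_nonneg _) hs]
    exact ENNReal.ofReal_ne_top
  refine ⟨(AEMeasurable.tsum fun i => (hf i).1.aemeasurable).aestronglyMeasurable, ?_⟩
  calc ∫⁻ x, ‖∑' i, f i x‖ₑ ≤ ∫⁻ x, ∑' i, ‖f i x‖ₑ := lintegral_mono fun x => enorm_tsum_le_tsum_enorm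
    _ = ∑' i, ∫⁻ x, ‖f i x‖ₑ := lintegral_tsum hm
    _ < ⊤ := hfin.lt_top

theorem rieszops_fourier_tsum {ι : Type} [Countable ι] {f : ι → Bd 3 → ℝ}
    (hf : ∀ i, Integrable (f i)) (hs : Summable fun i => ∫ x, |f i x|) (ξ : Bd 3) :
    𝓕 (fun x : Bd 3 => ((∑' i, f i x : ℝ) : ℂ)) ξ = ∑' i, 𝓕 (fun x : Bd 3 => (f i x : ℂ)) ξ := by
  simp only [rieszops_fourier]
  rw [integral_tsum_of_summable_integral_norm (fun i => rieszops_int (hf i) ξ)]
  · refine integral_congr_ae (Eventually.of_forall fun x => ?_)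
    simp only [Complex.ofReal_tsum, tsum_mul_left]
  · simpa only [norm_mul, Circle.norm_coe, one_mul, Complex.norm_real, Real.norm_eq_abs] using hs

theorem rieszops_fourier_sub {f g : Bd 3 → ℝ} (hf : Integrable f) (hg : Integrable g) (ξ : Bd 3) :
    𝓕 (fun x : Bd 3 => ((f x - g x : ℝ) : ℂ)) ξ =
      𝓕 (fun x : Bd 3 => (f x : ℂ)) ξ - 𝓕 (fun x : Bd 3 => (g x : ℂ)) ξ := by
  simp only [rieszops_fourier]
  rw [← integral_sub (rieszops_int hf ξ) (rieszops_int hg ξ)]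
  refine integral_congr_ae (Eventually.of_forall fun x => ?_)
  push_cast
  ring

theorem IsRiesz.congr {j : Fin 3} {u v u' v' : Sp 3 → ℝ} (h : IsRiesz j u v)
    (hu : Set.EqOn u u' (upper 3)) (hv : Set.EqOn v v' (upper 3)) : IsRiesz j u' v' := by
  intro t ht
  have h1 : ∀ x, u' (pt t x) = u (pt t x) := fun x => (hu (pt_mem_upper ht x)).symm
  have h2 : ∀ x, v' (pt t x) = v (pt t x) := fun x => (hv (pt_mem_upper ht x)).symm
  simp only [h1, h2]
  exact h t ht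

theorem IsRiesz.aff {j : Fin 3} {u v : Sp 3 → ℝ} (h : IsRiesz j u v) (y : Bd 3) {r : ℝ}
    (hr : 0 < r) (c : ℝ) :
    IsRiesz j (fun X => c * u (aff y r X)) (fun X => c * v (aff y r X)) := by
  intro t ht
  obtain ⟨h1, h2, h3⟩ := h (r⁻¹ * t) (by positivity)
  simp only [aff_pt]
  refine ⟨((h1.comp_smul (inv_ne_zero hr.ne')).comp_sub_right y).const_mul c,
    ((h2.comp_smul (inv_ne_zero hr.ne')).comp_sub_right y).const_mul c, fun ξ hξ => ?_⟩
  rw [rieszops_aff (fun x => v (pt (r⁻¹ * t) x)) y ξ hr c,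
    rieszops_aff (fun x => u (pt (r⁻¹ * t) x)) y ξ hr c, h3 (r • ξ) (smul_ne_zero hr.ne' hξ)]
  have h4 : (r • ξ) j / ‖r • ξ‖ = ξ j / ‖ξ‖ := by
    rw [norm_smul, Real.norm_of_nonneg hr.le, PiLp.smul_apply, smul_eq_mul,
      mul_div_mul_left _ _ hr.ne']
  rw [h4]
  ring

theorem isRiesz_tsum {j : Fin 3} {ι : Type} [Countable ι] {u v : ι → Sp 3 → ℝ}
    (h : ∀ i, IsRiesz j (u i) (v i))
    (hu : ∀ t : ℝ, 0 < t → Summable fun i => ∫ x, |u i (pt t x)|)
    (hv : ∀ t : ℝ, 0 < t → Summable fun i => ∫ x, |v i (pt t x)|) :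
    IsRiesz j (fun X => ∑' i, u i X) (fun X => ∑' i, v i X) := by
  intro t ht
  have h1 : ∀ i, Integrable fun x => u i (pt t x) := fun i => (h i t ht).1
  have h2 : ∀ i, Integrable fun x => v i (pt t x) := fun i => (h i t ht).2.1
  refine ⟨rieszops_integrable_tsum h1 (hu t ht), rieszops_integrable_tsum h2 (hv t ht),
    fun ξ hξ => ?_⟩
  rw [rieszops_fourier_tsum h1 (hu t ht), rieszops_fourier_tsum h2 (hv t ht), ← tsum_mul_left]
  exact tsum_congr fun i => (h i t ht).2.2 ξ hξ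

theorem rieszops_le_ntMax {d : ℕ} (u : Sp d → ℝ) {t : ℝ} {x y : Bd d} (h : ‖y - x‖ < t) :
    ‖u (pt t y)‖ₑ ≤ ntMax u x :=
  le_iSup₂_of_le (f := fun (t : ℝ) (y : Bd d) => ⨆ (_ : ‖y - x‖ < t), ‖u (pt t y)‖ₑ) t y
    (le_iSup (fun _ : ‖y - x‖ < t => ‖u (pt t y)‖ₑ) h)

theorem measurable_ntMax {d : ℕ} (u : Sp d → ℝ) : Measurable (ntMax u) := by
  refine LowerSemicontinuous.measurable fun x a ha => ?_
  simp only [ntMax, lt_iSup_iff] at ha
  obtain ⟨t, y, hy, ha⟩ := ha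
  have ho : IsOpen {z : Bd d | ‖y - z‖ < t} := isOpen_lt (by fun_prop) continuous_const
  filter_upwards [ho.mem_nhds hy] with z hz
  exact ha.trans_le (rieszops_le_ntMax u hz)

theorem hpNorm_pos {d : ℕ} {p : ℝ} (hp : 0 < p) {u : Sp d → ℝ} {X : Sp d} (hX : X ∈ upper d)
    (hu : u X ≠ 0) : 0 < hpNorm p u := by
  obtain ⟨x, hx⟩ := exists_pt X
  have ht : 0 < X 0 := hX
  have hm : Measurable fun z => ntMax u z ^ p := (measurable_ntMax u).pow_const p
  have h1 : 0 < ∫⁻ z, ntMax u z ^ p := by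
    rw [lintegral_pos_iff_support hm]
    refine (measure_ball_pos volume x ht).trans_le (measure_mono fun z hz => ?_)
    have h2 : ‖x - z‖ < X 0 := by rwa [← dist_eq_norm, dist_comm]
    have h3 := rieszops_le_ntMax u h2
    rw [← hx] at h3
    have h4 : 0 < ntMax u z := (enorm_pos.2 hu).trans_le h3
    exact (ENNReal.rpow_pos_of_nonneg h4 hp.le).ne'
  exact ENNReal.rpow_pos_of_nonneg h1 (by positivity)

theorem rieszops_memHp_sub {p : ℝ} (hp0 : 0 < p) (hp1 : p ≤ 1) {u u' : Sp 3 → ℝ}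
    (h : MemHp p u) (h' : MemHp p u') : MemHp p fun X => u X - u' X := by
  refine ⟨h.1.sub h'.1, ?_⟩
  have hp : 0 < 1 / p := by positivity
  have h1 : ∫⁻ x, ntMax u x ^ p < ⊤ := (ENNReal.rpow_lt_top_iff_of_pos hp).1 h.2
  have h2 : ∫⁻ x, ntMax u' x ^ p < ⊤ := (ENNReal.rpow_lt_top_iff_of_pos hp).1 h'.2
  refine (ENNReal.rpow_lt_top_iff_of_pos hp).2 ?_
  have h3 : ∀ x, ntMax (fun X => u X - u' X) x ≤ ntMax u x + ntMax u' x := fun x =>
    iSup_le fun t => iSup_le fun y => iSup_le fun hy =>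
      enorm_sub_le.trans (add_le_add (rieszops_le_ntMax u hy) (rieszops_le_ntMax u' hy))
  calc ∫⁻ x, ntMax (fun X => u X - u' X) x ^ p ≤ ∫⁻ x, (ntMax u x ^ p + ntMax u' x ^ p) :=
        lintegral_mono fun x => (ENNReal.rpow_le_rpow (h3 x) hp0.le).trans
          (ENNReal.rpow_add_le_add_rpow _ _ hp0.le hp1)
    _ = (∫⁻ x, ntMax u x ^ p) + ∫⁻ x, ntMax u' x ^ p :=
        lintegral_add_left ((measurable_ntMax u).pow_const p) _
    _ < ⊤ := ENNReal.add_lt_top.2 ⟨h1, h2⟩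

theorem rieszops_isRiesz_sub {j : Fin 3} {u v u' v' : Sp 3 → ℝ} (h : IsRiesz j u v)
    (h' : IsRiesz j u' v') : IsRiesz j (fun X => u X - u' X) (fun X => v X - v' X) := by
  intro t ht
  obtain ⟨h1, h2, h3⟩ := h t ht
  obtain ⟨h1', h2', h3'⟩ := h' t ht
  refine ⟨h1.sub h1', h2.sub h2', fun ξ hξ => ?_⟩
  rw [rieszops_fourier_sub h1 h1', rieszops_fourier_sub h2 h2', h3 ξ hξ, h3' ξ hξ]
  ring

theorem rieszops_boundary_sub {u u' : Sp 3 → ℝ} {g : Bd 3 → ℝ} (h : HasBoundary u g)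
    (h' : HasBoundary u' g) : HasBoundary (fun X => u X - u' X) 0 := by
  filter_upwards [h, h'] with x hx hx'
  simpa using hx.sub hx'

theorem IsT2.sub {p : ℝ} (hp0 : 0 < p) (hp1 : p ≤ 1) {u u' : Sp 3 → ℝ}
    {g₁ : Fin 3 → Bd 3 → ℝ} {g₂ : Fin 3 → Fin 3 → Bd 3 → ℝ} (h : IsT2 p u g₁ g₂)
    (h' : IsT2 p u' g₁ g₂) : IsT2 p (fun X => u X - u' X) 0 0 := by
  obtain ⟨h0, v, w, hv, hw⟩ := h
  obtain ⟨h0', v', w', hv', hw'⟩ := h'
  refine ⟨rieszops_memHp_sub hp0 hp1 h0 h0', fun j X => v j X - v' j X,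
    fun k l X => w k l X - w' k l X, fun j => ⟨?_, ?_, ?_⟩, fun k l hkl => ⟨?_, ?_, ?_⟩⟩
  · exact rieszops_memHp_sub hp0 hp1 (hv j).1 (hv' j).1
  · exact rieszops_isRiesz_sub (hv j).2.1 (hv' j).2.1
  · exact rieszops_boundary_sub (hv j).2.2 (hv' j).2.2
  · exact rieszops_memHp_sub hp0 hp1 (hw k l hkl).1 (hw' k l hkl).1
  · exact rieszops_isRiesz_sub (hw k l hkl).2.1 (hw' k l hkl).2.1
  · exact rieszops_boundary_sub (hw k l hkl).2.2 (hw' k l hkl).2.2

end

end Pool.Agent.MP_882061_an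

end

-- part MP_882061_an.SynthHarm
section

open MeasureTheory Filter Topology Metric
open scoped ENNReal ContDiff FourierTransform

namespace Pool.Agent.MP_882061_an

noncomputable section

/-
Hints. From Mol: for a list al of length <= 2 and X in the closed half space,
|DL al F X| <= C / |X|^(3/p + length) (real power; use b0 for |X| <= 1 and b1 for |X| >= 1).
Chain rule: D k (fun X => c * F (aff y r X)) X = c * r^-1 * D k F (aff y r X) on the upper half-space.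
|aff y r X| >= X 0 / r. So on s = {X | t0 < X 0} (open, convex) the terms and their partial derivatives of
order n <= 2 are bounded by C |c_i| r_i^(3/p) t0^(-3/p - n), and sum |c_i| r_i^(3/p) < oo by tsum_rpow_le.
General lemma: f_i differentiable on s, sup |f_i| and sup |D k f_i| summable => the tsum is differentiable on s
and D k (tsum) = tsum (D k) on s (hasFDerivAt_tsum_of_isPreconnected, norm_fderiv_le). Apply it twice;
ContDiffOn 2 by contDiffOn_succ_iff_fderiv_of_isOpen + contDiffOn_clm_apply (or fderiv_eq_sum) and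
continuousOn_tsum; then laplacian_eq and Summable.tsum_finsetSum. If iota is empty everything is 0;
otherwise C >= 0. small: |F (aff X)| <= C (r/t)^b1, r^b1 <= r0^(b1 - 3/p) r^(3/p), enorm_tsum_le / tsum_rpow_le.
-/

theorem synthharm_succ {s : Set (Sp 3)} (hs : IsOpen s) {g : Sp 3 → ℝ} {n : ℕ}
    (hd : DifferentiableOn ℝ g s) (h : ∀ k, ContDiffOn ℝ n (D k g) s) :
    ContDiffOn ℝ ((n : WithTop ℕ∞) + 1) g s := by
  rw [contDiffOn_succ_iff_fderiv_of_isOpen hs]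
  refine ⟨hd, by simp, ?_⟩
  rw [contDiffOn_clm_apply]
  intro v
  have : (fun X => fderiv ℝ g X v) = fun X => ∑ k, v k * D k g X :=
    funext fun X => fderiv_eq_sum g X v
  rw [this]
  exact ContDiffOn.sum fun k _ => contDiffOn_const.mul (h k)

theorem synthharm_tsum {ι : Type} {s : Set (Sp 3)} (hs : IsOpen s) (hc : IsPreconnected s)
    {f : ι → Sp 3 → ℝ} {u v : ι → ℝ} (hu : Summable u) (hv : Summable v)
    (hd : ∀ i, ∀ X ∈ s, DifferentiableAt ℝ (f i) X) (h0 : ∀ i, ∀ X ∈ s, |f i X| ≤ u i)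
    (h1 : ∀ i k, ∀ X ∈ s, |D k (f i) X| ≤ v i) {X : Sp 3} (hX : X ∈ s) :
    DifferentiableAt ℝ (fun Y => ∑' i, f i Y) X ∧
      ∀ k, D k (fun Y => ∑' i, f i Y) X = ∑' i, D k (f i) X := by
  have hb : ∀ i, ∀ Y ∈ s, ‖fderiv ℝ (f i) Y‖ ≤ 4 * v i := by
    intro i Y hY
    refine (norm_fderiv_le _ _).trans ?_
    calc ∑ k, |D k (f i) Y| ≤ ∑ _k : Fin 4, v i := Finset.sum_le_sum fun k _ => h1 i k Y hY
      _ = 4 * v i := by simp
  have hs0 : Summable fun i => f i X :=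
    Summable.of_norm_bounded hu fun i => h0 i X hX
  have H := hasFDerivAt_tsum_of_isPreconnected (hv.mul_left 4) hs hc
    (fun i Y hY => (hd i Y hY).hasFDerivAt) (fun i Y hY => hb i Y hY) hX hs0 hX
  refine ⟨H.differentiableAt, fun k => ?_⟩
  have hs1 : Summable fun i => fderiv ℝ (f i) X :=
    Summable.of_norm_bounded (hv.mul_left 4) fun i => hb i X hX
  unfold D
  rw [H.fderiv]
  exact (ContinuousLinearMap.apply ℝ ℝ (ee k)).map_tsum hs1

theorem synthharm_aff_zero (y : Bd 3) (r : ℝ) (X : Sp 3) : aff y r X 0 = r⁻¹ * X 0 := by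
  simp [aff]

theorem synthharm_aff_mem (y : Bd 3) {r : ℝ} (hr : 0 < r) {X : Sp 3} (hX : X ∈ upper 3) :
    aff y r X ∈ upper 3 := by
  have : 0 < X 0 := hX
  show 0 < aff y r X 0
  rw [synthharm_aff_zero]
  positivity

theorem synthharm_aff_norm (y : Bd 3) {r t : ℝ} (hr : 0 < r) {X : Sp 3} (hX : t ≤ X 0) :
    t / r ≤ ‖aff y r X‖ := by
  have h1 : ‖aff y r X 0‖ ≤ ‖aff y r X‖ := PiLp.norm_apply_le _ 0
  rw [synthharm_aff_zero, Real.norm_eq_abs] at h1
  refine le_trans ?_ ((le_abs_self _).trans h1)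
  rw [div_eq_inv_mul]
  gcongr

theorem synthharm_hasFDerivAt_aff (y : Bd 3) (r : ℝ) (X : Sp 3) :
    HasFDerivAt (aff y r) (r⁻¹ • ContinuousLinearMap.id ℝ (Sp 3)) X :=
  ((hasFDerivAt_id X).sub_const (pt 0 y)).const_smul r⁻¹

theorem synthharm_contDiff_aff (y : Bd 3) (r : ℝ) : ContDiff ℝ ∞ (aff y r) :=
  (contDiff_id.sub contDiff_const).const_smul r⁻¹

theorem synthharm_smooth {G : Sp 3 → ℝ} (hG : ContDiffOn ℝ ∞ G OO) (a : ℝ) (y : Bd 3) {r : ℝ}
    (hr : 0 < r) : ContDiffOn ℝ ∞ (fun X => a * G (aff y r X)) (upper 3) :=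
  contDiffOn_const.mul (hG.comp (synthharm_contDiff_aff y r).contDiffOn
    fun _ hX => upper_subset_OO (synthharm_aff_mem y hr hX))

theorem synthharm_D {G : Sp 3 → ℝ} (hG : ContDiffOn ℝ ∞ G OO) (a : ℝ) (y : Bd 3) {r : ℝ}
    (hr : 0 < r) (k : Fin 4) {X : Sp 3} (hX : X ∈ upper 3) :
    D k (fun X => a * G (aff y r X)) X = a * r⁻¹ * D k G (aff y r X) := by
  have h1 : DifferentiableAt ℝ G (aff y r X) :=
    diffAt_of isOpen_OO hG (upper_subset_OO (synthharm_aff_mem y hr hX))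
  have h2 := (h1.hasFDerivAt.comp X (synthharm_hasFDerivAt_aff y r X)).const_mul a
  have h3 : fderiv ℝ (fun X => a * G (aff y r X)) X = _ := h2.fderiv
  unfold D
  rw [h3]
  simp [mul_assoc]

theorem synthharm_DL {G : Sp 3 → ℝ} (hG : ContDiffOn ℝ ∞ G OO) (a : ℝ) (y : Bd 3) {r : ℝ}
    (hr : 0 < r) (α : List (Fin 4)) :
    Set.EqOn (DL α (fun X => a * G (aff y r X)))
      (fun X => (a * r⁻¹ ^ α.length) * DL α G (aff y r X)) (upper 3) := by
  induction α with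
  | nil => intro X _; simp
  | cons k α ih =>
    intro X hX
    rw [DL_cons, D_congr (isOpen_upper 3) ih k hX,
      synthharm_D (contDiffOn_DL isOpen_OO hG α) _ y hr k hX]
    simp only [List.length_cons, DL_cons]
    ring

theorem synthharm_C_nonneg {b₀ b₁ : ℕ} {C : ℝ} {G : Sp 3 → ℝ} (hG : Mol b₀ b₁ C G) : 0 ≤ C := by
  have hX : (pt 1 (0 : Bd 3)) ∈ upper 3 := pt_mem_upper one_pos _
  have h := (hG.2 [] (by simp) _ (le_of_lt hX) (upper_ne_zero hX)).1
  have hp : 0 < ‖pt 1 (0 : Bd 3)‖ ^ (b₀ + ([] : List (Fin 4)).length) :=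
    pow_pos (norm_pos_iff.2 (upper_ne_zero hX)) _
  have h2 := (abs_nonneg _).trans h
  exact (div_nonneg_iff.1 h2).elim (fun h => h.1) fun h => absurd h.2 (not_le.2 hp)

theorem synthharm_mol {b₀ b₁ : ℕ} {C q : ℝ} {G : Sp 3 → ℝ} (hG : Mol b₀ b₁ C G)
    (h0 : (b₀ : ℝ) ≤ q) (h1 : q ≤ b₁) (α : List (Fin 4)) (hα : α.length ≤ 2) {X : Sp 3}
    (hX : X ∈ upper 3) : |DL α G X| ≤ C / ‖X‖ ^ (q + α.length) := by
  have hC := synthharm_C_nonneg hG
  have hn : 0 < ‖X‖ := norm_pos_iff.2 (upper_ne_zero hX)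
  obtain ⟨ha, hb⟩ := hG.2 α hα X (le_of_lt hX) (upper_ne_zero hX)
  rcases le_total ‖X‖ 1 with h | h
  · refine ha.trans (div_le_div_of_nonneg_left hC (by positivity) ?_)
    rw [← Real.rpow_natCast]
    refine Real.rpow_le_rpow_of_exponent_ge hn h ?_
    push_cast
    linarith
  · refine hb.trans (div_le_div_of_nonneg_left hC (by positivity) ?_)
    rw [← Real.rpow_natCast]
    refine Real.rpow_le_rpow_of_exponent_le h ?_
    push_cast
    linarith

theorem synthharm_bound {b₀ b₁ : ℕ} {C q : ℝ} {G : Sp 3 → ℝ} (hG : Mol b₀ b₁ C G)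
    (h0 : (b₀ : ℝ) ≤ q) (h1 : q ≤ b₁) (a : ℝ) (y : Bd 3) {r : ℝ} (hr : 0 < r)
    (α : List (Fin 4)) (hα : α.length ≤ 2) {t : ℝ} (ht : 0 < t) {X : Sp 3} (hX : t < X 0) :
    |DL α (fun X => a * G (aff y r X)) X| ≤ (C / t ^ (q + α.length)) * (|a| * r ^ q) := by
  have hC := synthharm_C_nonneg hG
  have hXu : X ∈ upper 3 := ht.trans hX
  have hq : 0 ≤ q + α.length := by
    have : (0 : ℝ) ≤ b₀ := Nat.cast_nonneg _
    have : (0 : ℝ) ≤ α.length := Nat.cast_nonneg _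
    linarith
  rw [synthharm_DL hG.1.1 a y hr α hXu]
  have h2 := synthharm_mol hG h0 h1 α hα (synthharm_aff_mem y hr hXu)
  have h3 : C / ‖aff y r X‖ ^ (q + α.length) ≤ C / (t / r) ^ (q + α.length) :=
    div_le_div_of_nonneg_left hC (by positivity)
      (Real.rpow_le_rpow (by positivity) (synthharm_aff_norm y hr hX.le) hq)
  have h4 : |a * r⁻¹ ^ α.length * DL α G (aff y r X)| =
      |a| * r⁻¹ ^ α.length * |DL α G (aff y r X)| := by
    rw [abs_mul, abs_mul, abs_of_pos (a := r⁻¹ ^ α.length) (by positivity)]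
  simp only []
  rw [h4]
  refine (mul_le_mul_of_nonneg_left (h2.trans h3) (by positivity)).trans (le_of_eq ?_)
  rw [Real.div_rpow ht.le hr.le, Real.rpow_add hr, Real.rpow_natCast, inv_pow]
  have : 0 < t ^ (q + α.length) := by positivity
  field_simp

variable {p : ℝ} {b₀ b₁ : ℕ} {C : ℝ} {ι : Type} [Countable ι] {F : ι → Sp 3 → ℝ} {c : ι → ℝ}
  {r : ι → ℝ}

omit [Countable ι] in
theorem synthharm_tsum_le (h : Atoms p b₀ b₁ C F c r) :
    ∑' i, ENNReal.ofReal (|c i| * r i ^ (3 / p)) ≤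
      (∑' i, ‖c i‖ₑ ^ p * ENNReal.ofReal (r i ^ 3)) ^ (1 / p) := by
  rw [one_div, ENNReal.le_rpow_inv_iff h.hp0]
  refine (tsum_rpow_le _ h.hp0 h.hp1.le).trans (le_of_eq (tsum_congr fun i => ?_))
  have hr := h.pos i
  rw [ENNReal.ofReal_mul (abs_nonneg _), ENNReal.mul_rpow_of_nonneg _ _ h.hp0.le,
    ← Real.enorm_eq_ofReal_abs, ENNReal.ofReal_rpow_of_pos (by positivity),
    ← Real.rpow_mul hr.le, div_mul_cancel₀ _ h.hp0.ne']
  norm_cast

omit [Countable ι] in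
theorem synthharm_summable (h : Atoms p b₀ b₁ C F c r) :
    Summable fun i => |c i| * r i ^ (3 / p) := by
  have h1 : ∑' i, ENNReal.ofReal (|c i| * r i ^ (3 / p)) ≠ ⊤ :=
    ne_top_of_le_ne_top (ENNReal.rpow_ne_top_of_nonneg (by have := h.hp0; positivity) h.fin)
      (synthharm_tsum_le h)
  have h2 := ENNReal.summable_toReal h1
  refine h2.congr fun i => ENNReal.toReal_ofReal ?_
  have := h.pos i
  positivity

omit [Countable ι] in
theorem synthharm_q0 (h : Atoms p b₀ b₁ C F c r) : (b₀ : ℝ) ≤ 3 / p := by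
  rw [le_div_iff₀ h.hp0]
  exact h.h0.le

omit [Countable ι] in
theorem synthharm_q1 (h : Atoms p b₀ b₁ C F c r) : 3 / p ≤ (b₁ : ℝ) := by
  rw [div_le_iff₀ h.hp0]
  exact h.h1.le

theorem Atoms.harmonic (h : Atoms p b₀ b₁ C F c r) (y : ι → Bd 3) :
    InnerProductSpace.HarmonicOnNhd (syn F c y r) (upper 3) := by
  intro X₀ hX₀
  have hX₀' : 0 < X₀ 0 := hX₀
  set t : ℝ := X₀ 0 / 2 with ht
  have ht0 : 0 < t := by positivity
  set s : Set (Sp 3) := {X | t < X 0} with hs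
  have hso : IsOpen s := isOpen_lt continuous_const (by fun_prop)
  have hsc : IsPreconnected s := by
    refine Convex.isPreconnected ?_
    exact convex_halfSpace_gt (f := fun X : Sp 3 => X 0) ⟨fun _ _ => rfl, fun _ _ => rfl⟩ t
  have hsu : s ⊆ upper 3 := fun X hX => ht0.trans hX
  have hX₀s : X₀ ∈ s := by
    show t < X₀ 0
    linarith
  set T : ι → Sp 3 → ℝ := fun i X => c i * F i (aff (y i) (r i) X) with hT
  have hTs : ∀ i, ContDiffOn ℝ ∞ (T i) s := fun i =>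
    (synthharm_smooth (h.mol i).1.1 (c i) (y i) (h.pos i)).mono hsu
  have hB : ∀ (α : List (Fin 4)), α.length ≤ 2 → ∀ i, ∀ X ∈ s,
      |DL α (T i) X| ≤ (C / t ^ (3 / p + α.length)) * (|c i| * r i ^ (3 / p)) :=
    fun α hα i X hX => synthharm_bound (h.mol i) (synthharm_q0 h) (synthharm_q1 h) (c i) (y i)
      (h.pos i) α hα ht0 hX
  have hS := synthharm_summable h
  have hsyn : syn F c y r = fun X => ∑' i, T i X := rfl
  have h1 : ∀ X ∈ s, DifferentiableAt ℝ (fun Y => ∑' i, T i Y) X ∧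
      ∀ k, D k (fun Y => ∑' i, T i Y) X = ∑' i, D k (T i) X := fun X hX =>
    synthharm_tsum hso hsc (hS.mul_left _) (hS.mul_left (C / t ^ (3 / p + ((1 : ℕ) : ℝ))))
      (fun i X hX => diffAt_of hso (hTs i) hX) (fun i X hX => hB [] (by simp) i X hX)
      (fun i k X hX => hB [k] (by simp) i X hX) hX
  have h2 : ∀ k, ∀ X ∈ s, DifferentiableAt ℝ (fun Y => ∑' i, D k (T i) Y) X ∧
      ∀ j, D j (fun Y => ∑' i, D k (T i) Y) X = ∑' i, D j (D k (T i)) X := fun k X hX =>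
    synthharm_tsum hso hsc (hS.mul_left (C / t ^ (3 / p + ((1 : ℕ) : ℝ))))
      (hS.mul_left (C / t ^ (3 / p + ((2 : ℕ) : ℝ))))
      (fun i X hX => diffAt_of hso (contDiffOn_D hso (hTs i) k) hX)
      (fun i X hX => hB [k] (by simp) i X hX)
      (fun i j X hX => hB [j, k] (by simp) i X hX) hX
  have h3 : ∀ k, Set.EqOn (D k fun Y => ∑' i, T i Y) (fun Y => ∑' i, D k (T i) Y) s :=
    fun k X hX => (h1 X hX).2 k
  have h4 : ∀ j k, Set.EqOn (D j (D k fun Y => ∑' i, T i Y))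
      (fun X => ∑' i, D j (D k (T i)) X) s := fun j k X hX => by
    rw [D_congr hso (h3 k) j hX]
    exact (h2 k X hX).2 j
  have h5 : ContDiffOn ℝ 2 (fun Y => ∑' i, T i Y) s := by
    have e2 : (2 : WithTop ℕ∞) = ((1 : ℕ) : WithTop ℕ∞) + 1 := by norm_num
    have e1 : ((1 : ℕ) : WithTop ℕ∞) = ((0 : ℕ) : WithTop ℕ∞) + 1 := by norm_num
    rw [e2]
    refine synthharm_succ hso (fun X hX => (h1 X hX).1.differentiableWithinAt) fun k => ?_
    rw [e1]
    refine synthharm_succ hso (fun X hX => ?_) fun j => ?_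
    · exact ((h2 k X hX).1.differentiableWithinAt).congr (h3 k) (h3 k hX)
    · rw [Nat.cast_zero, contDiffOn_zero]
      refine ContinuousOn.congr ?_ (h4 j k)
      refine continuousOn_tsum
        (fun i => (contDiffOn_D hso (contDiffOn_D hso (hTs i) k) j).continuousOn)
        (hS.mul_left _) fun i X hX => hB [j, k] (by simp) i X hX
  rw [hsyn]
  refine ⟨h5.contDiffAt (hso.mem_nhds hX₀s), ?_⟩
  filter_upwards [hso.mem_nhds hX₀s] with X hX
  rw [laplacian_eq (h5.contDiffAt (hso.mem_nhds hX))]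
  simp only [fun k => h4 k k hX]
  rw [← Summable.tsum_finsetSum]
  · have : ∀ i, ∑ k, D k (D k (T i)) X = 0 := by
      intro i
      have e : ∀ k, D k (D k (T i)) X =
          (c i * (r i)⁻¹ ^ 2) * D k (D k (F i)) (aff (y i) (r i) X) := fun k =>
        synthharm_DL (h.mol i).1.1 (c i) (y i) (h.pos i) [k, k] (hsu hX)
      simp only [e]
      rw [← Finset.mul_sum, (h.mol i).1.2 _
        (upper_subset_OO (synthharm_aff_mem (y i) (h.pos i) (hsu hX))), mul_zero]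
    simp [this]
  · intro k _
    exact Summable.of_norm_bounded (hS.mul_left _) fun i => hB [k, k] (by simp) i X hX

theorem Atoms.small (h : Atoms p b₀ b₁ C F c r) (y : ι → Bd 3) {r₀ : ℝ} (hr : ∀ i, r i ≤ r₀)
    {X : Sp 3} (hX : X ∈ upper 3) :
    ‖syn F c y r X‖ₑ ≤ ENNReal.ofReal (C * r₀ ^ ((b₁ : ℝ) - 3 / p) / X 0 ^ b₁) *
      (∑' i, ‖c i‖ₑ ^ p * ENNReal.ofReal (r i ^ 3)) ^ (1 / p) := by
  have hX0 : 0 < X 0 := hX
  refine le_trans ?_ (mul_le_mul_right (synthharm_tsum_le h) _)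
  rw [← ENNReal.tsum_mul_left]
  refine enorm_tsum_le_tsum_enorm.trans (ENNReal.tsum_le_tsum fun i => ?_)
  have hC := synthharm_C_nonneg (h.mol i)
  have hri := h.pos i
  have hr0 : 0 < r₀ := hri.trans_le (hr i)
  rw [← ENNReal.ofReal_mul (by positivity), Real.enorm_eq_ofReal_abs]
  refine ENNReal.ofReal_le_ofReal ?_
  have hm := synthharm_aff_mem (y i) hri hX
  have h1 := ((h.mol i).2 [] (by simp) _ (le_of_lt hm) (upper_ne_zero hm)).2
  simp only [DL_nil, List.length_nil, add_zero] at h1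
  have h2 : C / ‖aff (y i) (r i) X‖ ^ b₁ ≤ C / (X 0 / r i) ^ b₁ :=
    div_le_div_of_nonneg_left hC (by positivity)
      (pow_le_pow_left₀ (by positivity) (synthharm_aff_norm (y i) hri le_rfl) _)
  have h3 : r i ^ b₁ ≤ r₀ ^ ((b₁ : ℝ) - 3 / p) * r i ^ (3 / p) := by
    have e : r i ^ b₁ = r i ^ ((b₁ : ℝ) - 3 / p) * r i ^ (3 / p) := by
      rw [← Real.rpow_add hri, sub_add_cancel, Real.rpow_natCast]
    rw [e]
    exact mul_le_mul_of_nonneg_right
      (Real.rpow_le_rpow hri.le (hr i) (sub_nonneg.2 (synthharm_q1 h))) (by positivity)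
  rw [abs_mul]
  calc |c i| * |F i (aff (y i) (r i) X)| ≤ |c i| * (C / (X 0 / r i) ^ b₁) :=
        mul_le_mul_of_nonneg_left (h1.trans h2) (abs_nonneg _)
    _ = |c i| * (C / X 0 ^ b₁) * r i ^ b₁ := by
        rw [div_pow]
        field_simp
    _ ≤ |c i| * (C / X 0 ^ b₁) * (r₀ ^ ((b₁ : ℝ) - 3 / p) * r i ^ (3 / p)) :=
        mul_le_mul_of_nonneg_left h3 (by positivity)
    _ = _ := by ring

end

end Pool.Agent.MP_882061_an

end

-- part MP_882061_an.SynthHp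
section

open MeasureTheory Filter Topology Metric
open scoped ENNReal ContDiff FourierTransform

namespace Pool.Agent.MP_882061_an

noncomputable section

/-
Hints. Put m z = ofReal (C * min ((2/|z|)^b0) ((2/|z|)^b1)) for z <> 0 (measurable). If |y - x| < t then
|x| <= |y| + t <= 2 |pt t y| (norm_le_norm_pt, abs_le_norm_pt), hence |F (pt t y)| <= m x for x <> 0; the cone
condition is invariant under aff (aff_pt). So for x different from all y_i (a.e., countable set)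
ntMax (syn) x <= sum_i |c_i| m((x - y_i)/r_i) =: S x, S^p <= sum |c_i|^p m(..)^p (tsum_rpow_le),
int m(r^-1 (x - y))^p = r^3 int m^p, and int m^p < top since b0 p < 3 < b1 p
(integrableOn_ball_of_norm_le_rpow or integrable_fun_norm_addHaar). boundary: S x < top a.e.; each term is
continuous at t = 0 (F is continuous on OO, pt_zero_ne), the bound m also holds at t = 0;
tendsto_tsum_of_dominated_convergence. summable_integral: |F X| <= C / |X|^(3/p) (real power), and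
|aff y r (pt t x)| = |pt t (x - y)| / r, so the integral is <= |c| r^(3/p) K(t) with
K(t) = C int |pt t x|^(-3/p) dx < oo (3/p > 3, integrable_rpow_neg_one_add_norm_sq), sum |c| r^(3/p) < oo.
-/

/-- The majorant of the maximal function of a molecule. -/
def synthhp_m (b₀ b₁ : ℕ) (C : ℝ) (z : Bd 3) : ℝ :=
  |C| * min ((2 / ‖z‖) ^ b₀) ((2 / ‖z‖) ^ b₁)

theorem synthhp_m_nonneg (b₀ b₁ : ℕ) (C : ℝ) (z : Bd 3) : 0 ≤ synthhp_m b₀ b₁ C z := by
  unfold synthhp_m
  exact mul_nonneg (abs_nonneg _) (le_min (by positivity) (by positivity))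

theorem synthhp_m_meas (b₀ b₁ : ℕ) (C : ℝ) : Measurable (synthhp_m b₀ b₁ C) := by
  unfold synthhp_m
  fun_prop

theorem synthhp_aux {C a s : ℝ} (b : ℕ) (hs : 0 < s) (h : s ≤ 2 * a) :
    C / a ^ b ≤ |C| * (2 / s) ^ b := by
  have ha : 0 < a := by linarith
  have h1 : 1 / a ≤ 2 / s := by
    rw [div_le_div_iff₀ ha hs]
    linarith
  have h2 : (1 / a) ^ b ≤ (2 / s) ^ b := pow_le_pow_left₀ (by positivity) h1 b
  calc C / a ^ b = C * (1 / a) ^ b := by rw [one_div, inv_pow, div_eq_mul_inv]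
    _ ≤ |C| * (1 / a) ^ b := mul_le_mul_of_nonneg_right (le_abs_self C) (by positivity)
    _ ≤ |C| * (2 / s) ^ b := mul_le_mul_of_nonneg_left h2 (abs_nonneg C)

theorem synthhp_bound {b₀ b₁ : ℕ} {C : ℝ} {f : Sp 3 → ℝ} (hf : Mol b₀ b₁ C f) {X : Sp 3}
    (h0 : 0 ≤ X 0) {z : Bd 3} (hz : z ≠ 0) (hX : ‖z‖ ≤ 2 * ‖X‖) :
    |f X| ≤ synthhp_m b₀ b₁ C z := by
  have hz' : 0 < ‖z‖ := norm_pos_iff.2 hz
  have hX0 : X ≠ 0 := by
    rintro rfl
    rw [norm_zero] at hX
    linarith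
  have h := hf.2 [] (by simp) X h0 hX0
  simp only [DL_nil, List.length_nil, add_zero] at h
  unfold synthhp_m
  rw [mul_min_of_nonneg _ _ (abs_nonneg C)]
  exact le_min (h.1.trans (synthhp_aux b₀ hz' hX)) (h.2.trans (synthhp_aux b₁ hz' hX))

theorem synthhp_finrank : Module.finrank ℝ (Bd 3) = 3 := by simp

theorem synthhp_integrable {p : ℝ} {b₀ b₁ : ℕ} (C : ℝ) (hp : 0 < p) (h0 : (b₀ : ℝ) * p < 3)
    (h1 : 3 < (b₁ : ℝ) * p) : Integrable (fun z => synthhp_m b₀ b₁ C z ^ p) := by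
  have hm : AEStronglyMeasurable (fun z => synthhp_m b₀ b₁ C z ^ p) volume :=
    ((synthhp_m_meas b₀ b₁ C).pow_const p).aestronglyMeasurable
  have hA : IntegrableOn (fun z => synthhp_m b₀ b₁ C z ^ p) (ball 0 1) := by
    refine integrableOn_ball_of_norm_le_rpow (C := (|C| * 2 ^ b₀) ^ p) (α := b₀ * p)
      (by rw [synthhp_finrank]; norm_num) (by rw [synthhp_finrank]; exact_mod_cast h0) ?_ hm
    refine Eventually.of_forall fun z => ?_
    rw [Real.norm_of_nonneg (Real.rpow_nonneg (synthhp_m_nonneg _ _ _ _) _)]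
    have h2 : synthhp_m b₀ b₁ C z ≤ |C| * 2 ^ b₀ * (‖z‖ ^ b₀)⁻¹ := by
      unfold synthhp_m
      refine (mul_le_mul_of_nonneg_left (min_le_left _ _) (abs_nonneg C)).trans (le_of_eq ?_)
      rw [div_pow, div_eq_mul_inv, mul_assoc]
    refine (Real.rpow_le_rpow (synthhp_m_nonneg _ _ _ _) h2 hp.le).trans (le_of_eq ?_)
    rw [Real.mul_rpow (by positivity) (by positivity), Real.inv_rpow (by positivity),
      ← Real.rpow_natCast ‖z‖ b₀, ← Real.rpow_mul (norm_nonneg _), Real.rpow_neg (norm_nonneg _)]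
  have hB : IntegrableOn (fun z => synthhp_m b₀ b₁ C z ^ p) (ball 0 1)ᶜ := by
    have hi : Integrable (fun z : Bd 3 => (|C| * 4 ^ b₁) ^ p * (1 + ‖z‖) ^ (-(b₁ * p))) :=
      (integrable_one_add_norm (by rw [synthhp_finrank]; exact_mod_cast h1)).const_mul _
    refine Integrable.mono' hi.integrableOn hm.restrict ?_
    refine (ae_restrict_iff' measurableSet_ball.compl).2 (Eventually.of_forall fun z hz => ?_)
    have hz1 : 1 ≤ ‖z‖ := by simpa using hz
    rw [Real.norm_of_nonneg (Real.rpow_nonneg (synthhp_m_nonneg _ _ _ _) _)]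
    have h3 : 2 / ‖z‖ ≤ 4 / (1 + ‖z‖) := by
      rw [div_le_div_iff₀ (by linarith) (by linarith)]
      linarith
    have h2 : synthhp_m b₀ b₁ C z ≤ |C| * 4 ^ b₁ * ((1 + ‖z‖) ^ b₁)⁻¹ := by
      unfold synthhp_m
      refine (mul_le_mul_of_nonneg_left ((min_le_right _ _).trans
        (pow_le_pow_left₀ (by positivity) h3 b₁)) (abs_nonneg C)).trans (le_of_eq ?_)
      rw [div_pow, div_eq_mul_inv, mul_assoc]
    refine (Real.rpow_le_rpow (synthhp_m_nonneg _ _ _ _) h2 hp.le).trans (le_of_eq ?_)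
    have h4 : (0 : ℝ) ≤ 1 + ‖z‖ := by positivity
    rw [Real.mul_rpow (by positivity) (by positivity), Real.inv_rpow (by positivity),
      ← Real.rpow_natCast (1 + ‖z‖) b₁, ← Real.rpow_mul h4, Real.rpow_neg h4]
  have := hA.union hB
  rwa [Set.union_compl_self, integrableOn_univ] at this

theorem synthhp_scale {G : Bd 3 → ℝ≥0∞} (hG : Measurable G) (y : Bd 3) {r : ℝ} (hr : 0 < r) :
    ∫⁻ x, G (r⁻¹ • (x - y)) = ENNReal.ofReal (r ^ 3) * ∫⁻ x, G x := by
  have h1 : ∫⁻ x, G (r⁻¹ • (x - y)) = ∫⁻ x, G (r⁻¹ • x) :=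
    lintegral_sub_right_eq_self (fun x => G (r⁻¹ • x)) y
  have h2 : ∫⁻ x, G (r⁻¹ • x) = ∫⁻ x, G x ∂(Measure.map (fun x : Bd 3 => r⁻¹ • x) volume) :=
    (lintegral_map hG (measurable_const_smul _)).symm
  rw [h1, h2, Measure.map_addHaar_smul volume (inv_ne_zero hr.ne'), lintegral_smul_measure,
    synthhp_finrank, inv_pow, inv_inv, abs_of_pos (by positivity), smul_eq_mul]

variable {p : ℝ} {b₀ b₁ : ℕ} {C : ℝ} {ι : Type} [Countable ι] {F : ι → Sp 3 → ℝ} {c : ι → ℝ}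
  {r : ι → ℝ}

/-- The majorant of the maximal function of the sum. -/
def synthhp_S (b₀ b₁ : ℕ) (C : ℝ) {ι : Type} (c : ι → ℝ) (y : ι → Bd 3) (r : ι → ℝ)
    (x : Bd 3) : ℝ≥0∞ :=
  ∑' i, ‖c i‖ₑ * ENNReal.ofReal (synthhp_m b₀ b₁ C ((r i)⁻¹ • (x - y i)))

theorem synthhp_S_meas (b₀ b₁ : ℕ) (C : ℝ) (c : ι → ℝ) (y : ι → Bd 3) (r : ι → ℝ) :
    Measurable (synthhp_S b₀ b₁ C c y r) := by
  unfold synthhp_S
  refine Measurable.tsum fun i => Measurable.const_mul ?_ _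
  exact ((synthhp_m_meas b₀ b₁ C).comp (by fun_prop)).ennreal_ofReal

theorem synthhp_S_int (h : Atoms p b₀ b₁ C F c r) (y : ι → Bd 3) :
    ∫⁻ x, synthhp_S b₀ b₁ C c y r x ^ p ≠ ⊤ := by
  have hG : Measurable fun z => ENNReal.ofReal (synthhp_m b₀ b₁ C z ^ p) :=
    ((synthhp_m_meas b₀ b₁ C).pow_const p).ennreal_ofReal
  have hI : ∫⁻ z, ENNReal.ofReal (synthhp_m b₀ b₁ C z ^ p) ≠ ⊤ :=
    (synthhp_integrable C h.hp0 h.h0 h.h1).lintegral_lt_top.ne
  have h1 : ∫⁻ x, synthhp_S b₀ b₁ C c y r x ^ p ≤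
      ∫⁻ x, ∑' i, ‖c i‖ₑ ^ p *
        ENNReal.ofReal (synthhp_m b₀ b₁ C ((r i)⁻¹ • (x - y i)) ^ p) := by
    refine lintegral_mono fun x => ?_
    refine (tsum_rpow_le _ h.hp0 h.hp1.le).trans (le_of_eq (tsum_congr fun i => ?_))
    rw [ENNReal.mul_rpow_of_nonneg _ _ h.hp0.le,
      ENNReal.ofReal_rpow_of_nonneg (synthhp_m_nonneg _ _ _ _) h.hp0.le]
  have hmi : ∀ i, Measurable fun x : Bd 3 =>
      ENNReal.ofReal (synthhp_m b₀ b₁ C ((r i)⁻¹ • (x - y i)) ^ p) := fun i =>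
    hG.comp (f := fun x : Bd 3 => (r i)⁻¹ • (x - y i)) (by fun_prop)
  rw [lintegral_tsum fun i => ((hmi i).const_mul _).aemeasurable] at h1
  have h2 : ∀ i, ∫⁻ x, ‖c i‖ₑ ^ p *
      ENNReal.ofReal (synthhp_m b₀ b₁ C ((r i)⁻¹ • (x - y i)) ^ p) =
        ‖c i‖ₑ ^ p * ENNReal.ofReal (r i ^ 3) *
          ∫⁻ z, ENNReal.ofReal (synthhp_m b₀ b₁ C z ^ p) := by
    intro i
    rw [lintegral_const_mul _ (hmi i), synthhp_scale hG (y i) (h.pos i), mul_assoc]
  simp only [h2] at h1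
  rw [ENNReal.tsum_mul_right] at h1
  exact ne_top_of_le_ne_top (ENNReal.mul_ne_top h.fin hI) h1

omit [Countable ι] in
theorem synthhp_term (h : Atoms p b₀ b₁ C F c r) (y : ι → Bd 3) {x : Bd 3} (i : ι)
    (hx : x ≠ y i) {t : ℝ} {w : Bd 3} (hw : ‖w - x‖ ≤ t) :
    |F i (aff (y i) (r i) (pt t w))| ≤ synthhp_m b₀ b₁ C ((r i)⁻¹ • (x - y i)) := by
  have hr := h.pos i
  have ht : 0 ≤ t := (norm_nonneg _).trans hw
  rw [aff_pt]
  refine synthhp_bound (h.mol i) (by rw [pt_zero]; positivity)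
    (smul_ne_zero (inv_ne_zero hr.ne') (sub_ne_zero.2 hx)) ?_
  have h1 := norm_le_norm_pt ((r i)⁻¹ * t) ((r i)⁻¹ • (w - y i))
  have h2 := abs_le_norm_pt ((r i)⁻¹ * t) ((r i)⁻¹ • (w - y i))
  have h3 : ‖x - y i‖ ≤ ‖w - y i‖ + t := by
    have : x - y i = (w - y i) - (w - x) := by abel
    rw [this]
    exact (norm_sub_le _ _).trans (by linarith)
  rw [abs_of_nonneg (by positivity)] at h2
  rw [norm_smul, Real.norm_of_nonneg (by positivity)] at h1 ⊢
  have h4 : (r i)⁻¹ * ‖x - y i‖ ≤ (r i)⁻¹ * (‖w - y i‖ + t) :=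
    mul_le_mul_of_nonneg_left h3 (by positivity)
  rw [mul_add] at h4
  linarith

theorem synthhp_ae_ne (y : ι → Bd 3) : ∀ᵐ x : Bd 3, ∀ i, x ≠ y i := by
  rw [ae_all_iff]
  intro i
  exact (Set.countable_singleton (y i)).ae_notMem volume

theorem Atoms.hpNorm_lt (h : Atoms p b₀ b₁ C F c r) (y : ι → Bd 3) :
    hpNorm p (syn F c y r) < ⊤ := by
  have h1 : ∫⁻ x, ntMax (syn F c y r) x ^ p ≤ ∫⁻ x, synthhp_S b₀ b₁ C c y r x ^ p := by
    refine lintegral_mono_ae ?_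
    filter_upwards [synthhp_ae_ne y] with x hx
    refine ENNReal.rpow_le_rpow ?_ h.hp0.le
    unfold ntMax
    refine iSup_le fun t => iSup_le fun w => iSup_le fun hw => ?_
    unfold syn synthhp_S
    refine enorm_tsum_le_tsum_enorm.trans (ENNReal.tsum_le_tsum fun i => ?_)
    rw [enorm_mul]
    refine mul_le_mul_right ?_ _
    rw [Real.enorm_eq_ofReal_abs]
    exact ENNReal.ofReal_le_ofReal (synthhp_term h y i (hx i) hw.le)
  unfold hpNorm
  exact ENNReal.rpow_lt_top_of_nonneg (by have := h.hp0; positivity)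
    (ne_top_of_le_ne_top (synthhp_S_int h y) h1)

theorem synthhp_pt_cont (x : Bd 3) : Continuous fun t : ℝ => pt t x := by
  have : (fun t : ℝ => pt t x) = fun t : ℝ => pt 0 x + t • ee 0 := funext fun t => pt_eq_add t x
  rw [this]
  fun_prop

theorem Atoms.boundary (h : Atoms p b₀ b₁ C F c r) (y : ι → Bd 3) :
    (∀ᵐ x, Summable fun i => c i * F i (pt 0 ((r i)⁻¹ • (x - y i)))) ∧
      HasBoundary (syn F c y r) fun x => ∑' i, c i * F i (pt 0 ((r i)⁻¹ • (x - y i))) := by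
  have hS : ∀ᵐ x, Summable fun i => |c i| * synthhp_m b₀ b₁ C ((r i)⁻¹ • (x - y i)) := by
    filter_upwards [ae_lt_top ((synthhp_S_meas b₀ b₁ C c y r).pow_const p) (synthhp_S_int h y)]
      with x hx
    have h1 : synthhp_S b₀ b₁ C c y r x ≠ ⊤ := by
      intro h2
      rw [h2, ENNReal.top_rpow_of_pos h.hp0] at hx
      exact lt_irrefl _ hx
    refine (ENNReal.summable_toReal h1).congr fun i => ?_
    rw [ENNReal.toReal_mul, toReal_enorm, ENNReal.toReal_ofReal (synthhp_m_nonneg _ _ _ _),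
      Real.norm_eq_abs]
  have hb : ∀ x : Bd 3, (∀ i, x ≠ y i) → ∀ t : ℝ, 0 ≤ t → ∀ i,
      ‖c i * F i (aff (y i) (r i) (pt t x))‖ ≤
        |c i| * synthhp_m b₀ b₁ C ((r i)⁻¹ • (x - y i)) := by
    intro x hx t ht i
    rw [Real.norm_eq_abs, abs_mul]
    exact mul_le_mul_of_nonneg_left (synthhp_term h y i (hx i) (by simpa using ht))
      (abs_nonneg _)
  have h0 : ∀ (x : Bd 3) i, aff (y i) (r i) (pt 0 x) = pt 0 ((r i)⁻¹ • (x - y i)) := by
    intro x i
    rw [aff_pt, mul_zero]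
  constructor
  · filter_upwards [hS, synthhp_ae_ne y] with x hx hne
    refine Summable.of_norm_bounded hx fun i => ?_
    rw [← h0]
    exact hb x hne 0 le_rfl i
  · unfold HasBoundary
    filter_upwards [hS, synthhp_ae_ne y] with x hx hne
    unfold syn
    refine tendsto_tsum_of_dominated_convergence hx (fun i => ?_) ?_
    · rw [← h0]
      refine Tendsto.const_mul _ (tendsto_nhdsWithin_of_tendsto_nhds ?_)
      have hO : aff (y i) (r i) (pt 0 x) ∈ OO := by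
        rw [h0]
        exact mem_OO (by rw [pt_zero])
          (pt_zero_ne (smul_ne_zero (inv_ne_zero (h.pos i).ne') (sub_ne_zero.2 (hne i))))
      have hc : ContinuousAt (F i) (aff (y i) (r i) (pt 0 x)) :=
        (h.mol i).1.1.continuousOn.continuousAt (isOpen_OO.mem_nhds hO)
      have hd : Continuous fun t : ℝ => aff (y i) (r i) (pt t x) := by
        unfold aff
        exact ((synthhp_pt_cont x).sub continuous_const).const_smul (r i)⁻¹
      exact ContinuousAt.comp (f := fun t : ℝ => aff (y i) (r i) (pt t x)) hc hd.continuousAt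
    · filter_upwards [self_mem_nhdsWithin] with t ht
      exact hb x hne t (le_of_lt ht)

theorem synthhp_rpow_bound {b₀ b₁ : ℕ} {C s : ℝ} {f : Sp 3 → ℝ} (hf : Mol b₀ b₁ C f)
    (h0 : (b₀ : ℝ) ≤ s) (h1 : s ≤ (b₁ : ℝ)) {X : Sp 3} (hX : 0 ≤ X 0) (hX0 : X ≠ 0) :
    |f X| ≤ |C| * ‖X‖ ^ (-s) := by
  have h := hf.2 [] (by simp) X hX hX0
  simp only [DL_nil, List.length_nil, add_zero] at h
  have hn : 0 < ‖X‖ := norm_pos_iff.2 hX0
  have key : ∀ b : ℕ, ‖X‖ ^ (-(b : ℝ)) ≤ ‖X‖ ^ (-s) → C / ‖X‖ ^ b ≤ |C| * ‖X‖ ^ (-s) := by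
    intro b hb
    rw [Real.rpow_neg hn.le, Real.rpow_natCast] at hb
    rw [div_eq_mul_inv]
    exact mul_le_mul (le_abs_self C) hb (by positivity) (abs_nonneg C)
  rcases le_total ‖X‖ 1 with h2 | h2
  · exact h.1.trans (key b₀ (Real.rpow_le_rpow_of_exponent_ge hn h2 (by linarith)))
  · exact h.2.trans (key b₁ (Real.rpow_le_rpow_of_exponent_le h2 (by linarith)))

theorem Atoms.summable_integral (h : Atoms p b₀ b₁ C F c r) (y : ι → Bd 3) {t : ℝ}
    (ht : 0 < t) : Summable fun i => ∫ x, |c i * F i (aff (y i) (r i) (pt t x))| := by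
  have hp := h.hp0
  set s : ℝ := 3 / p with hs
  have hs3 : 3 < s := by
    rw [hs, lt_div_iff₀ hp]
    linarith [h.hp1]
  have hs0 : (b₀ : ℝ) ≤ s := by
    rw [hs, le_div_iff₀ hp]
    exact h.h0.le
  have hs1 : s ≤ (b₁ : ℝ) := by
    rw [hs, div_le_iff₀ hp]
    exact h.h1.le
  set μ : ℝ := min t 1 / 2 with hμ
  have hμ0 : 0 < μ := by
    have : 0 < min t 1 := lt_min ht one_pos
    positivity
  have hint : Integrable fun x : Bd 3 => (1 + ‖x‖) ^ (-s) :=
    integrable_one_add_norm (by rw [synthhp_finrank]; exact_mod_cast hs3)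
  have hsum : Summable fun i => |c i| * r i ^ s := by
    have h1 : (∑' i, ‖c i‖ₑ * ENNReal.ofReal (r i ^ s)) ^ p ≤
        ∑' i, ‖c i‖ₑ ^ p * ENNReal.ofReal (r i ^ 3) := by
      refine (tsum_rpow_le _ hp h.hp1.le).trans (le_of_eq (tsum_congr fun i => ?_))
      have hr := h.pos i
      rw [ENNReal.mul_rpow_of_nonneg _ _ hp.le,
        ENNReal.ofReal_rpow_of_nonneg (by positivity) hp.le, ← Real.rpow_mul hr.le, hs,
        div_mul_cancel₀ _ hp.ne']
      congr 2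
      exact_mod_cast Real.rpow_natCast (r i) 3
    have h2 : ∑' i, ‖c i‖ₑ * ENNReal.ofReal (r i ^ s) ≠ ⊤ := by
      intro h3
      rw [h3, ENNReal.top_rpow_of_pos hp] at h1
      exact h.fin (top_le_iff.1 h1)
    refine (ENNReal.summable_toReal h2).congr fun i => ?_
    have hr := h.pos i
    rw [ENNReal.toReal_mul, toReal_enorm, ENNReal.toReal_ofReal (by positivity),
      Real.norm_eq_abs]
  refine Summable.of_nonneg_of_le (fun i => integral_nonneg fun x => abs_nonneg _) (fun i => ?_)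
    (hsum.mul_right (|C| * μ ^ (-s) * ∫ x : Bd 3, (1 + ‖x‖) ^ (-s)))
  have hr := h.pos i
  have hi : Integrable fun x : Bd 3 =>
      |c i| * r i ^ s * (|C| * μ ^ (-s)) * (1 + ‖x - y i‖) ^ (-s) :=
    (hint.comp_sub_right (y i)).const_mul _
  refine (integral_mono_of_nonneg (Eventually.of_forall fun x => abs_nonneg _) hi
    (Eventually.of_forall fun x => ?_)).trans (le_of_eq ?_)
  · have hX : 0 < aff (y i) (r i) (pt t x) 0 := by
      rw [aff_pt, pt_zero]
      positivity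
    have hX0 : aff (y i) (r i) (pt t x) ≠ 0 := upper_ne_zero hX
    have h1 := synthhp_rpow_bound (h.mol i) hs0 hs1 hX.le hX0
    have h2 : (r i)⁻¹ * (μ * (1 + ‖x - y i‖)) ≤ ‖aff (y i) (r i) (pt t x)‖ := by
      rw [aff_pt]
      have h3 := norm_le_norm_pt ((r i)⁻¹ * t) ((r i)⁻¹ • (x - y i))
      have h4 := abs_le_norm_pt ((r i)⁻¹ * t) ((r i)⁻¹ • (x - y i))
      rw [abs_of_nonneg (by positivity)] at h4
      rw [norm_smul, Real.norm_of_nonneg (by positivity)] at h3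
      have h5 : μ * (1 + ‖x - y i‖) ≤ t / 2 + ‖x - y i‖ / 2 := by
        have h6 : min t 1 ≤ t := min_le_left _ _
        have h7 : min t 1 * ‖x - y i‖ ≤ 1 * ‖x - y i‖ :=
          mul_le_mul_of_nonneg_right (min_le_right _ _) (norm_nonneg _)
        rw [hμ]
        nlinarith
      have h8 := mul_le_mul_of_nonneg_left h5 (inv_nonneg.2 hr.le)
      nlinarith
    have hpos : 0 < (r i)⁻¹ * (μ * (1 + ‖x - y i‖)) := by positivity
    have h3 : ‖aff (y i) (r i) (pt t x)‖ ^ (-s) ≤ ((r i)⁻¹ * (μ * (1 + ‖x - y i‖))) ^ (-s) :=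
      Real.rpow_le_rpow_of_nonpos hpos h2 (by linarith)
    rw [Real.mul_rpow (by positivity) (by positivity),
      Real.mul_rpow (by positivity) (by positivity), Real.inv_rpow hr.le, Real.rpow_neg hr.le,
      inv_inv] at h3
    show |c i * F i (aff (y i) (r i) (pt t x))| ≤ _
    rw [abs_mul]
    have h4 := h1.trans (mul_le_mul_of_nonneg_left h3 (abs_nonneg C))
    have h5 := mul_le_mul_of_nonneg_left h4 (abs_nonneg (c i))
    refine h5.trans (le_of_eq ?_)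
    ring
  · rw [integral_const_mul, integral_sub_right_eq_self (fun x : Bd 3 => (1 + ‖x‖) ^ (-s)) (y i)]
    ring

end

end Pool.Agent.MP_882061_an

end

-- part MP_882061_an.Final
section

/-!
Assembly: for small `p` the map `T_2` on `H^p(R^3)` is onto and is not one-to-one.
-/

open MeasureTheory Filter Topology Metric
open scoped ENNReal ContDiff

namespace Pool.Agent.MP_882061_an

noncomputable section

theorem mol_of_dec {κ : Type} [Fintype κ] {b₀ b₁ : ℕ} {f : κ → Sp 3 → ℝ} (hH : ∀ k, Har (f k))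
    (h0 : ∀ k, Dec b₀ (f k)) (h1 : ∀ k, Dec b₁ (f k)) : ∃ C : ℝ, ∀ k, Mol b₀ b₁ C (f k) := by
  choose C0 hC0 using fun k α => (h0 k).2 α
  choose C1 hC1 using fun k α => (h1 k).2 α
  have hfin : ((Set.univ : Set κ) ×ˢ {α : List (Fin 4) | α.length ≤ 2}).Finite :=
    Set.finite_univ.prod (List.finite_length_le _ 2)
  obtain ⟨C, hC⟩ := (hfin.image fun q => max (C0 q.1 q.2) (C1 q.1 q.2)).bddAbove
  refine ⟨C, fun k => ⟨hH k, fun α hα X hX0 hX => ?_⟩⟩
  have h2 : max (C0 k α) (C1 k α) ≤ C := hC ⟨(k, α), ⟨trivial, hα⟩, rfl⟩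
  constructor
  · refine (hC0 k α X hX0 hX).trans ?_
    gcongr
    exact (le_max_left _ _).trans h2
  · refine (hC1 k α X hX0 hX).trans ?_
    gcongr
    exact (le_max_right _ _).trans h2

theorem continuous_pt_zero : Continuous fun x : Bd 3 => pt 0 x := by
  unfold pt
  refine (PiLp.continuous_toLp 2 _).comp (continuous_pi fun i => ?_)
  refine Fin.cases ?_ (fun j => ?_) i
  · simpa using continuous_const
  · simp only [Fin.cons_succ]
    fun_prop

theorem measurable_trace {f : Sp 3 → ℝ} (hf : ContDiffOn ℝ ∞ f OO) :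
    Measurable fun x : Bd 3 => f (pt 0 x) := by
  refine measurable_of_continuousOn_compl_singleton 0 ?_
  exact hf.continuousOn.comp continuous_pt_zero.continuousOn fun x hx =>
    mem_OO (by simp) (pt_zero_ne hx)

/-- The data produced by the construction of the molecules. -/
structure Data (p : ℝ) (b₀ b₁ : ℕ) (C : ℝ) (G : Fin 9 → Sp 3 → ℝ) (R θ : ℝ) : Prop where
  hp0 : 0 < p
  hp1 : p < 1
  h0 : (b₀ : ℝ) * p < 3
  h1 : 3 < (b₁ : ℝ) * p
  har : ∀ β, Har (G β)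
  dec : ∀ β, ∃ a, 3 ≤ a ∧ Dec a (G β)
  mol : ∀ a b β, Mol b₀ b₁ C (DL [a, b] (G β))
  hR : 0 < R
  hθ0 : 0 ≤ θ
  hθ : θ < 1
  ineq : ∀ A : Fin 9 → ℝ, (∫⁻ x in closedBall (0 : Bd 3) R, ‖A + act (Psi G) x A‖ₑ ^ p) +
      ∫⁻ x in (closedBall (0 : Bd 3) R)ᶜ, ‖act (Psi G) x A‖ₑ ^ p ≤
        ENNReal.ofReal θ * ‖A‖ₑ ^ p * volume (closedBall (0 : Bd 3) R)

theorem tail_small {F : Bd 3 → ℝ} (hF : Integrable F) {κ : ℝ} (hκ : 0 < κ) (R₀ : ℝ) :
    ∃ R : ℝ, R₀ ≤ R ∧
      ∫⁻ x in (closedBall (0 : Bd 3) R)ᶜ, ENNReal.ofReal (F x) ≤ ENNReal.ofReal κ := by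
  let ν : Measure (Bd 3) := volume.withDensity fun x => ENNReal.ofReal (F x)
  have hν : ∀ s, MeasurableSet s → ν s = ∫⁻ x in s, ENNReal.ofReal (F x) := fun s hs =>
    withDensity_apply _ hs
  have hm : ∀ n : ℕ, MeasurableSet (closedBall (0 : Bd 3) n)ᶜ := fun n =>
    measurableSet_closedBall.compl
  have h1 : Tendsto (fun n : ℕ => ν (closedBall (0 : Bd 3) n)ᶜ) atTop
      (𝓝 (ν (⋂ n : ℕ, (closedBall (0 : Bd 3) n)ᶜ))) := by
    refine tendsto_measure_iInter_atTop (fun n => (hm n).nullMeasurableSet) ?_ ⟨0, ?_⟩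
    · intro m n hmn
      exact Set.compl_subset_compl.2 (closedBall_subset_closedBall (by exact_mod_cast hmn))
    · rw [hν _ (hm 0)]
      exact ((setLIntegral_le_lintegral _ _).trans_lt hF.lintegral_lt_top).ne
  rw [← Set.compl_iUnion, iUnion_closedBall_nat, Set.compl_univ, measure_empty] at h1
  have h2 := h1.eventually (ge_mem_nhds (ENNReal.ofReal_pos.2 hκ))
  obtain ⟨n, hn1, hn2⟩ := (h2.and (tendsto_natCast_atTop_atTop.eventually_ge_atTop R₀)).exists
  exact ⟨n, hn2, by rwa [← hν _ (hm n)]⟩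

theorem ae_ne_zero : ∀ᵐ x : Bd 3, x ≠ 0 := (Set.countable_singleton (0 : Bd 3)).ae_notMem volume

theorem exists_data : ∃ p₀ : ℝ, 0 < p₀ ∧ p₀ < 1 ∧ ∀ p : ℝ, 0 < p → p ≤ p₀ →
    ∃ (b₀ b₁ : ℕ) (C : ℝ) (G : Fin 9 → Sp 3 → ℝ) (R θ : ℝ), Data p b₀ b₁ C G R θ := by
  obtain ⟨C, hC, hmol⟩ := exists_molecule
  obtain ⟨N, hN, hnum⟩ := numeric C hC
  have hN' : (5 : ℝ) ≤ N := by exact_mod_cast hN
  have hp₀ : 1 / (4 * (N : ℝ)) < 1 := by
    rw [div_lt_one (by positivity)]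
    linarith
  refine ⟨1 / (4 * N), by positivity, hp₀, fun p hp0 hp => ?_⟩
  obtain ⟨κ, hκ, R₀, hR₀, hR⟩ := hnum p hp0 hp
  obtain ⟨b, hb⟩ := exists_nat_gt (max (4 * (N : ℝ)) (3 / p))
  have hb1 : 4 * N ≤ b := by exact_mod_cast ((le_max_left _ _).trans_lt hb).le
  have hb2 : 3 < ((b + 2 + 1 + 1 : ℕ) : ℝ) * p := by
    have := (le_max_right _ _).trans_lt hb
    rw [div_lt_iff₀ hp0] at this
    push_cast
    nlinarith
  have hb0 : ((4 * N - 4 + 2 + 1 + 1 : ℕ) : ℝ) * p < 3 := by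
    rw [show 4 * N - 4 + 2 + 1 + 1 = 4 * N by omega]
    rw [le_div_iff₀ (by positivity)] at hp
    push_cast
    linarith
  obtain ⟨G, hG, hW⟩ := hmol N hN b hb1
  obtain ⟨C', hC'⟩ := mol_of_dec (κ := Fin 4 × Fin 4 × Fin 9)
    (f := fun q => DL [q.1, q.2.1] (G q.2.2)) (fun q => (hG _).1.DL _)
    (fun q => ((hG _).2.1.D _).D _) (fun q => ((hG _).2.2.D _).D _)
  have hint := (synthhp_integrable C' hp0 hb0 hb2).const_mul (9 ^ p)
  obtain ⟨R, hR1, hR2⟩ := tail_small hint (half_pos hκ) R₀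
  have hRpos : 0 < R := hR₀.trans_le hR1
  have hI := hR R hR1
  obtain ⟨V, hV0, hV⟩ : ∃ V : ℝ, 0 < V ∧ volume (closedBall (0 : Bd 3) R) = ENNReal.ofReal V :=
    ⟨_, ENNReal.toReal_pos (measure_closedBall_pos volume _ hRpos).ne'
      measure_closedBall_lt_top.ne, (ENNReal.ofReal_toReal measure_closedBall_lt_top.ne).symm⟩
  rw [hV] at hI
  have hκV : κ ≤ V := (ENNReal.ofReal_le_ofReal_iff hV0.le).1 (le_add_self.trans hI)
  have hθ0 : 0 ≤ 1 - κ / (2 * V) := by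
    rw [sub_nonneg, div_le_one (by positivity)]
    linarith
  refine ⟨_, _, C', G, R, 1 - κ / (2 * V), hp0, hp.trans_lt hp₀, hb0, hb2, fun β => (hG β).1,
    fun β => ⟨_, by omega, (hG β).2.2⟩, fun a b β => hC' (a, b, β), hRpos, hθ0,
    sub_lt_self _ (by positivity), fun A => ?_⟩
  have e1 : ∫⁻ x in closedBall (0 : Bd 3) R, ‖A + act (Psi G) x A‖ₑ ^ p ≤
      ‖A‖ₑ ^ p * ∫⁻ x in closedBall (0 : Bd 3) R, ENNReal.ofReal (Wt C N ‖x‖ ^ p) := by
    rw [← lintegral_const_mul' _ _ (ENNReal.rpow_ne_top_of_nonneg hp0.le enorm_ne_top)]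
    refine lintegral_mono_ae (ae_restrict_of_ae ?_)
    filter_upwards [ae_ne_zero] with x hx
    have hw := numeric_wt_nonneg hC N ‖x‖
    rw [← ENNReal.ofReal_rpow_of_nonneg hw hp0.le, ← ENNReal.mul_rpow_of_nonneg _ _ hp0.le]
    refine ENNReal.rpow_le_rpow ?_ hp0.le
    rw [← ofReal_norm, ← ofReal_norm, ← ENNReal.ofReal_mul (norm_nonneg _), mul_comm]
    exact ENNReal.ofReal_le_ofReal (hW x hx A)
  have e2 : ∫⁻ x in (closedBall (0 : Bd 3) R)ᶜ, ‖act (Psi G) x A‖ₑ ^ p ≤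
      ‖A‖ₑ ^ p * ∫⁻ x in (closedBall (0 : Bd 3) R)ᶜ, ENNReal.ofReal
        (9 ^ p * synthhp_m (4 * N - 4 + 2 + 1 + 1) (b + 2 + 1 + 1) C' x ^ p) := by
    rw [← lintegral_const_mul' _ _ (ENNReal.rpow_ne_top_of_nonneg hp0.le enorm_ne_top)]
    refine lintegral_mono_ae (ae_restrict_of_ae ?_)
    filter_upwards [ae_ne_zero] with x hx
    have hm := synthhp_m_nonneg (4 * N - 4 + 2 + 1 + 1) (b + 2 + 1 + 1) C' x
    rw [← Real.mul_rpow (by norm_num) hm, ← ENNReal.ofReal_rpow_of_nonneg (by positivity) hp0.le,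
      ← ENNReal.mul_rpow_of_nonneg _ _ hp0.le]
    refine ENNReal.rpow_le_rpow ?_ hp0.le
    rw [← ofReal_norm, ← ofReal_norm, ← ENNReal.ofReal_mul (norm_nonneg _)]
    refine ENNReal.ofReal_le_ofReal ?_
    rw [pi_norm_le_iff_of_nonneg (by positivity)]
    intro α
    have e3 : ∀ β, |A β * Psi G α β x| ≤
        ‖A‖ * synthhp_m (4 * N - 4 + 2 + 1 + 1) (b + 2 + 1 + 1) C' x := by
      intro β
      rw [abs_mul]
      refine mul_le_mul (norm_le_pi_norm A β) ?_ (abs_nonneg _) (norm_nonneg _)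
      refine synthhp_bound (hC' ((ix α).1, (ix α).2, β)) (by simp) hx ?_
      rw [norm_pt_zero]
      linarith [norm_nonneg x]
    refine (Finset.abs_sum_le_sum_abs _ _).trans ((Finset.sum_le_sum fun β _ => e3 β).trans_eq ?_)
    simp
    ring
  have e3 : ∫⁻ x in closedBall (0 : Bd 3) R, ENNReal.ofReal (Wt C N ‖x‖ ^ p) ≤
      ENNReal.ofReal (V - κ) := by
    rw [ENNReal.ofReal_sub _ hκ.le]
    exact ENNReal.le_sub_of_add_le_right ENNReal.ofReal_ne_top hI
  refine (add_le_add e1 e2).trans ?_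
  rw [← mul_add, hV, mul_comm (ENNReal.ofReal _), mul_assoc, ← ENNReal.ofReal_mul hθ0]
  gcongr
  refine (add_le_add e3 hR2).trans ?_
  rw [← ENNReal.ofReal_add (by linarith) (by linarith)]
  refine ENNReal.ofReal_le_ofReal (le_of_eq ?_)
  field_simp
  ring

/-- Index of the component `R_j`. -/
def i1 : Fin 3 → Fin 9 := ![0, 1, 2]

/-- Index of the component `R_k R_l`. -/
def i2 : Fin 3 → Fin 3 → Fin 9 := ![![3, 4, 5], ![4, 6, 7], ![5, 7, 8]]

theorem ix_i1 : ∀ j, ix (i1 j) = (0, j.succ) := by decide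

theorem ix_i2 : ∀ k l, k ≤ l → ix (i2 k l) = (k.succ, l.succ) := by decide

/-- The component `(a, b)` of the sum of the atoms. -/
def comp (G : Fin 9 → Sp 3 → ℝ) {ι : Type} (y : ι → Bd 3) (r : ι → ℝ) (A : ι → Fin 9 → ℝ)
    (a b : Fin 4) : Sp 3 → ℝ :=
  syn (fun q : ι × Fin 9 => DL [a, b] (G q.2)) (fun q => A q.1 q.2) (fun q => y q.1)
    fun q => r q.1

theorem coeff_le {p : ℝ} (hp : 0 < p) {ι : Type} (r : ι → ℝ) (A : ι → Fin 9 → ℝ) :
    ∑' q : ι × Fin 9, ‖A q.1 q.2‖ₑ ^ p * ENNReal.ofReal (r q.1 ^ 3) ≤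
      9 * ∑' i, ‖A i‖ₑ ^ p * ENNReal.ofReal (r i ^ 3) := by
  rw [ENNReal.tsum_prod', ← ENNReal.tsum_mul_left]
  refine ENNReal.tsum_le_tsum fun i => ?_
  rw [tsum_fintype]
  have h : ∀ β, ‖A i β‖ₑ ^ p * ENNReal.ofReal (r i ^ 3) ≤
      ‖A i‖ₑ ^ p * ENNReal.ofReal (r i ^ 3) := by
    intro β
    gcongr
    rw [← ofReal_norm, ← ofReal_norm]
    exact ENNReal.ofReal_le_ofReal (norm_le_pi_norm (A i) β)
  refine (Finset.sum_le_sum fun β _ => h β).trans_eq ?_
  simp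

variable {p : ℝ} {b₀ b₁ : ℕ} {C : ℝ} {G : Fin 9 → Sp 3 → ℝ} {R θ : ℝ}

theorem Data.atoms (h : Data p b₀ b₁ C G R θ) {ι : Type} {r : ι → ℝ} {A : ι → Fin 9 → ℝ}
    (hr : ∀ i, 0 < r i) (hA : ∑' i, ‖A i‖ₑ ^ p * ENNReal.ofReal (r i ^ 3) ≠ ⊤) (a b : Fin 4) :
    Atoms p b₀ b₁ C (fun q : ι × Fin 9 => DL [a, b] (G q.2)) (fun q => A q.1 q.2)
      fun q => r q.1 :=
  ⟨h.hp0, h.hp1, h.h0, h.h1, fun q => h.mol a b q.2, fun q => hr q.1,
    ne_top_of_le_ne_top (ENNReal.mul_ne_top (by norm_num) hA) (coeff_le h.hp0 r A)⟩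

theorem Data.riesz (h : Data p b₀ b₁ C G R θ) (β : Fin 9) (j : Fin 3) (l : Fin 4) :
    IsRiesz j (DL [0, l] (G β)) (DL [j.succ, l] (G β)) := by
  obtain ⟨a, ha, hd⟩ := h.dec β
  exact isRiesz_of_dec (a := a + 1) (by omega) ((h.har β).D l) (hd.D l) j

theorem Data.isT2 (h : Data p b₀ b₁ C G R θ) {ι : Type} [Countable ι] (y : ι → Bd 3)
    {r : ι → ℝ} {A : ι → Fin 9 → ℝ} (hr : ∀ i, 0 < r i)
    (hA : ∑' i, ‖A i‖ₑ ^ p * ENNReal.ofReal (r i ^ 3) ≠ ⊤) {g : Bd 3 → Fin 9 → ℝ}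
    (hg : ∀ᵐ x, HasSum (fun i => act (Psi G) ((r i)⁻¹ • (x - y i)) (A i)) (g x)) :
    IsT2 p (comp G y r A 0 0) (fun j x => g x (i1 j)) fun k l x => g x (i2 k l) := by
  have hat := h.atoms hr hA
  have hmem : ∀ a b, MemHp p (comp G y r A a b) := fun a b =>
    ⟨(hat a b).harmonic _, (hat a b).hpNorm_lt _⟩
  have hrs : ∀ (j : Fin 3) (a b a' b' : Fin 4),
      (∀ β, IsRiesz j (DL [a, b] (G β)) (DL [a', b'] (G β))) →
        IsRiesz j (comp G y r A a b) (comp G y r A a' b') := fun j a b a' b' hh =>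
    isRiesz_tsum (fun q => (hh q.2).aff (y q.1) (hr q.1) (A q.1 q.2))
      (fun t ht => (hat a b).summable_integral _ ht)
      (fun t ht => (hat a' b').summable_integral _ ht)
  have hbd : ∀ α : Fin 9, HasBoundary (comp G y r A (ix α).1 (ix α).2) fun x => g x α := by
    intro α
    obtain ⟨h1, h2⟩ := (hat (ix α).1 (ix α).2).boundary fun q => y q.1
    filter_upwards [h1, h2, hg] with x hx1 hx2 hx3
    have h3 := (Pi.hasSum.1 hx3 α).tsum_eq
    rw [hx1.tsum_prod] at hx2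
    simp only [tsum_fintype] at hx2
    rw [← h3]
    exact hx2
  refine ⟨hmem 0 0, fun j => comp G y r A 0 j.succ, fun k l => comp G y r A k.succ l.succ,
    fun j => ⟨hmem _ _, hrs _ _ _ _ _ fun β => ?_, ?_⟩,
    fun k l hkl => ⟨hmem _ _, hrs _ _ _ _ _ fun β => h.riesz β k _, ?_⟩⟩
  · exact (h.riesz β j 0).congr (fun _ _ => rfl)
      fun X hX => D_comm isOpen_OO (h.har β).1 _ _ (upper_subset_OO hX)
  · have := hbd (i1 j)
    rwa [ix_i1] at this
  · have := hbd (i2 k l)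
    rwa [ix_i2 k l hkl] at this

theorem Data.meas (h : Data p b₀ b₁ C G R θ) (α β : Fin 9) : Measurable (Psi G α β) :=
  measurable_trace (contDiffOn_DL isOpen_OO (h.har β).1 _)

theorem Data.onto (h : Data p b₀ b₁ C G R θ) : T2Onto 3 p := by
  intro g₁ g₂ h1 h2
  obtain ⟨C', hC', hc⟩ := cover h.hp0 h.hp1.le (Psi G) h.meas h.hR h.hθ0 h.hθ h.ineq
  let g : Bd 3 → Fin 9 → ℝ := fun x α =>
    (![g₁ 0, g₁ 1, g₁ 2, g₂ 0 0, g₂ 0 1, g₂ 0 2, g₂ 1 1, g₂ 1 2, g₂ 2 2] : Fin 9 → Bd 3 → ℝ) α x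
  have hm : MemLp g (ENNReal.ofReal p) volume := by
    rw [memLp_pi_iff]
    intro α
    fin_cases α
    exacts [h1 0, h1 1, h1 2, h2 0 0 (by decide), h2 0 1 (by decide), h2 0 2 (by decide),
      h2 1 1 (by decide), h2 1 2 (by decide), h2 2 2 (by decide)]
  have hI : ∫⁻ x, ‖g x‖ₑ ^ p ≠ ⊤ := by
    have h3 := hm.2
    rw [eLpNorm_lt_top_iff_lintegral_rpow_enorm_lt_top (by simpa using h.hp0)
      ENNReal.ofReal_ne_top, ENNReal.toReal_ofReal h.hp0.le] at h3
    exact h3.ne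
  obtain ⟨ι, _, y, r, A, hr, hA, hs⟩ := hc g hm.1 hI 1 one_pos
  obtain ⟨hu, v, w, hv, hw⟩ := h.isT2 y (fun i => (hr i).1)
    (ne_top_of_le_ne_top (ENNReal.mul_ne_top hC' hI) hA) hs
  refine ⟨_, hu, v, w, fun j => ?_, fun k l hkl => ?_⟩
  · have e : (fun x => g x (i1 j)) = g₁ j := by fin_cases j <;> rfl
    exact e ▸ hv j
  · have e : (fun x => g x (i2 k l)) = g₂ k l := by
      fin_cases k <;> fin_cases l <;> first | rfl | exact absurd hkl (by decide)
    exact e ▸ hw k l hkl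

theorem Data.exists_ne (h : Data p b₀ b₁ C G R θ) :
    ∃ β, ∃ X ∈ upper 3, DL [0, 0] (G β) X ≠ 0 := by
  by_contra hcon
  push Not at hcon
  have h1 : ∀ β (x : Bd 3), x ≠ 0 → Psi G 3 β x + Psi G 6 β x + Psi G 8 β x = 0 := by
    intro β x hx
    have hm : pt 0 x ∈ OO := mem_OO (by simp) (pt_zero_ne hx)
    have hc : ContinuousAt (DL [0, 0] (G β)) (pt 0 x) :=
      (diffAt_of isOpen_OO (contDiffOn_DL isOpen_OO (h.har β).1 _) hm).continuousAt
    have h2 : Tendsto (fun t : ℝ => DL [0, 0] (G β) (pt t x)) (𝓝[>] 0)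
        (𝓝 (DL [0, 0] (G β) (pt 0 x))) :=
      (hc.tendsto.comp ((synthhp_pt_cont x).tendsto 0)).mono_left nhdsWithin_le_nhds
    have h3 : (fun t : ℝ => DL [0, 0] (G β) (pt t x)) =ᶠ[𝓝[>] 0] fun _ => 0 := by
      filter_upwards [self_mem_nhdsWithin] with t ht
      exact hcon β _ (pt_mem_upper ht x)
    have h4 : D 0 (D 0 (G β)) (pt 0 x) = 0 :=
      tendsto_nhds_unique h2 (tendsto_const_nhds.congr' h3.symm)
    have h5 := (h.har β).2 _ hm
    rw [Fin.sum_univ_four, h4, zero_add] at h5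
    exact h5
  let A : Fin 9 → ℝ := ![0, 0, 0, 1, 0, 0, 1, 0, 1]
  have hA : ‖A‖ ≤ 1 := by
    rw [pi_norm_le_iff_of_nonneg zero_le_one]
    intro α
    fin_cases α <;> simp [A]
  have h2 : ∀ x : Bd 3, x ≠ 0 → 1 ≤ ‖A + act (Psi G) x A‖ := by
    intro x hx
    have e : (A + act (Psi G) x A) 3 + (A + act (Psi G) x A) 6 + (A + act (Psi G) x A) 8 = 3 := by
      have e2 : act (Psi G) x A 3 + act (Psi G) x A 6 + act (Psi G) x A 8 = 0 := by
        simp only [act, ← Finset.sum_add_distrib, ← mul_add, h1 _ x hx, mul_zero,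
          Finset.sum_const_zero]
      have e3 : A 3 = 1 := rfl
      have e6 : A 6 = 1 := rfl
      have e8 : A 8 = 1 := rfl
      simp only [Pi.add_apply]
      linarith
    have n3 := le_of_abs_le (norm_le_pi_norm (A + act (Psi G) x A) 3)
    have n6 := le_of_abs_le (norm_le_pi_norm (A + act (Psi G) x A) 6)
    have n8 := le_of_abs_le (norm_le_pi_norm (A + act (Psi G) x A) 8)
    linarith
  have h3 : volume (closedBall (0 : Bd 3) R) ≤
      ∫⁻ x in closedBall (0 : Bd 3) R, ‖A + act (Psi G) x A‖ₑ ^ p := by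
    rw [← setLIntegral_one]
    refine lintegral_mono_ae (ae_restrict_of_ae ?_)
    filter_upwards [ae_ne_zero] with x hx
    refine ENNReal.one_le_rpow ?_ h.hp0
    rw [← ofReal_norm]
    exact ENNReal.one_le_ofReal.2 (h2 x hx)
  have h4 : ‖A‖ₑ ^ p ≤ 1 := by
    refine ENNReal.rpow_le_one ?_ h.hp0.le
    rw [← ofReal_norm]
    exact ENNReal.ofReal_le_one.2 hA
  have h5 : ENNReal.ofReal θ * ‖A‖ₑ ^ p < 1 :=
    (mul_le_of_le_one_right' h4).trans_lt (ENNReal.ofReal_lt_one.2 h.hθ)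
  have h6 := (h3.trans le_self_add).trans (h.ineq A)
  have h7 : ENNReal.ofReal θ * ‖A‖ₑ ^ p * volume (closedBall (0 : Bd 3) R) <
      1 * volume (closedBall (0 : Bd 3) R) :=
    ENNReal.mul_lt_mul_left (measure_closedBall_pos volume _ h.hR).ne'
      measure_closedBall_lt_top.ne h5
  rw [one_mul] at h7
  exact absurd h6 (not_le.2 h7)

theorem Data.not_injective (h : Data p b₀ b₁ C G R θ) : ¬ T2Injective 3 p := by
  intro hinj
  obtain ⟨β, X, hX, hne⟩ := h.exists_ne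
  obtain ⟨C', hC', hc⟩ := cover h.hp0 h.hp1.le (Psi G) h.meas h.hR h.hθ0 h.hθ h.ineq
  let A₀ : Fin 9 → ℝ := Pi.single β 1
  let g : Bd 3 → Fin 9 → ℝ := fun x => act (Psi G) x A₀
  have hfin : ‖A₀‖ₑ ^ p ≠ ⊤ := ENNReal.rpow_ne_top_of_nonneg h.hp0.le enorm_ne_top
  have hI : ∫⁻ x, ‖g x‖ₑ ^ p ≠ ⊤ :=
    ne_top_of_le_ne_top (ENNReal.mul_ne_top (ENNReal.mul_ne_top (by simp)
      measure_closedBall_lt_top.ne) hfin) (cover_int h.hp0 h.hp1.le h.ineq A₀)
  have h0 : IsT2 p (comp G (fun _ : Unit => 0) (fun _ => 1) (fun _ => A₀) 0 0)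
      (fun j x => g x (i1 j)) fun k l x => g x (i2 k l) := by
    refine h.isT2 _ (fun _ => one_pos) (by simpa using hfin) (Eventually.of_forall fun x => ?_)
    simp only [inv_one, sub_zero, one_smul]
    exact hasSum_unique fun _ : Unit => g x
  have hval : comp G (fun _ : Unit => 0) (fun _ => 1) (fun _ => A₀) 0 0 X =
      DL [0, 0] (G β) X := by
    have e : aff 0 1 X = X := by
      ext i
      refine Fin.cases ?_ (fun j => ?_) i <;> simp [aff]
    simp [comp, syn, tsum_fintype, Fintype.sum_prod_type, A₀, Pi.single_apply, e]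
  set S : ℝ≥0∞ := (9 * (C' * ∫⁻ x, ‖g x‖ₑ ^ p)) ^ (1 / p) with hS
  have hS' : S ≠ ⊤ := ENNReal.rpow_ne_top_of_nonneg (by have := h.hp0; positivity)
    (ENNReal.mul_ne_top (by norm_num) (ENNReal.mul_ne_top hC' hI))
  have he : 0 < (b₁ : ℝ) - 3 / p := by
    rw [sub_pos, div_lt_iff₀ h.hp0]
    exact h.h1
  have ht : Tendsto (fun r₀ : ℝ => ENNReal.ofReal (C * r₀ ^ ((b₁ : ℝ) - 3 / p) / X 0 ^ b₁) * S)
      (𝓝[>] 0) (𝓝 0) := by
    have h1 : Tendsto (fun r₀ : ℝ => r₀ ^ ((b₁ : ℝ) - 3 / p)) (𝓝 0) (𝓝 0) := by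
      have := (Real.continuousAt_rpow_const 0 _ (Or.inr he.le)).tendsto
      rwa [Real.zero_rpow he.ne'] at this
    have h2 := ENNReal.tendsto_ofReal ((h1.const_mul C).div_const (X 0 ^ b₁))
    simp only [mul_zero, zero_div, ENNReal.ofReal_zero] at h2
    have h3 := ENNReal.Tendsto.mul_const h2 (Or.inr hS')
    rw [zero_mul] at h3
    exact h3.mono_left nhdsWithin_le_nhds
  have hpos : 0 < ‖DL [0, 0] (G β) X‖ₑ := by simpa [pos_iff_ne_zero] using hne
  obtain ⟨r₀, hr₀, hr₀'⟩ := ((ht.eventually (gt_mem_nhds hpos)).and self_mem_nhdsWithin).exists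
  obtain ⟨ι, _, y, r, A, hr, hA, hs⟩ :=
    hc g (cover_meas h.meas A₀).aestronglyMeasurable hI r₀ hr₀'
  have hA' := ne_top_of_le_ne_top (ENNReal.mul_ne_top hC' hI) hA
  have h1 := h.isT2 y (fun i => (hr i).1) hA' hs
  have h2 := hinj _ (h1.sub h.hp0 h.hp1.le h0) X hX
  have h3 := (h.atoms (fun i => (hr i).1) hA' 0 0).small (fun q => y q.1)
    (fun q => (hr q.1).2) hX
  have h4 : comp G y r A 0 0 X = DL [0, 0] (G β) X := by
    rw [← hval]
    exact sub_eq_zero.1 h2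
  have h5 : ‖DL [0, 0] (G β) X‖ₑ ≤
      ENNReal.ofReal (C * r₀ ^ ((b₁ : ℝ) - 3 / p) / X 0 ^ b₁) * S := by
    rw [← h4]
    refine h3.trans ?_
    have hp := h.hp0
    rw [hS]
    gcongr
    exact (coeff_le h.hp0 r A).trans (by gcongr)
  exact absurd h5 (not_le.2 hr₀)

theorem injective_of_embedding {d : ℕ} {p : ℝ} (hp : 0 < p) (h : T2Embedding d p) :
    T2Injective d p := by
  obtain ⟨c, hc, h⟩ := h
  intro u hu X hX
  by_contra hne
  have h1 := h u 0 0 hu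
  have h2 : 0 < ENNReal.ofReal c * hpNorm p u :=
    ENNReal.mul_pos (ENNReal.ofReal_pos.2 hc).ne' (hpNorm_pos hp hX hne).ne'
  have h3 : eLpNorm (0 : Bd d → ℝ) (ENNReal.ofReal p) volume = 0 := eLpNorm_zero
  simp only [Pi.zero_apply, h3, Finset.sum_const_zero, add_zero] at h1
  exact absurd h1 (not_le.2 h2)

theorem main : ∃ p₀ : ℝ, 0 < p₀ ∧ p₀ < 1 ∧ ∀ p : ℝ, 0 < p → p ≤ p₀ →
    ¬ T2Embedding 3 p ∧ ¬ T2Injective 3 p ∧ T2Onto 3 p := by
  obtain ⟨p₀, h0, h1, h⟩ := exists_data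
  refine ⟨p₀, h0, h1, fun p hp0 hp => ?_⟩
  obtain ⟨b₀, b₁, C, G, R, θ, hd⟩ := h p hp0 hp
  exact ⟨fun he => hd.not_injective (injective_of_embedding hp0 he), hd.not_injective, hd.onto⟩

end

end Pool.Agent.MP_882061_an

end
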